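import Pool.Agent.H34.Ger.GB

/-!
AD: admissible pairs are closed under `h ↦ h b aⁱ` and `h ↦ h b aⁱ c⁻¹`.
-/

set_option autoImplicit false

namespace Pool.Agent.H34.Ger

theorem Adm.inv_not_mem {𝒞 : Combing Gr} {r : ℕ} {h : Gr} (hA : Adm 𝒞 r h) : h⁻¹ ∉ H := by
  intro hm
  have h1 := hA.2.1 _ hm
  rw [mul_inv_cancel] at h1
  exact absurd hA.1 (not_lt.mpr h1)

theorem Adm.ba {𝒞 : Combing Gr} {r : ℕ} {h : Gr} (hA : Adm 𝒞 r h) (i : ℤ) :
    Adm 𝒞 r (h * b * a ^ i) := by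
  refine ⟨hA.1, fun x hx => ?_, fun n => ?_⟩
  · have := hA.2.1 _ (ba_mem i x hx)
    simpa [mul_assoc] using this
  · have := hA.2.1 _ (bat_mem i n)
    simpa [mul_assoc] using this

theorem Adm.bac {𝒞 : Combing Gr} {r : ℕ} {h : Gr} (hA : Adm 𝒞 r h) (i : ℤ) :
    Adm 𝒞 r (h * b * a ^ i * c⁻¹) := by
  refine ⟨hA.1, fun x hx => ?_, fun n => ?_⟩
  · have := hA.2.1 _ (bac_mem i x hx)
    simpa [mul_assoc] using this
  · have := hA.2.1 _ (bact_mem i n)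
    simpa [mul_assoc] using this

/-- Points of the flat `h b A` have length at least `r`. -/
theorem Adm.flat {𝒞 : Combing Gr} {r : ℕ} {h : Gr} (hA : Adm 𝒞 r h) (i n : ℤ) :
    r ≤ 𝒞.T (h * b * a ^ i * t ^ n) := by
  have := hA.2.1 _ (bat_mem i n)
  simpa [mul_assoc] using this

end Pool.Agent.H34.Ger
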