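import Pool.Agent.H34.Ger.Defs

/-!
CL: short completions in a finite automaton, and cutting loops.
`short_path`: among all words leading from state `p` to the set/state, take one of minimal length; if its
length is at least `card σ`, `DFA.evalFrom_split` gives `x = a ++ b ++ c`, `b ≠ []`, with `a ++ c` leading to
the same state: contradiction.
`compl_right`: state after `u.take s` reaches an accepting state by `u.drop s`.
`compl_left`: state after `u.take s` is reached from the start by a word `c` of length `≤ card σ`, then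
`c ++ u.drop s` is accepted.
`cut`: if the states after `u.take r` and `u.take r'` agree, `u.take r ++ u.drop r'` is accepted.
(`M.eval_append_singleton`, `DFA.evalFrom_of_append`, `DFA.mem_accepts`.)
-/

set_option autoImplicit false

namespace Pool.Agent.H34.Ger

theorem CL_short {α σ : Type} [Fintype σ] (M : DFA α σ) (p : σ) (m : ℕ) : ∀ x : List α, x.length = m →
    ∃ y : List α, y.length ≤ Fintype.card σ ∧ M.evalFrom p y = M.evalFrom p x := by
  induction m using Nat.strong_induction_on with
  | _ m ih =>
    intro x hx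
    by_cases h : Fintype.card σ ≤ x.length
    · obtain ⟨q, a, b, c, h1, h2, h3, h4, h5, h6⟩ :=
        DFA.evalFrom_split (M := M) h (s := p) (t := M.evalFrom p x) rfl
      have hl : x.length = a.length + b.length + c.length := by
        rw [h1, List.length_append, List.length_append]
      have hb : 0 < b.length := List.length_pos_iff.2 h3
      obtain ⟨y, hy, e⟩ := ih (a ++ c).length (by rw [List.length_append]; omega) (a ++ c) rfl
      refine ⟨y, hy, ?_⟩
      rw [e, DFA.evalFrom_of_append, h4, h6]
    · exact ⟨x, by omega, rfl⟩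

theorem short_path {α σ : Type} [Fintype σ] (M : DFA α σ) (p q : σ) (u : List α)
    (h : M.evalFrom p u = q) : ∃ v : List α, v.length ≤ Fintype.card σ ∧ M.evalFrom p v = q := by
  obtain ⟨y, hy, e⟩ := CL_short M p _ u rfl
  exact ⟨y, hy, e.trans h⟩

theorem compl_right {α σ : Type} [Fintype σ] (M : DFA α σ) (u : List α) (hu : u ∈ M.accepts) (s : ℕ) :
    ∃ v : List α, v.length ≤ Fintype.card σ ∧ u.take s ++ v ∈ M.accepts := by
  obtain ⟨c, hc, e⟩ := CL_short M (M.eval (u.take s)) _ (u.drop s) rfl
  refine ⟨c, hc, ?_⟩
  rw [DFA.mem_accepts] at hu ⊢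
  unfold DFA.eval at hu e ⊢
  rw [DFA.evalFrom_of_append, e, ← DFA.evalFrom_of_append, List.take_append_drop]
  exact hu

theorem compl_left {α σ : Type} [Fintype σ] (M : DFA α σ) (u : List α) (hu : u ∈ M.accepts) (s : ℕ) :
    ∃ v : List α, v.length ≤ Fintype.card σ ∧ v ++ u.drop s ∈ M.accepts := by
  obtain ⟨c, hc, e⟩ := CL_short M M.start _ (u.take s) rfl
  refine ⟨c, hc, ?_⟩
  rw [DFA.mem_accepts] at hu ⊢
  unfold DFA.eval at hu ⊢
  rw [DFA.evalFrom_of_append, e, ← DFA.evalFrom_of_append, List.take_append_drop]
  exact hu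

theorem cut {α σ : Type} (M : DFA α σ) (u : List α) (hu : u ∈ M.accepts) (r r' : ℕ)
    (h : M.eval (u.take r) = M.eval (u.take r')) : u.take r ++ u.drop r' ∈ M.accepts := by
  rw [DFA.mem_accepts] at hu ⊢
  unfold DFA.eval at hu h ⊢
  rw [DFA.evalFrom_of_append, h, ← DFA.evalFrom_of_append, List.take_append_drop]
  exact hu

end Pool.Agent.H34.Ger
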