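import Pool.Agent.H34.Ger.QA
import Pool.Agent.H34.Ger.CL

/-!
QB: quasiconvexity of cosets of centralizers.
`w = (B.w g).drop s₁`; `c₀ ++ w` accepted with `|c₀| ≤ card σ` (`compl_left`); `v` accepted with
`val v = y⁻¹ g` (`B.surj`).  `x = y⁻¹ * E s₁ g * (val c₀)⁻¹` satisfies `x * val (c₀ ++ w) = y⁻¹ g = val v`
(as `g = val ((B.w g).take s₁) * val w`), `N x ≤ K' + card σ`.  `ft_left` (for `u = c₀ ++ w`, `v`, `x`) at time
`|c₀| + (s - s₁)`: `x * val ((c₀ ++ w).take (|c₀| + (s - s₁))) = y⁻¹ * E s g`, so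
`N ((y⁻¹ E s g)⁻¹ v(·)) ≤ k (K' + card σ + 1)`.  By `near_centralizer` there is `x'` commuting with `z₁, z₂`,
`N (x'⁻¹ v(·)) ≤ R`.  Then `N ((y x')⁻¹ E s g) ≤ R + k (K' + card σ + 1)`.
-/

set_option autoImplicit false

namespace Pool.Agent.H34.Ger.BA

variable {G : Type} [Group G] {α σ : Type} [Fintype α] [Fintype σ] (B : BA G α σ)

theorem QB_append (u v : List α) : B.val (u ++ v) = B.val u * B.val v := by simp [val]

theorem QC (z₁ z₂ : G) (K' : ℕ) : ∃ K'' : ℕ, ∀ (g y : G) (s₁ : ℕ), s₁ ≤ B.T g →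
    B.N (y⁻¹ * B.E s₁ g) ≤ K' → Commute (y⁻¹ * g) z₁ → Commute (y⁻¹ * g) z₂ →
    ∀ s, s₁ ≤ s → ∃ x, Commute x z₁ ∧ Commute x z₂ ∧ B.N ((y * x)⁻¹ * B.E s g) ≤ K'' := by
  obtain ⟨R, hR⟩ := B.near_centralizer z₁ z₂
  refine ⟨R + B.k * (K' + Fintype.card σ + 1), ?_⟩
  intro g y s1 hs1 hd h1 h2 s hs
  obtain ⟨c0, hc0, hm⟩ := compl_left B.M (B.w g) (B.w_mem g) s1
  obtain ⟨v, hv, hv'⟩ := B.surj (y⁻¹ * g)
  change B.val v = _ at hv'
  set x := y⁻¹ * B.E s1 g * (B.val c0)⁻¹ with hx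
  have hxn : B.N x ≤ K' + Fintype.card σ := by
    have := B.N_mul (y⁻¹ * B.E s1 g) (B.val c0)⁻¹
    rw [B.N_inv, ← hx] at this
    have h3 := B.N_val_le c0
    omega
  have hxe : x * B.val (c0 ++ (B.w g).drop s1) = B.val v := by
    rw [QB_append, hv', hx]
    have : B.E s1 g * B.val ((B.w g).drop s1) = g := by
      unfold E; rw [← QB_append, List.take_append_drop, B.w_val]
    calc y⁻¹ * B.E s1 g * (B.val c0)⁻¹ * (B.val c0 * B.val ((B.w g).drop s1))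
        = y⁻¹ * (B.E s1 g * B.val ((B.w g).drop s1)) := by group
      _ = y⁻¹ * g := by rw [this]
  have hft := B.ft_left _ v hm hv x hxe (c0.length + (s - s1))
  have e1 : x * B.val ((c0 ++ (B.w g).drop s1).take (c0.length + (s - s1))) = y⁻¹ * B.E s g := by
    rw [List.take_length_add_append, QB_append, hx]
    have h4 : B.E s1 g * B.val (((B.w g).drop s1).take (s - s1)) = B.E s g := by
      unfold E
      rw [← QB_append, ← List.take_add, Nat.add_sub_cancel' hs]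
    calc y⁻¹ * B.E s1 g * (B.val c0)⁻¹ * (B.val c0 * B.val (((B.w g).drop s1).take (s - s1)))
        = y⁻¹ * (B.E s1 g * B.val (((B.w g).drop s1).take (s - s1))) := by group
      _ = _ := by rw [h4]
  rw [e1] at hft
  obtain ⟨c, hc1, hc2, hc3⟩ := hR v hv (by rw [hv']; exact h1) (by rw [hv']; exact h2) (c0.length + (s - s1))
  refine ⟨c, hc1, hc2, ?_⟩
  have h5 := B.N_mul (c⁻¹ * B.val (v.take (c0.length + (s - s1))))
    ((B.val (v.take (c0.length + (s - s1))))⁻¹ * (y⁻¹ * B.E s g))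
  have e2 : c⁻¹ * B.val (v.take (c0.length + (s - s1))) *
    ((B.val (v.take (c0.length + (s - s1))))⁻¹ * (y⁻¹ * B.E s g)) = (y * c)⁻¹ * B.E s g := by group
  rw [e2] at h5
  rw [← B.N_inv] at hft
  have e3 : ((y⁻¹ * B.E s g)⁻¹ * B.val (v.take (c0.length + (s - s1))))⁻¹ =
    (B.val (v.take (c0.length + (s - s1))))⁻¹ * (y⁻¹ * B.E s g) := by group
  rw [e3] at hft
  have h6 : B.k * (B.N x + 1) ≤ B.k * (K' + Fintype.card σ + 1) := Nat.mul_le_mul_left _ (by omega)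
  omega

end Pool.Agent.H34.Ger.BA
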