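import Pool.Agent.H34.Ger.LEb
import Pool.Agent.H34.Ger.QB

/-!
CM: assembly of the combing data of a biautomatic structure (`K` = maximum of all constants).
-/

set_option autoImplicit false

namespace Pool.Agent.H34.Ger.BA

variable {G : Type} [Group G] {α σ : Type} [Fintype α] [Fintype σ] (B : BA G α σ)

include B in
theorem combing : Nonempty (Combing G) := by
  obtain ⟨K₁, h₁⟩ := B.T_lip
  obtain ⟨K₂, h₂⟩ := B.T_E
  obtain ⟨K₃, h₃⟩ := B.E_E
  refine ⟨{ N := B.N, T := B.T, E := B.E, K := K₁ + K₂ + K₃ + 2 * B.k, N_one := B.N_one,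
            N_mul := B.N_mul, N_inv := B.N_inv, N_fin := B.N_fin, N_le_T := B.N_le_T,
            E_zero := B.E_zero, E_top := B.E_top, E_step := B.E_step,
            T_lip := ?_, E_lip := ?_, T_E_le := ?_, T_E_ge := ?_, E_E := ?_, QC := B.QC }⟩
  · intro g x
    refine (h₁ g x).trans ?_
    gcongr
    omega
  · intro r g x
    refine (B.E_lip r g x).trans ?_
    gcongr
    omega
  · intro g s hs
    have := (h₂ g s hs).1
    omega
  · intro g s hs
    have := (h₂ g s hs).2
    omega
  · intro g r s hr hs
    have := h₃ g r s hr hs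
    omega

end Pool.Agent.H34.Ger.BA
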