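import Pool.Agent.H34.Ger.GA

/-!
GC: crossing the boundary of the half space `H`.
Lemma 1 (free group): if the reduced word of `w` does not start with `(1,true)`, and `x` is a letter with
`w ≠ 1` or `x ≠ (1,true)`, then the reduced word of `w * x` does not start with `(1,true)`.
(The reduced word of `w * mk [x]` is either `w.toWord ++ [x]` or, if `w.toWord = L ++ [x⁻¹]`, the list
`L`; in both cases the first letter does not change unless the list becomes empty or `w = 1`.)
Lemma 2: one standard letter.  With `g = (w, n)`:  `g * a^± = (w a^±, n)`, `g * t^± = (w, n ± 1)`,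
`g * b = (w b aⁿ, n)`, `g * b⁻¹ = (w a⁻ⁿ b⁻¹, n)`, `g * c = (w c a²ⁿ, n)`, `g * c⁻¹ = (w a⁻²ⁿ c⁻¹, n)`.
By Lemma 1 (applied letter by letter) the only step from outside `H` into `H` is `g * b` with
`w = 1`, that is `g = tⁿ`.
Lemma 3: induction on the list.
-/

set_option autoImplicit false

namespace Pool.Agent.H34.Ger

theorem GC_toWord {L : List (Fin 3 × Bool)} (h : FreeGroup.IsReduced L) :
    (FreeGroup.mk L).toWord = L := by
  rw [FreeGroup.toWord_mk, h.reduce_eq]

theorem head_mul_letter (w : F3) (x : Fin 3 × Bool) (hw : w.toWord.head? ≠ some (1, true))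
    (hx : w ≠ 1 ∨ x ≠ (1, true)) :
    (w * FreeGroup.mk [x]).toWord.head? ≠ some (1, true) := by
  have hred : FreeGroup.IsReduced w.toWord := FreeGroup.isReduced_toWord
  have hmk : FreeGroup.mk w.toWord = w := FreeGroup.mk_toWord
  generalize hL : w.toWord = L at hw hred hmk
  rcases List.eq_nil_or_concat L with rfl | ⟨L', y, rfl⟩
  · have h1 : w = 1 := by rw [← hmk]; rfl
    rw [h1, one_mul, GC_toWord FreeGroup.IsReduced.singleton]
    rcases hx with hx | hx
    · exact absurd h1 hx
    · simpa using hx
  · rw [List.concat_eq_append] at hw hred hmk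
    by_cases hyx : y.1 = x.1 → y.2 = x.2
    · have h2 : FreeGroup.IsReduced (L' ++ [y] ++ [x]) :=
        FreeGroup.IsReduced.append_overlap hred
          (by
            show FreeGroup.IsReduced [y, x]
            rw [FreeGroup.isReduced_cons_cons]
            exact ⟨hyx, FreeGroup.IsReduced.singleton⟩) (by simp)
      have h3 : w * FreeGroup.mk [x] = FreeGroup.mk (L' ++ [y] ++ [x]) := by
        rw [← hmk, FreeGroup.mul_mk]
      rw [h3, GC_toWord h2]
      cases L' with
      | nil => simpa using hw
      | cons z L'' => simpa using hw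
    · push Not at hyx
      obtain ⟨e1, e2⟩ := hyx
      have e3 : y = (x.1, !x.2) := by
        refine Prod.ext e1 ?_
        revert e2
        cases y.2 <;> cases x.2 <;> simp
      have h3 : w * FreeGroup.mk [x] = FreeGroup.mk L' := by
        rw [← hmk, FreeGroup.mul_mk, e3]
        have := @FreeGroup.Red.Step.not_rev _ L' [] x.1 x.2
        rw [List.append_nil] at this
        have h4 : FreeGroup.mk (L' ++ (x.1, !x.2) :: (x.1, x.2) :: []) = FreeGroup.mk L' :=
          Quot.sound this
        rw [List.append_assoc]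
        exact h4
      have h4 : FreeGroup.IsReduced L' := (List.isChain_append.1 hred).1
      rw [h3, GC_toWord h4]
      cases L' with
      | nil => simp
      | cons z L'' => simpa using hw

theorem GC_pow (w : F3) (hw : w.toWord.head? ≠ some (1, true)) (n : ℤ) :
    (w * FreeGroup.of 0 ^ n).toWord.head? ≠ some (1, true) := by
  induction n using Int.induction_on with
  | zero => simpa using hw
  | succ n ih =>
    rw [zpow_add_one, ← mul_assoc]
    exact head_mul_letter _ (0, true) ih (Or.inr (by decide))
  | pred n ih =>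
    rw [zpow_sub_one, ← mul_assoc]
    exact head_mul_letter _ (0, false) ih (Or.inr (by decide))

theorem cross_letter (y s : Gr) (hy : y ∉ H) (hs : s ∈ Std) (h : y * s ∈ H) :
    ∃ m : ℤ, y = t ^ m := by
  have hy' : y.left.toWord.head? ≠ some (1, true) := hy
  have h' : (y * s).left.toWord.head? = some (1, true) := h
  set n := Multiplicative.toAdd y.right with hn
  simp only [Std, Set.mem_insert_iff, Set.mem_singleton_iff] at hs
  rcases hs with rfl | rfl | rfl | rfl | rfl | rfl | rfl | rfl
  · exfalso
    have e : (y * a).left = y.left * FreeGroup.of 0 ^ (1 : ℤ) := by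
      rw [a, left_mul_inl, phi_of0, zpow_one]
    rw [e] at h'
    exact GC_pow _ hy' _ h'
  · exfalso
    have e : (y * a⁻¹).left = y.left * FreeGroup.of 0 ^ (-1 : ℤ) := by
      rw [a, ← map_inv, left_mul_inl, map_inv, phi_of0, zpow_neg_one]
    rw [e] at h'
    exact GC_pow _ hy' _ h'
  · have e : (y * b).left = y.left * FreeGroup.of 1 * FreeGroup.of 0 ^ n := by
      rw [b, left_mul_inl, phi_of1, mul_assoc]
    rw [e] at h'
    by_cases h1 : y.left = 1
    · refine ⟨n, ?_⟩
      have := eq_inl_mul_t y
      rw [h1, map_one, one_mul] at this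
      exact this
    · exfalso
      exact GC_pow _ (head_mul_letter _ (1, true) hy' (Or.inl h1)) _ h'
  · exfalso
    have e : (y * b⁻¹).left = y.left * FreeGroup.of 0 ^ (-n) * (FreeGroup.of 1)⁻¹ := by
      rw [b, ← map_inv, left_mul_inl, map_inv, phi_of1, mul_inv_rev, zpow_neg, mul_assoc]
    rw [e] at h'
    exact head_mul_letter _ (1, false) (GC_pow _ hy' _) (Or.inr (by decide)) h'
  · exfalso
    have e : (y * c).left = y.left * FreeGroup.of 2 * FreeGroup.of 0 ^ (2 * n) := by
      rw [c, left_mul_inl, phi_of2, mul_assoc]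
    rw [e] at h'
    exact GC_pow _ (head_mul_letter _ (2, true) hy' (Or.inr (by decide))) _ h'
  · exfalso
    have e : (y * c⁻¹).left = y.left * FreeGroup.of 0 ^ (-(2 * n)) * (FreeGroup.of 2)⁻¹ := by
      rw [c, ← map_inv, left_mul_inl, map_inv, phi_of2, mul_inv_rev, zpow_neg, mul_assoc]
    rw [e] at h'
    exact head_mul_letter _ (2, false) (GC_pow _ hy' _) (Or.inr (by decide)) h'
  · exfalso
    have e := left_mul_t y 1
    rw [zpow_one] at e
    rw [e] at h'
    exact hy' h'
  · exfalso
    have e := left_mul_t y (-1)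
    rw [zpow_neg_one] at e
    rw [e] at h'
    exact hy' h'

theorem cross_list (l : List Gr) (hl : ∀ x ∈ l, x ∈ Std) (y : Gr) (hy : y ∉ H)
    (h : y * l.prod ∈ H) :
    ∃ l₁ l₂ : List Gr, l = l₁ ++ l₂ ∧ ∃ m : ℤ, y * l₁.prod = t ^ m := by
  induction l generalizing y with
  | nil =>
    rw [List.prod_nil, mul_one] at h
    exact absurd h hy
  | cons s l ih =>
    by_cases h1 : y * s ∈ H
    · obtain ⟨m, hm⟩ := cross_letter y s hy (hl s (by simp)) h1
      exact ⟨[], s :: l, rfl, m, by simpa using hm⟩
    · rw [List.prod_cons, ← mul_assoc] at h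
      obtain ⟨l₁, l₂, e, m, hm⟩ := ih (fun x hx => hl x (by simp [hx])) (y * s) h1 h
      refine ⟨s :: l₁, l₂, by rw [e]; rfl, m, ?_⟩
      rw [List.prod_cons, ← mul_assoc]
      exact hm

end Pool.Agent.H34.Ger
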