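import Pool.Agent.H34.Ger.GA

/-!
GD: centralizers.
(1) If `g` commutes with `a`, write `g = inl w * tⁿ`; since `t` commutes with `a`, `w` commutes with
`of 0` in the free group, hence `w = of 0 ^ i`.  (Free group: by induction on the length of the reduced
word of `w`: if the reduced word of `w` is empty, done.  If it starts with `(0,true)` or `(0,false)` or ends
with such a letter, strip this letter.  Otherwise `of 0 * w` and `w * of 0` have reduced words
`(0,true) :: L` and `L ++ [(0,true)]`, which are equal only if `L` starts with `(0,true)` or is empty.)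
Any other proof is welcome (for example: two commuting elements of a free group lie in a cyclic group,
if available).
(2) `a^i t^n` commutes with `b⁻¹ a b` iff `b a^i t^n b⁻¹ = b a^(i-n) b⁻¹ t^n` commutes with `a`; by (1)
this element is `a^j t^n`, so `b a^(i-n) b⁻¹ = a^j` in the free group; abelianising (exponent sum of
`of 0`) gives `j = i - n`; and `b a^j b⁻¹ = a^j` only for `j = 0` (reduced words: for `j ≠ 0` the word
`b a^j b⁻¹` is reduced and starts with `b`).
(3) the same with `c`: `c a^i t^n c⁻¹ = c a^(i-2n) c⁻¹ t^n`.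
-/

set_option autoImplicit false

namespace Pool.Agent.H34.Ger

private theorem GD_aux (j : Fin 3) : ∀ (n : ℕ) (w : F3), w.toWord.length = n →
    Commute w (FreeGroup.of j) → ∃ i : ℤ, w = FreeGroup.of j ^ i := by
  intro n
  induction n with
  | zero =>
    intro w hw _
    have h1 : w.toWord = [] := List.eq_nil_of_length_eq_zero hw
    exact ⟨0, by rw [FreeGroup.toWord_eq_nil_iff.1 h1, zpow_zero]⟩
  | succ n ih =>
    intro w hw hc
    have hred := FreeGroup.isReduced_toWord (x := w)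
    match hL : w.toWord with
    | [] => rw [hL] at hw; simp at hw
    | (k, e) :: L' =>
      rw [hL] at hw hred
      have hw' : L'.length = n := by simpa using hw
      have hredL' : FreeGroup.IsReduced L' := List.IsChain.tail hred
      have hwmk : w = FreeGroup.mk [(k, e)] * FreeGroup.mk L' := by
        rw [FreeGroup.mul_mk, List.singleton_append, ← hL, FreeGroup.mk_toWord]
      have htw : (FreeGroup.mk L').toWord = L' := by
        rw [FreeGroup.toWord_mk, hredL'.reduce_eq]
      by_cases hk : k = j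
      · subst hk
        have hke : ∃ z : ℤ, FreeGroup.mk [(k, e)] = (FreeGroup.of k : F3) ^ z := by
          cases e
          · refine ⟨-1, ?_⟩
            rw [zpow_neg, zpow_one]
            rfl
          · exact ⟨1, by rw [zpow_one]; rfl⟩
        obtain ⟨z, hz⟩ := hke
        have hc' : Commute (FreeGroup.mk L') (FreeGroup.of k : F3) := by
          have h1 : FreeGroup.mk L' = ((FreeGroup.of k : F3) ^ z)⁻¹ * w := by
            rw [hwmk, hz]; group
          rw [h1]
          exact (((Commute.refl (FreeGroup.of k : F3)).zpow_left z).inv_left).mul_left hc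
        obtain ⟨i, hi⟩ := ih (FreeGroup.mk L') (by rw [htw]; exact hw') hc'
        exact ⟨z + i, by rw [hwmk, hz, hi, zpow_add]⟩
      · exfalso
        have h1 : (FreeGroup.of j * w).toWord = (j, true) :: (k, e) :: L' := by
          rw [FreeGroup.toWord_mul, FreeGroup.toWord_of, hL, List.singleton_append]
          apply FreeGroup.IsReduced.reduce_eq
          rw [FreeGroup.isReduced_cons_cons]
          exact ⟨fun h => absurd h.symm hk, hred⟩
        have h2 : (w * FreeGroup.of j).toWord = w.toWord ++ [(j, true)] := by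
          have hsub := FreeGroup.toWord_mul_sublist w (FreeGroup.of j)
          rw [FreeGroup.toWord_of] at hsub
          apply hsub.eq_of_length
          rw [hc.eq, h1, hL]
          simp
        rw [hc.eq, h1, hL, List.cons_append] at h2
        have h3 := (List.cons.inj h2).1
        exact hk (congrArg Prod.fst h3).symm

private theorem GD_commute_of (j : Fin 3) (w : F3) (h : Commute w (FreeGroup.of j)) :
    ∃ i : ℤ, w = FreeGroup.of j ^ i := GD_aux j _ w rfl h

/-- exponent sum of the generator `0` -/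
private def GD_e : F3 →* Multiplicative ℤ :=
  FreeGroup.lift ![Multiplicative.ofAdd 1, 1, 1]

private theorem GD_e0 (i : ℤ) : GD_e (FreeGroup.of 0 ^ i) = Multiplicative.ofAdd i := by
  rw [map_zpow]
  simp only [GD_e, FreeGroup.lift_apply_of, Matrix.cons_val_zero]
  rw [← ofAdd_zsmul]
  simp

private theorem GD_conj (j : Fin 3) (hj : j ≠ 0) (k : ℤ)
    (h : Commute (FreeGroup.of j * FreeGroup.of 0 ^ k * (FreeGroup.of j)⁻¹ : F3)
      (FreeGroup.of 0)) : k = 0 := by
  obtain ⟨l, hl⟩ := GD_commute_of 0 _ h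
  have hej : GD_e (FreeGroup.of j) = 1 := by
    simp only [GD_e, FreeGroup.lift_apply_of]
    fin_cases j
    · exact absurd rfl hj
    · rfl
    · rfl
  have h1 := congrArg GD_e hl
  rw [map_mul, map_mul, map_inv, hej, GD_e0, GD_e0, one_mul, inv_one, mul_one] at h1
  have h2 : k = l := Multiplicative.ofAdd.injective h1
  rw [← h2] at hl
  have h3 : Commute (FreeGroup.of 0 ^ k : F3) (FreeGroup.of j) := by
    have h4 : (FreeGroup.of j * FreeGroup.of 0 ^ k : F3) = FreeGroup.of 0 ^ k * FreeGroup.of j := by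
      calc (FreeGroup.of j * FreeGroup.of 0 ^ k : F3) =
          (FreeGroup.of j * FreeGroup.of 0 ^ k * (FreeGroup.of j)⁻¹) * FreeGroup.of j := by group
        _ = FreeGroup.of 0 ^ k * FreeGroup.of j := by rw [hl]
    exact h4.symm
  obtain ⟨m, hm⟩ := GD_commute_of j _ h3
  have h5 := congrArg GD_e hm
  rw [GD_e0, map_zpow, hej, one_zpow] at h5
  exact Multiplicative.ofAdd.injective h5

theorem commute_of0 (w : F3) (h : Commute w (FreeGroup.of 0)) : ∃ i : ℤ, w = FreeGroup.of 0 ^ i :=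
  GD_commute_of 0 w h

private theorem GD_inl (w : F3) (h : Commute (SemidirectProduct.inl w : Gr) a) :
    Commute w (FreeGroup.of 0) := by
  have h1 := h.eq
  unfold a at h1
  rw [← map_mul, ← map_mul] at h1
  exact SemidirectProduct.inl_injective h1

theorem commute_a (g : Gr) (h : Commute g a) : ∃ i n : ℤ, g = a ^ i * t ^ n := by
  have hg := eq_inl_mul_t g
  set n : ℤ := Multiplicative.toAdd g.right with hn
  have hc : Commute (SemidirectProduct.inl g.left : Gr) a := by
    have h1 : (SemidirectProduct.inl g.left : Gr) = g * (t ^ n)⁻¹ := by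
      nth_rewrite 2 [hg]; group
    rw [h1]
    exact h.mul_left ((at_comm.zpow_right n).inv_right).symm
  obtain ⟨i, hi⟩ := commute_of0 _ (GD_inl _ hc)
  refine ⟨i, n, ?_⟩
  rw [a_zpow, ← hi]
  exact hg

private theorem GD_tb (n : ℤ) : t ^ n * b⁻¹ = a ^ (-n) * b⁻¹ * t ^ n := by
  have h := t_b n
  have hat : t ^ n * a ^ n = a ^ n * t ^ n := ((at_comm.zpow_zpow n n).symm).eq
  have h1 : b⁻¹ * t ^ n * b = a ^ n * t ^ n := by
    calc b⁻¹ * t ^ n * b = b⁻¹ * (t ^ n * b) := by group
      _ = b⁻¹ * (b * a ^ n * t ^ n) := by rw [h]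
      _ = a ^ n * t ^ n := by group
  have h2 : b⁻¹ * t ^ n = a ^ n * t ^ n * b⁻¹ := by
    rw [← h1]; group
  calc t ^ n * b⁻¹ = a ^ (-n) * (a ^ n * t ^ n * b⁻¹) := by group
    _ = a ^ (-n) * (b⁻¹ * t ^ n) := by rw [h2]
    _ = a ^ (-n) * b⁻¹ * t ^ n := by group

private theorem GD_tc (n : ℤ) : t ^ n * c⁻¹ = a ^ (-(2 * n)) * c⁻¹ * t ^ n := by
  have h := t_c n
  have h1 : c⁻¹ * t ^ n * c = a ^ (2 * n) * t ^ n := by
    calc c⁻¹ * t ^ n * c = c⁻¹ * (t ^ n * c) := by group
      _ = c⁻¹ * (c * a ^ (2 * n) * t ^ n) := by rw [h]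
      _ = a ^ (2 * n) * t ^ n := by group
  have h2 : c⁻¹ * t ^ n = a ^ (2 * n) * t ^ n * c⁻¹ := by
    rw [← h1]; group
  calc t ^ n * c⁻¹ = a ^ (-(2 * n)) * (a ^ (2 * n) * t ^ n * c⁻¹) := by group
    _ = a ^ (-(2 * n)) * (c⁻¹ * t ^ n) := by rw [h2]
    _ = a ^ (-(2 * n)) * c⁻¹ * t ^ n := by group

private theorem GD_conj_commute {g x y : Gr} (h : Commute g (x⁻¹ * y * x)) :
    Commute (x * g * x⁻¹) y := by
  have h1 := h.eq
  show x * g * x⁻¹ * y = y * (x * g * x⁻¹)
  calc x * g * x⁻¹ * y = x * (g * (x⁻¹ * y * x)) * x⁻¹ := by group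
    _ = x * ((x⁻¹ * y * x) * g) * x⁻¹ := by rw [h1]
    _ = y * (x * g * x⁻¹) := by group

private theorem GD_key (j : Fin 3) (hj : j ≠ 0) (k n : ℤ)
    (h : Commute ((SemidirectProduct.inl (FreeGroup.of j) : Gr) * a ^ k *
      (SemidirectProduct.inl (FreeGroup.of j) : Gr)⁻¹ * t ^ n) a) : k = 0 := by
  have h1 : Commute ((SemidirectProduct.inl (FreeGroup.of j) : Gr) * a ^ k *
      (SemidirectProduct.inl (FreeGroup.of j) : Gr)⁻¹) a := by
    have h2 := h.mul_left ((at_comm.zpow_right n).inv_right).symm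
    rwa [mul_inv_cancel_right] at h2
  rw [a_zpow, ← map_mul, ← map_inv, ← map_mul] at h1
  exact GD_conj j hj k (GD_inl _ h1)

theorem commute_bab (i n : ℤ) (h : Commute (a ^ i * t ^ n) (b⁻¹ * a * b)) : i = n := by
  have h1 := GD_conj_commute h
  have h2 : b * (a ^ i * t ^ n) * b⁻¹ = b * a ^ (i - n) * b⁻¹ * t ^ n := by
    calc b * (a ^ i * t ^ n) * b⁻¹ = b * a ^ i * (t ^ n * b⁻¹) := by group
      _ = b * a ^ i * (a ^ (-n) * b⁻¹ * t ^ n) := by rw [GD_tb]
      _ = b * (a ^ i * a ^ (-n)) * b⁻¹ * t ^ n := by group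
      _ = b * a ^ (i - n) * b⁻¹ * t ^ n := by rw [← zpow_add, sub_eq_add_neg]
  rw [h2] at h1
  have := GD_key 1 (by decide) (i - n) n h1
  linarith

theorem commute_cac (i n : ℤ) (h : Commute (a ^ i * t ^ n) (c⁻¹ * a * c)) : i = 2 * n := by
  have h1 := GD_conj_commute h
  have h2 : c * (a ^ i * t ^ n) * c⁻¹ = c * a ^ (i - 2 * n) * c⁻¹ * t ^ n := by
    calc c * (a ^ i * t ^ n) * c⁻¹ = c * a ^ i * (t ^ n * c⁻¹) := by group
      _ = c * a ^ i * (a ^ (-(2 * n)) * c⁻¹ * t ^ n) := by rw [GD_tc]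
      _ = c * (a ^ i * a ^ (-(2 * n))) * c⁻¹ * t ^ n := by group
      _ = c * a ^ (i - 2 * n) * c⁻¹ * t ^ n := by rw [← zpow_add, sub_eq_add_neg]
  rw [h2] at h1
  have := GD_key 2 (by decide) (i - 2 * n) n h1
  linarith

/-- `(at)ʲ` commutes with `b⁻¹ a b`. -/
theorem at_commute_bab (j : ℤ) : Commute (a ^ j * t ^ j) (b⁻¹ * a * b) := by
  show a ^ j * t ^ j * (b⁻¹ * a * b) = b⁻¹ * a * b * (a ^ j * t ^ j)
  have hta : t ^ j * a = a * t ^ j := (at_comm.zpow_right j).symm.eq
  calc a ^ j * t ^ j * (b⁻¹ * a * b) = a ^ j * (t ^ j * b⁻¹) * a * b := by group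
    _ = a ^ j * (a ^ (-j) * b⁻¹ * t ^ j) * a * b := by rw [GD_tb]
    _ = b⁻¹ * (t ^ j * a) * b := by group
    _ = b⁻¹ * (a * t ^ j) * b := by rw [hta]
    _ = b⁻¹ * a * (t ^ j * b) := by group
    _ = b⁻¹ * a * (b * a ^ j * t ^ j) := by rw [t_b]
    _ = b⁻¹ * a * b * (a ^ j * t ^ j) := by group

/-- `(a²t)ʲ` commutes with `c⁻¹ a c`. -/
theorem aat_commute_cac (j : ℤ) : Commute (a ^ (2 * j) * t ^ j) (c⁻¹ * a * c) := by
  show a ^ (2 * j) * t ^ j * (c⁻¹ * a * c) = c⁻¹ * a * c * (a ^ (2 * j) * t ^ j)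
  have hta : t ^ j * a = a * t ^ j := (at_comm.zpow_right j).symm.eq
  calc a ^ (2 * j) * t ^ j * (c⁻¹ * a * c) = a ^ (2 * j) * (t ^ j * c⁻¹) * a * c := by group
    _ = a ^ (2 * j) * (a ^ (-(2 * j)) * c⁻¹ * t ^ j) * a * c := by rw [GD_tc]
    _ = c⁻¹ * (t ^ j * a) * c := by group
    _ = c⁻¹ * (a * t ^ j) * c := by rw [hta]
    _ = c⁻¹ * a * (t ^ j * c) := by group
    _ = c⁻¹ * a * (c * a ^ (2 * j) * t ^ j) := by rw [t_c]
    _ = c⁻¹ * a * c * (a ^ (2 * j) * t ^ j) := by group

end Pool.Agent.H34.Ger
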