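import Pool.Agent.H34.Ger.GB
import Pool.Agent.H34.Ger.GC
import Pool.Agent.H34.Ger.GD

/-!
CR: combing paths from `1` into `h H` pass close to the line `h ⟨t⟩`, and then stay close to the flat.
`ball_list`: the ball of radius 1 is finite; choose for each of its elements a list of standard letters (`gen`);
`L` bounds `N` of the product of every prefix of these lists.
`cross`: `z = h x`, `x ∈ H`, `h⁻¹ ∉ H`.  `h⁻¹ E 0 z = h⁻¹ ∉ H`, `h⁻¹ E (T z) z = x ∈ H`; take a time `s₁ < T z` with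
`y := h⁻¹ E s₁ z ∉ H`, `h⁻¹ E (s₁+1) z ∈ H`.  `g := (E s₁ z)⁻¹ E (s₁+1) z` is in the ball of radius 1 (`E_step`); its
list `l` and `cross_list` give a prefix `l₁` with `y * l₁.prod = t ^ m`; then
`(h t^m)⁻¹ E s₁ z = (l₁.prod)⁻¹`, `N ≤ L`.
`flow`: `z = h b aⁱ tⁿ` (`bat_mem`).  `s₁, m` from `cross`.  `y := h t^m b = h b a^m t^m` (`t_b`); `y⁻¹ z = a^(i-m) t^(n-m)`
commutes with `a`; `N (y⁻¹ E s₁ z) ≤ N b + C`.  `QC a a (N b + C)` and `commute_a`: for `s ≥ s₁` there is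
`x = a^i' t^n'` with `N ((y x)⁻¹ E s z) ≤ K''`, `y x = h b a^(m+i') t^(m+n')`.
-/

set_option autoImplicit false

namespace Pool.Agent.H34.Ger

theorem CR_list (𝒞 : Combing Gr) (g : Gr) : ∃ L : ℕ, ∃ l : List Gr, (∀ x ∈ l, x ∈ Std) ∧
    l.prod = g ∧ ∀ l₁ l₂ : List Gr, l = l₁ ++ l₂ → 𝒞.N l₁.prod ≤ L := by
  obtain ⟨l, hl, hp⟩ := gen g
  refine ⟨∑ k ∈ Finset.range (l.length + 1), 𝒞.N (l.take k).prod, l, hl, hp, ?_⟩
  intro l₁ l₂ h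
  have h1 : l₁ = l.take l₁.length := by rw [h, List.take_left]
  have h2 : l₁.length ∈ Finset.range (l.length + 1) := by
    rw [Finset.mem_range, h, List.length_append]
    omega
  have h3 := Finset.single_le_sum (f := fun k => 𝒞.N (l.take k).prod)
    (fun k _ => Nat.zero_le _) h2
  rwa [← h1] at h3

theorem ball_list (𝒞 : Combing Gr) : ∃ L : ℕ, ∀ g : Gr, 𝒞.N g ≤ 1 →
    ∃ l : List Gr, (∀ x ∈ l, x ∈ Std) ∧ l.prod = g ∧
      ∀ l₁ l₂ : List Gr, l = l₁ ++ l₂ → 𝒞.N l₁.prod ≤ L := by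
  choose f hf using CR_list 𝒞
  obtain ⟨L, hL⟩ := ((𝒞.N_fin 1).image f).bddAbove
  refine ⟨L, fun g hg => ?_⟩
  obtain ⟨l, h1, h2, h3⟩ := hf g
  refine ⟨l, h1, h2, fun l₁ l₂ h => (h3 l₁ l₂ h).trans ?_⟩
  exact hL ⟨g, hg, rfl⟩

theorem cross (𝒞 : Combing Gr) : ∃ C : ℕ, ∀ h x : Gr, h⁻¹ ∉ H → x ∈ H →
    ∃ s₁ ≤ 𝒞.T (h * x), ∃ m : ℤ, 𝒞.d (h * t ^ m) (𝒞.E s₁ (h * x)) ≤ C := by
  classical
  obtain ⟨L, hL⟩ := ball_list 𝒞
  refine ⟨L, fun h x hh hx => ?_⟩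
  have hex : ∃ s, h⁻¹ * 𝒞.E s (h * x) ∈ H := by
    refine ⟨𝒞.T (h * x), ?_⟩
    rw [𝒞.E_top (h * x) _ le_rfl, inv_mul_cancel_left]
    exact hx
  have hle : Nat.find hex ≤ 𝒞.T (h * x) := by
    apply Nat.find_min' hex
    rw [𝒞.E_top (h * x) _ le_rfl, inv_mul_cancel_left]
    exact hx
  have hspec := Nat.find_spec hex
  obtain ⟨s₁, hs₁⟩ : ∃ s₁, Nat.find hex = s₁ + 1 := by
    apply Nat.exists_eq_succ_of_ne_zero
    intro h0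
    rw [h0, 𝒞.E_zero, mul_one] at hspec
    exact hh hspec
  have hnot : h⁻¹ * 𝒞.E s₁ (h * x) ∉ H := Nat.find_min hex (by omega)
  rw [hs₁] at hspec hle
  obtain ⟨l, hl, hp, hpre⟩ := hL _ (𝒞.E_step s₁ (h * x))
  have hmem : h⁻¹ * 𝒞.E s₁ (h * x) * l.prod ∈ H := by
    rw [hp]
    have : h⁻¹ * 𝒞.E s₁ (h * x) * ((𝒞.E s₁ (h * x))⁻¹ * 𝒞.E (s₁ + 1) (h * x))
        = h⁻¹ * 𝒞.E (s₁ + 1) (h * x) := by group
    rw [this]
    exact hspec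
  obtain ⟨l₁, l₂, hl12, m, hm⟩ := cross_list l hl _ hnot hmem
  refine ⟨s₁, by omega, m, ?_⟩
  have h1 : (h * t ^ m)⁻¹ * 𝒞.E s₁ (h * x) = (l₁.prod)⁻¹ := by
    rw [← hm]
    group
  unfold Combing.d
  rw [h1, 𝒞.N_inv]
  exact hpre l₁ l₂ hl12

theorem flow (𝒞 : Combing Gr) : ∃ C : ℕ, ∀ (h : Gr) (i n : ℤ), h⁻¹ ∉ H →
    ∃ s₁ ≤ 𝒞.T (h * b * a ^ i * t ^ n),
      (∃ m : ℤ, 𝒞.d (h * b * a ^ m * t ^ m) (𝒞.E s₁ (h * b * a ^ i * t ^ n)) ≤ C) ∧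
      ∀ s, s₁ ≤ s → ∃ i' n' : ℤ,
        𝒞.d (h * b * a ^ i' * t ^ n') (𝒞.E s (h * b * a ^ i * t ^ n)) ≤ C := by
  obtain ⟨C0, hC0⟩ := cross 𝒞
  obtain ⟨K, hK⟩ := 𝒞.QC a a (𝒞.N b + C0)
  refine ⟨max (𝒞.N b + C0) K, fun h i n hh => ?_⟩
  have hz : h * (b * a ^ i * t ^ n) = h * b * a ^ i * t ^ n := by group
  obtain ⟨s₁, hs₁, m, hm⟩ := hC0 h _ hh (bat_mem i n)
  rw [hz] at hs₁ hm
  set z := h * b * a ^ i * t ^ n with hzd
  have hy : h * b * a ^ m * t ^ m = h * t ^ m * b := by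
    have := t_b m
    rw [mul_assoc h (t ^ m) b, this]
    simp only [mul_assoc]
  have hd : 𝒞.d (h * b * a ^ m * t ^ m) (𝒞.E s₁ z) ≤ 𝒞.N b + C0 := by
    refine (𝒞.d_tri _ (h * t ^ m) _).trans (Nat.add_le_add ?_ hm)
    unfold Combing.d
    have : (h * b * a ^ m * t ^ m)⁻¹ * (h * t ^ m) = b⁻¹ := by rw [hy]; group
    rw [this, 𝒞.N_inv]
  have hcomm : Commute ((h * b * a ^ m * t ^ m)⁻¹ * z) a := by
    have e : (h * b * a ^ m * t ^ m)⁻¹ * z = (t ^ m)⁻¹ * ((a ^ m)⁻¹ * a ^ i) * t ^ n := by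
      rw [hzd]; group
    rw [e]
    have c1 : Commute (t ^ m)⁻¹ a := ((at_comm.symm).zpow_left m).inv_left
    have c2 : Commute (a ^ m)⁻¹ a := ((Commute.refl a).zpow_left m).inv_left
    have c3 : Commute (a ^ i) a := (Commute.refl a).zpow_left i
    have c4 : Commute (t ^ n) a := (at_comm.symm).zpow_left n
    exact (c1.mul_left (c2.mul_left c3)).mul_left c4
  refine ⟨s₁, hs₁, ⟨m, hd.trans (le_max_left _ _)⟩, fun s hs => ?_⟩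
  obtain ⟨x, hx, _, hN⟩ := hK z (h * b * a ^ m * t ^ m) s₁ hs₁ hd hcomm hcomm s hs
  obtain ⟨i', n', rfl⟩ := commute_a x hx
  refine ⟨m + i', m + n', ?_⟩
  have e : h * b * a ^ m * t ^ m * (a ^ i' * t ^ n') = h * b * a ^ (m + i') * t ^ (m + n') := by
    have c1 : t ^ m * a ^ i' = a ^ i' * t ^ m := ((at_comm.symm).zpow_zpow m i').eq
    calc h * b * a ^ m * t ^ m * (a ^ i' * t ^ n')
        = h * b * a ^ m * (t ^ m * a ^ i') * t ^ n' := by simp only [mul_assoc]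
      _ = h * b * (a ^ m * a ^ i') * (t ^ m * t ^ n') := by rw [c1]; simp only [mul_assoc]
      _ = _ := by rw [← zpow_add, ← zpow_add]
  unfold Combing.d
  rw [← e]
  exact hN.trans (le_max_right _ _)

end Pool.Agent.H34.Ger
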