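import Mathlib

/-!
Project MP_702e06_NB: the Gersten group is not biautomatic (frozen statement S01866).
Definitions: the automorphism phi, the group Gr, its elements a b c t, the half space H,
the abstract combing data, admissible pairs.
Paper proof: /team-store/H34_gersten_not_biautomatic.md
-/

set_option autoImplicit false

namespace Pool.Agent.H34.Ger

/-- The free group on three generators `x₀ = a`, `x₁ = b`, `x₂ = c`. -/
abbrev F3 : Type := FreeGroup (Fin 3)

/-- `a ↦ a, b ↦ b a, c ↦ c a²`. -/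
def fHom : F3 →* F3 :=
  FreeGroup.lift ![FreeGroup.of 0, FreeGroup.of 1 * FreeGroup.of 0,
    FreeGroup.of 2 * FreeGroup.of 0 * FreeGroup.of 0]

/-- `a ↦ a, b ↦ b a⁻¹, c ↦ c a⁻²`. -/
def gHom : F3 →* F3 :=
  FreeGroup.lift ![FreeGroup.of 0, FreeGroup.of 1 * (FreeGroup.of 0)⁻¹,
    FreeGroup.of 2 * (FreeGroup.of 0)⁻¹ * (FreeGroup.of 0)⁻¹]

theorem fg : fHom.comp gHom = MonoidHom.id F3 := by
  ext i
  fin_cases i <;> simp [fHom, gHom]

theorem gf : gHom.comp fHom = MonoidHom.id F3 := by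
  ext i
  fin_cases i <;> simp [fHom, gHom]

/-- The Gersten automorphism. -/
def phi : MulAut F3 :=
  { toFun := fHom
    invFun := gHom
    left_inv := fun x => DFunLike.congr_fun gf x
    right_inv := fun x => DFunLike.congr_fun fg x
    map_mul' := map_mul fHom }

/-- The Gersten group `F₃ ⋊ ℤ`. -/
abbrev Gr : Type := SemidirectProduct (FreeGroup (Fin 3)) (Multiplicative ℤ)
  (zpowersHom (MulAut (FreeGroup (Fin 3))) phi)

def a : Gr := SemidirectProduct.inl (FreeGroup.of 0)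
def b : Gr := SemidirectProduct.inl (FreeGroup.of 1)
def c : Gr := SemidirectProduct.inl (FreeGroup.of 2)
def t : Gr := SemidirectProduct.inr (Multiplicative.ofAdd 1)

/-- The half space of all `w tⁿ` such that the reduced word `w` starts with the letter `b`. -/
def H : Set Gr := {g | g.left.toWord.head? = some (1, true)}

/-- The standard letters. -/
def Std : Set Gr := {a, a⁻¹, b, b⁻¹, c, c⁻¹, t, t⁻¹}

/-- Combing data of a group: a norm `N` with finite balls, a length `T` and points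
`E r g` at time `r` on the combing path from `1` to `g`. -/
structure Combing (G : Type) [Group G] where
  N : G → ℕ
  T : G → ℕ
  E : ℕ → G → G
  K : ℕ
  N_one : N 1 = 0
  N_mul : ∀ x y, N (x * y) ≤ N x + N y
  N_inv : ∀ x, N x⁻¹ = N x
  N_fin : ∀ R : ℕ, {x | N x ≤ R}.Finite
  N_le_T : ∀ g, N g ≤ T g
  E_zero : ∀ g, E 0 g = 1
  E_top : ∀ g r, T g ≤ r → E r g = g
  E_step : ∀ r g, N ((E r g)⁻¹ * E (r + 1) g) ≤ 1
  T_lip : ∀ g x, T (g * x) ≤ T g + K * N x
  E_lip : ∀ r g x, N ((E r g)⁻¹ * E r (g * x)) ≤ K * N x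
  T_E_le : ∀ g s, s ≤ T g → T (E s g) ≤ s + K
  T_E_ge : ∀ g s, s ≤ T g → s ≤ T (E s g) + K
  E_E : ∀ g r s, r ≤ s → s ≤ T g → N ((E r (E s g))⁻¹ * E r g) ≤ K
  QC : ∀ (z₁ z₂ : G) (K' : ℕ), ∃ K'' : ℕ, ∀ (g y : G) (s₁ : ℕ), s₁ ≤ T g →
    N (y⁻¹ * E s₁ g) ≤ K' → Commute (y⁻¹ * g) z₁ → Commute (y⁻¹ * g) z₂ →
    ∀ s, s₁ ≤ s → ∃ x, Commute x z₁ ∧ Commute x z₂ ∧ N ((y * x)⁻¹ * E s g) ≤ K''

/-- The left invariant distance. -/
def Combing.d {G : Type} [Group G] (𝒞 : Combing G) (x y : G) : ℕ := 𝒞.N (x⁻¹ * y)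

theorem Combing.d_self {G : Type} [Group G] (𝒞 : Combing G) (x : G) : 𝒞.d x x = 0 := by
  simp [Combing.d, 𝒞.N_one]

theorem Combing.d_comm {G : Type} [Group G] (𝒞 : Combing G) (x y : G) :
    𝒞.d x y = 𝒞.d y x := by
  unfold Combing.d
  rw [← 𝒞.N_inv (x⁻¹ * y)]
  congr 1
  group

theorem Combing.d_tri {G : Type} [Group G] (𝒞 : Combing G) (x y z : G) :
    𝒞.d x z ≤ 𝒞.d x y + 𝒞.d y z := by
  unfold Combing.d
  have h := 𝒞.N_mul (x⁻¹ * y) (y⁻¹ * z)
  have e : x⁻¹ * y * (y⁻¹ * z) = x⁻¹ * z := by group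
  rwa [e] at h

/-- Admissible pairs `(r, h)`: every point of the half space `h H` and of the line `h ⟨t⟩` has
combing length at least `r > T(1)`. -/
def Adm (𝒞 : Combing Gr) (r : ℕ) (h : Gr) : Prop :=
  𝒞.T 1 < r ∧ (∀ x ∈ H, r ≤ 𝒞.T (h * x)) ∧ ∀ n : ℤ, r ≤ 𝒞.T (h * t ^ n)

/-- A biautomatic structure, exactly as in the frozen statement. -/
structure BA (G : Type) [Group G] (α σ : Type) [Fintype α] [Fintype σ] where
  μ : α → G
  M : DFA α σ
  k : ℕ
  surj : ∀ g, ∃ u ∈ M.accepts, (u.map μ).prod = g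
  ft : ∀ u ∈ M.accepts, ∀ v ∈ M.accepts, ∀ s : List α, s.length ≤ 1 →
    (((u.map μ).prod * (s.map μ).prod = (v.map μ).prod →
        ∀ t : ℕ, ∃ w : List α, w.length ≤ k ∧
          (w.map μ).prod = ((u.take t).map μ).prod⁻¹ * ((v.take t).map μ).prod) ∧
     ((s.map μ).prod * (u.map μ).prod = (v.map μ).prod →
        ∀ t : ℕ, ∃ w : List α, w.length ≤ k ∧
          (w.map μ).prod =
            ((s.map μ).prod * ((u.take t).map μ).prod)⁻¹ * ((v.take t).map μ).prod))

namespace BA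

variable {G : Type} [Group G] {α σ : Type} [Fintype α] [Fintype σ] (B : BA G α σ)

/-- Value of a word. -/
def val (u : List α) : G := (u.map B.μ).prod

/-- Value of a signed word. -/
def sval (l : List (α × Bool)) : G :=
  (l.map fun p => if p.2 then B.μ p.1 else (B.μ p.1)⁻¹).prod

/-- Word norm with respect to the letters and their inverses. -/
noncomputable def N (g : G) : ℕ := sInf {n | ∃ l : List (α × Bool), l.length = n ∧ B.sval l = g}

theorem exists_min (g : G) : ∃ u ∈ B.M.accepts, B.val u = g ∧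
    ∀ v ∈ B.M.accepts, B.val v = g → u.length ≤ v.length := by
  classical
  have hne : {n | ∃ u ∈ B.M.accepts, B.val u = g ∧ u.length = n}.Nonempty := by
    obtain ⟨u, hu, hv⟩ := B.surj g
    exact ⟨u.length, u, hu, hv, rfl⟩
  obtain ⟨u, hu, hv, hl⟩ := Nat.sInf_mem hne
  refine ⟨u, hu, hv, fun v hv' hv'' => ?_⟩
  rw [hl]
  exact Nat.sInf_le ⟨v, hv', hv'', rfl⟩

/-- A shortest accepted word for `g`. -/
noncomputable def w (g : G) : List α := (B.exists_min g).choose

theorem w_mem (g : G) : B.w g ∈ B.M.accepts := (B.exists_min g).choose_spec.1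
theorem w_val (g : G) : B.val (B.w g) = g := (B.exists_min g).choose_spec.2.1
theorem w_min (g : G) : ∀ v ∈ B.M.accepts, B.val v = g → (B.w g).length ≤ v.length :=
  (B.exists_min g).choose_spec.2.2

/-- Length of the shortest accepted word. -/
noncomputable def T (g : G) : ℕ := (B.w g).length

/-- Point at time `r` on the path of the shortest accepted word. -/
noncomputable def E (r : ℕ) (g : G) : G := B.val ((B.w g).take r)

end BA

end Pool.Agent.H34.Ger
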