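import Mathlib

/-!
GR: growth rate of a subadditive function.  `m = lim M(D)/D = inf M(D)/D` (Mathlib `Subadditive`), or directly
`m = ⨅_{D ≥ 1} M D / D`: positive since for `D ≥ 1`, large `k`: `M D ≥ M (k D)/k ≥ c₀ D`.  Upper bound: choose `D₁ ≥ 1`
with `M D₁ ≤ (m + ε) D₁`; `D = q D₁ + ρ`, `M D ≤ q M D₁ + max_{ρ < D₁} M ρ`.
-/

set_option autoImplicit false

namespace Pool.Agent.H34.Ger

theorem GR_mul (M : ℕ → ℕ) (hsub : ∀ x y, M (x + y) ≤ M x + M y) (k D ρ : ℕ) :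
    M (k * D + ρ) ≤ k * M D + M ρ := by
  induction k with
  | zero => simp
  | succ k ih =>
    have h1 : (k + 1) * D + ρ = D + (k * D + ρ) := by ring
    rw [h1]
    refine (hsub _ _).trans ?_
    have h2 : (k + 1) * M D = M D + k * M D := by ring
    rw [h2]
    omega

theorem growth (M : ℕ → ℕ) (hsub : ∀ x y, M (x + y) ≤ M x + M y) (c₀ : ℝ) (hc : 0 < c₀) (D₀ : ℕ)
    (hlow : ∀ D : ℕ, D₀ ≤ D → c₀ * D ≤ M D) :
    ∃ m : ℝ, 0 < m ∧ (∀ D : ℕ, m * D ≤ M D) ∧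
      ∀ ε : ℝ, 0 < ε → ∃ C : ℝ, 0 ≤ C ∧ ∀ D : ℕ, (M D : ℝ) ≤ (m + ε) * D + C := by
  obtain ⟨S, hS⟩ : ∃ S : Set ℝ, S = {x | ∃ D : ℕ, 1 ≤ D ∧ x = (M D : ℝ) / D} := ⟨_, rfl⟩
  have hlow2 : ∀ D : ℕ, 1 ≤ D → c₀ * D ≤ M D := by
    intro D hD
    have h1 : M (D₀.succ * D + 0) ≤ D₀.succ * M D := by
      -- use the bound for `M ((D₀+1) D)` by iterating without remainder
      rw [add_zero]
      have h2 : ∀ k : ℕ, M ((k + 1) * D) ≤ (k + 1) * M D := by
        intro k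
        induction k with
        | zero => simp
        | succ k ih =>
          have h3 : (k + 1 + 1) * D = D + (k + 1) * D := by ring
          rw [h3]
          refine (hsub _ _).trans ?_
          have h4 : (k + 1 + 1) * M D = M D + (k + 1) * M D := by ring
          rw [h4]
          omega
      exact h2 D₀
    rw [add_zero] at h1
    have h5 : D₀ ≤ D₀.succ * D := by
      calc D₀ ≤ D₀.succ := Nat.le_succ _
        _ = D₀.succ * 1 := (mul_one _).symm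
        _ ≤ D₀.succ * D := Nat.mul_le_mul_left _ hD
    have h6 := hlow _ h5
    have h7 : (M (D₀.succ * D) : ℝ) ≤ (D₀.succ : ℝ) * M D := by exact_mod_cast h1
    have h8 : (0 : ℝ) < (D₀.succ : ℝ) := by positivity
    have h9 : (D₀.succ : ℝ) * (c₀ * D) ≤ (D₀.succ : ℝ) * M D := by
      refine le_trans (le_of_eq ?_) (h6.trans h7)
      push_cast
      ring
    exact le_of_mul_le_mul_left h9 h8
  have hne : S.Nonempty := by
    rw [hS]
    exact ⟨_, 1, le_refl _, rfl⟩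
  have hlb : ∀ x ∈ S, c₀ ≤ x := by
    intro x hx
    rw [hS] at hx
    obtain ⟨D, hD, rfl⟩ := hx
    have hD0 : (0 : ℝ) < D := by exact_mod_cast hD
    rw [le_div_iff₀ hD0]
    exact hlow2 D hD
  have hbdd : BddBelow S := ⟨c₀, hlb⟩
  have hm0 : c₀ ≤ sInf S := le_csInf hne hlb
  refine ⟨sInf S, lt_of_lt_of_le hc hm0, ?_, ?_⟩
  · intro D
    rcases Nat.eq_zero_or_pos D with rfl | hD
    · simp
    · have hD0 : (0 : ℝ) < D := by exact_mod_cast hD
      rw [← le_div_iff₀ hD0]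
      refine csInf_le hbdd ?_
      rw [hS]
      exact ⟨D, hD, rfl⟩
  · intro ε hε
    obtain ⟨x, hx, hlt⟩ := exists_lt_of_csInf_lt hne (lt_add_of_pos_right (sInf S) hε)
    rw [hS] at hx
    obtain ⟨D₁, hD₁, rfl⟩ := hx
    have hD0 : (0 : ℝ) < D₁ := by exact_mod_cast hD₁
    rw [div_lt_iff₀ hD0] at hlt
    refine ⟨∑ ρ ∈ Finset.range D₁, (M ρ : ℝ), by positivity, ?_⟩
    intro D
    have h1 := GR_mul M hsub (D / D₁) D₁ (D % D₁)
    have h2 : D / D₁ * D₁ + D % D₁ = D := Nat.div_add_mod' D D₁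
    rw [h2] at h1
    have h3 : (M D : ℝ) ≤ ((D / D₁ : ℕ) : ℝ) * M D₁ + M (D % D₁) := by exact_mod_cast h1
    have h4 : (M (D % D₁) : ℝ) ≤ ∑ ρ ∈ Finset.range D₁, (M ρ : ℝ) :=
      Finset.single_le_sum (f := fun ρ => (M ρ : ℝ)) (fun _ _ => by positivity)
        (Finset.mem_range.2 (Nat.mod_lt _ hD₁))
    have h5 : ((D / D₁ : ℕ) : ℝ) * M D₁ ≤ ((D / D₁ : ℕ) : ℝ) * ((sInf S + ε) * D₁) :=
      mul_le_mul_of_nonneg_left hlt.le (by positivity)
    have h6 : ((D / D₁ : ℕ) : ℝ) * D₁ ≤ D := by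
      have : D / D₁ * D₁ ≤ D := Nat.div_mul_le_self D D₁
      exact_mod_cast this
    have h7 : 0 ≤ sInf S + ε := by linarith
    have h8 : ((D / D₁ : ℕ) : ℝ) * ((sInf S + ε) * D₁) ≤ (sInf S + ε) * D := by
      calc ((D / D₁ : ℕ) : ℝ) * ((sInf S + ε) * D₁)
          = (sInf S + ε) * (((D / D₁ : ℕ) : ℝ) * D₁) := by ring
        _ ≤ (sInf S + ε) * D := mul_le_mul_of_nonneg_left h6 h7
    linarith

end Pool.Agent.H34.Ger
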