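import Pool.Agent.H34.Ger.ND
import Pool.Agent.H34.Ger.GR

/-!
MM: the maximal stretching rate `m`.
`M D := sSup {x | ∃ r h n, Adm 𝒞 r h ∧ x = d (E r (h tⁿ)) (E r (h tⁿ⁺ᴰ))}`; the set is bounded by `K N(t^D)` (`E_lip`)
and nonempty (`nondeg` gives some admissible pair), so the supremum is attained (`Nat.sSup_mem`).  Subadditive by the
triangle inequality (`d_tri`).  `GR.growth`.
-/

set_option autoImplicit false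

namespace Pool.Agent.H34.Ger

/-- The set of stretched distances at scale `D`. -/
def MM_S (𝒞 : Combing Gr) (D : ℕ) : Set ℕ :=
  {x | ∃ (r : ℕ) (h : Gr) (n : ℤ), Adm 𝒞 r h ∧
    x = 𝒞.d (𝒞.E r (h * t ^ n)) (𝒞.E r (h * t ^ (n + D)))}

theorem MM_bdd (𝒞 : Combing Gr) (D : ℕ) : BddAbove (MM_S 𝒞 D) := by
  refine ⟨𝒞.K * 𝒞.N (t ^ (D : ℤ)), ?_⟩
  rintro x ⟨r, h, n, -, rfl⟩
  have := 𝒞.E_lip r (h * t ^ n) (t ^ (D : ℤ))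
  rw [mul_assoc, ← zpow_add] at this
  exact this

theorem MM_ne (𝒞 : Combing Gr) (D : ℕ) : (MM_S 𝒞 D).Nonempty := by
  obtain ⟨c₀, -, D₀, h⟩ := nondeg 𝒞
  obtain ⟨r, h', n, hA, -⟩ := h D₀ le_rfl
  exact ⟨_, r, h', n, hA, rfl⟩

/-- The stretching rate `m > 0`: lower bound attained for every `D`, upper bound for all segments. -/
theorem exists_rate (𝒞 : Combing Gr) : ∃ m : ℝ, 0 < m ∧
    (∀ D : ℕ, ∃ (r : ℕ) (h : Gr) (n : ℤ), Adm 𝒞 r h ∧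
      m * D ≤ 𝒞.d (𝒞.E r (h * t ^ n)) (𝒞.E r (h * t ^ (n + D)))) ∧
    ∀ ε : ℝ, 0 < ε → ∃ C : ℝ, 0 ≤ C ∧ ∀ (D : ℕ) (r : ℕ) (h : Gr) (n : ℤ), Adm 𝒞 r h →
      (𝒞.d (𝒞.E r (h * t ^ n)) (𝒞.E r (h * t ^ (n + D))) : ℝ) ≤ (m + ε) * D + C := by
  have hle : ∀ (D r : ℕ) (h : Gr) (n : ℤ), Adm 𝒞 r h →
      𝒞.d (𝒞.E r (h * t ^ n)) (𝒞.E r (h * t ^ (n + D))) ≤ sSup (MM_S 𝒞 D) :=
    fun D r h n hA => le_csSup (MM_bdd 𝒞 D) ⟨r, h, n, hA, rfl⟩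
  have hsub : ∀ x y : ℕ, sSup (MM_S 𝒞 (x + y)) ≤ sSup (MM_S 𝒞 x) + sSup (MM_S 𝒞 y) := by
    intro x y
    refine csSup_le (MM_ne 𝒞 _) ?_
    rintro z ⟨r, h, n, hA, rfl⟩
    refine (𝒞.d_tri _ (𝒞.E r (h * t ^ (n + x))) _).trans (add_le_add (hle x r h n hA) ?_)
    have := hle y r h (n + x) hA
    rwa [show n + (x : ℤ) + (y : ℤ) = n + ((x + y : ℕ) : ℤ) by push_cast; ring] at this
  obtain ⟨c₀, hc₀, D₀, hlow⟩ := nondeg 𝒞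
  obtain ⟨m, hm, h1, h2⟩ := growth (fun D => sSup (MM_S 𝒞 D)) hsub c₀ hc₀ D₀ (by
    intro D hD
    obtain ⟨r, h, n, hA, hd⟩ := hlow D hD
    exact hd.trans (by exact_mod_cast hle D r h n hA))
  refine ⟨m, hm, ?_, ?_⟩
  · intro D
    obtain ⟨r, h, n, hA, e⟩ := Nat.sSup_mem (MM_ne 𝒞 D) (MM_bdd 𝒞 D)
    refine ⟨r, h, n, hA, ?_⟩
    have := h1 D
    rw [← e]
    exact this
  · intro ε hε
    obtain ⟨C, hC, h3⟩ := h2 ε hε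
    refine ⟨C, hC, fun D r h n hA => le_trans ?_ (h3 D)⟩
    exact_mod_cast hle D r h n hA

end Pool.Agent.H34.Ger
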