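import Mathlib

/-!
PL: the planar lemma (pure arithmetic on `ℤ × ℤ`).  `δ` is a pseudo distance, `τ` a real function on the plane.
Write `x₀ = (0,0)`, `x₁ = (D,D)`, `f p = δ x₀ p`.
(1) cone estimate: for `0 ≤ i₂-i₁ ≤ 2(n₂-n₁)`: `δ (i₁,n₁) (i₂,n₂) ≤ (m+ε₁)(n₂-n₁) + 3C₁`
    (`i₂-i₁ = 2j+ρ`, `ρ ∈ {0,1}`; go `(i₁,n₁) → (i₁+2j,n₁+j) → (i₁+2j,n₂) → (i₂,n₂)`).
(2) for `(i,n)` in the diamond `0 ≤ i ≤ 2n`, `0 ≤ D-i ≤ 2(D-n)`:
    `m n - 2ε₁D - 7C₁ ≤ f (i,n) ≤ (m+ε₁) n + 3C₁` (upper bound: (1) from `x₀`; lower bound: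
    `f x₁ ≥ (m-ε₁)D - C₁` and (1) from `(i,n)` to `x₁`).
(3) `q = D / 8` (natural division), `8q ≤ D ≤ 8q+7`, `z = (6q,4q)` in the diamond, `|6q-4q| = 2q`.
    `k := q / (2C) - 1` (natural numbers): `C (k+1) ≤ q/2 ≤ 2q`.  Hypothesis (e): `z' = (i',n')` with
    `|i'-6q| + |n'-4q| ≤ q/2`, `δ z z' ≤ C₁`, `τ z' + k ≤ τ z + C₁`.  `z'` is in the diamond.  By (2) and
    `|f z - f z'| ≤ C₁`:  `m |n' - 4q| ≤ 3ε₁D + 11C₁`.
(4) `i'' = i'` or `i'+1` such that `D - i''` is even, `l₃ = (D-i'')/2`, `l₄ = D - n' - l₃`.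
    Four segments with both end points in the diamond:  `(0,0) → (6q,3q)` (direction (2,1), length `3q`),
    `(6q,3q) → (6q,4q)` (direction (0,1), length `q`), `(i'',n') → (D,n'+l₃)` (direction (2,1), length `l₃`),
    `(D,n'+l₃) → (D,D)` (direction (0,1), length `l₄`); all lengths are `≥ q/2` (for `q` large), so `D ≤ 32 l`.
    On such a segment from `p` to `p'` of length `l`: `δ p p' ≥ f p' - f p ≥ m l - 3ε₁D - 10C₁ ≥ (m-ε) l` if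
    `ε₁ ≤ ε/200` and `D` is large.
(5) If no segment had `τ`-increment `≥ (lam+κ) l`, summing the two inequalities of each pair gives
    `τ z - τ x₀ ≤ (lam+κ) 4q`, `τ x₁ - τ (i'',n') ≤ (lam+κ)(D-n')`; with `τ x₁ - τ x₀ ≥ lam D - C₁`,
    `τ (i'',n') ≤ τ z' + C₁`:
    `k - C₁ ≤ τ z - τ z' ≤ (lam+κ)(4q + D - n') - lam D + 2C₁ = lam (4q-n') + κ (D + 4q - n') + 2C₁`
    `≤ (|lam|+κ)(3ε₁D + 11C₁)/m + κ D + 2C₁`.  But `k ≥ D/(16C) - 3` roughly; contradiction if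
    `κ = 1/(64C)`, `(|lam|+κ)·3ε₁/m ≤ 1/(64C)` and `D` is large.
-/

set_option autoImplicit false

namespace Pool.Agent.H34.Ger

theorem PL_cone (m ε₁ C₁ : ℝ) (hC₁ : 0 ≤ C₁) (δ : ℤ × ℤ → ℤ × ℤ → ℝ)
    (htri : ∀ x y z, δ x z ≤ δ x y + δ y z)
    (h01 : ∀ (i n : ℤ) (l : ℕ), δ (i, n) (i, n + l) ≤ (m + ε₁) * l + C₁)
    (h21 : ∀ (i n : ℤ) (l : ℕ), δ (i, n) (i + 2 * l, n + l) ≤ (m + ε₁) * l + C₁)
    (h10 : ∀ (i n : ℤ), δ (i, n) (i + 1, n) ≤ C₁) (i₁ n₁ i₂ n₂ : ℤ) (h0 : 0 ≤ i₂ - i₁)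
    (h1 : i₂ - i₁ ≤ 2 * (n₂ - n₁)) :
    δ (i₁, n₁) (i₂, n₂) ≤ (m + ε₁) * ((n₂ - n₁ : ℤ) : ℝ) + 3 * C₁ := by
  obtain ⟨j, hj⟩ : ∃ j : ℕ, (j : ℤ) = (i₂ - i₁) / 2 := ⟨((i₂ - i₁) / 2).toNat, Int.toNat_of_nonneg (by omega)⟩
  obtain ⟨l, hl⟩ : ∃ l : ℕ, (l : ℤ) = n₂ - n₁ - j := ⟨(n₂ - n₁ - j).toNat, Int.toNat_of_nonneg (by omega)⟩
  have e1 := h21 i₁ n₁ j
  have e2 := h01 (i₁ + 2 * j) (n₁ + j) l
  have hn : n₁ + j + l = n₂ := by omega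
  rw [hn] at e2
  have e3 := htri (i₁, n₁) (i₁ + 2 * j, n₁ + j) (i₁ + 2 * j, n₂)
  have hlR : (l : ℝ) = ((n₂ - n₁ : ℤ) : ℝ) - j := by
    have : (l : ℝ) = ((l : ℤ) : ℝ) := by norm_cast
    rw [this, hl]; push_cast; ring
  have e4 : δ (i₁, n₁) (i₁ + 2 * j, n₂) ≤ (m + ε₁) * ((n₂ - n₁ : ℤ) : ℝ) + 2 * C₁ := by
    calc _ ≤ _ := e3
      _ ≤ ((m + ε₁) * j + C₁) + ((m + ε₁) * l + C₁) := add_le_add e1 e2
      _ = _ := by rw [hlR]; ring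
  by_cases hp : i₁ + 2 * j = i₂
  · rw [hp] at e4; linarith
  · have hp' : i₁ + 2 * j + 1 = i₂ := by omega
    have e5 := h10 (i₁ + 2 * j) n₂
    rw [hp'] at e5
    have e6 := htri (i₁, n₁) (i₁ + 2 * j, n₂) (i₂, n₂)
    linarith

/-- the final numerical contradiction -/
theorem PL_num (C : ℕ) (hC : 0 < C) (m lam ε₁ C₁ D k q n' : ℝ) (hm : 0 < m) (hC₁ : 0 ≤ C₁) (hε₁ : 0 < ε₁)
    (hD0 : 0 ≤ D)
    (he : (|lam| + 1 / (64 * C)) * (3 * ε₁) ≤ m * (1 / (64 * C)))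
    (hk : D / (16 * C) - 3 ≤ k)
    (h1 : m * |n' - 4 * q| ≤ 3 * ε₁ * D + 11 * C₁)
    (h2 : k - C₁ ≤ lam * (4 * q - n') + 1 / (64 * C) * (D + 4 * q - n') + 2 * C₁)
    (hD : 32 * C * (3 + 3 * C₁ + (|lam| + 1 / (64 * C)) * (11 * C₁) / m) < D) : False := by
  have hC' : (0 : ℝ) < C := by exact_mod_cast hC
  have hκ : (0 : ℝ) < 1 / (64 * C) := by positivity
  set κ : ℝ := 1 / (64 * C) with hκd
  have e1 : lam * (4 * q - n') + κ * (4 * q - n') ≤ (|lam| + κ) * |n' - 4 * q| := by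
    have : |4 * q - n'| = |n' - 4 * q| := abs_sub_comm _ _
    rw [← this, add_mul]
    apply add_le_add
    · rw [← abs_mul]; exact le_abs_self _
    · exact mul_le_mul_of_nonneg_left (le_abs_self _) hκ.le
  have e2 : (|lam| + κ) * |n' - 4 * q| ≤ (|lam| + κ) * (3 * ε₁ * D + 11 * C₁) / m := by
    rw [le_div_iff₀ hm]
    have : (|lam| + κ) * |n' - 4 * q| * m = (|lam| + κ) * (m * |n' - 4 * q|) := by ring
    rw [this]
    exact mul_le_mul_of_nonneg_left h1 (by positivity)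
  have e3 : (|lam| + κ) * (3 * ε₁ * D + 11 * C₁) / m ≤ κ * D + (|lam| + κ) * (11 * C₁) / m := by
    have : (|lam| + κ) * (3 * ε₁ * D + 11 * C₁) / m = (|lam| + κ) * (3 * ε₁) * D / m + (|lam| + κ) * (11 * C₁) / m := by
      ring
    rw [this]
    apply add_le_add_left
    rw [div_le_iff₀ hm]
    calc (|lam| + κ) * (3 * ε₁) * D ≤ m * κ * D := mul_le_mul_of_nonneg_right he hD0
      _ = κ * D * m := by ring
  have e4 : D / (16 * C) = 4 * (κ * D) := by rw [hκd]; field_simp; ring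
  have e5 : D / (16 * C) - 3 - C₁ ≤ 2 * (κ * D) + (|lam| + κ) * (11 * C₁) / m + 2 * C₁ := by
    have : κ * (D + 4 * q - n') = κ * D + κ * (4 * q - n') := by ring
    rw [this] at h2
    linarith
  rw [e4] at e5
  have e6 : 2 * (κ * D) ≤ 3 + 3 * C₁ + (|lam| + κ) * (11 * C₁) / m := by linarith
  have e7 : D = 32 * C * (2 * (κ * D)) := by rw [hκd]; field_simp; ring
  have e8 : 32 * C * (2 * (κ * D)) ≤ 32 * C * (3 + 3 * C₁ + (|lam| + κ) * (11 * C₁) / m) :=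
    mul_le_mul_of_nonneg_left e6 (by positivity)
  linarith

theorem planar (C : ℕ) (hC : 0 < C) : ∃ κ : ℝ, 0 < κ ∧ ∀ (m lam : ℝ), 0 < m → ∀ ε : ℝ, 0 < ε →
    ∃ ε₁ : ℝ, 0 < ε₁ ∧ ∀ C₁ : ℝ, 0 ≤ C₁ → ∃ D₁ : ℕ, ∀ D : ℕ, D₁ ≤ D →
    ∀ (δ : ℤ × ℤ → ℤ × ℤ → ℝ) (τ : ℤ × ℤ → ℝ),
      (∀ x y, δ x y = δ y x) → (∀ x y z, δ x z ≤ δ x y + δ y z) →
      (∀ (i n : ℤ) (l : ℕ), δ (i, n) (i, n + l) ≤ (m + ε₁) * l + C₁) →
      (∀ (i n : ℤ) (l : ℕ), δ (i, n) (i + 2 * l, n + l) ≤ (m + ε₁) * l + C₁) →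
      (∀ (i n : ℤ), δ (i, n) (i + 1, n) ≤ C₁) →
      (∀ (i n : ℤ), |τ (i + 1, n) - τ (i, n)| ≤ C₁) →
      ((m - ε₁) * D - C₁ ≤ δ (0, 0) ((D : ℤ), (D : ℤ))) →
      (lam * D - C₁ ≤ τ ((D : ℤ), (D : ℤ)) - τ (0, 0)) →
      (∀ (i n : ℤ) (k : ℕ), (C : ℤ) * (k + 1) ≤ |i - n| →
        ∃ i' n' : ℤ, |i' - i| + |n' - n| ≤ (C : ℤ) * (k + 1) ∧ δ (i, n) (i', n') ≤ C₁ ∧
          τ (i', n') + k ≤ τ (i, n) + C₁) →
      ∃ (l : ℕ) (i n : ℤ), D ≤ 32 * l ∧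
        (((m - ε) * l ≤ δ (i, n) (i, n + l) ∧ (lam + κ) * l ≤ τ (i, n + l) - τ (i, n)) ∨
         ((m - ε) * l ≤ δ (i, n) (i + 2 * l, n + l) ∧
            (lam + κ) * l ≤ τ (i + 2 * l, n + l) - τ (i, n))) := by
  have hC' : (0 : ℝ) < C := by exact_mod_cast hC
  refine ⟨1 / (64 * C), by positivity, ?_⟩
  set κ : ℝ := 1 / (64 * C) with hκd
  have hκ : 0 < κ := by positivity
  intro m lam hm ε hε
  refine ⟨min (ε / 200) (m * κ / (3 * (|lam| + κ))), lt_min (by positivity) (by positivity), ?_⟩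
  set ε₁ : ℝ := min (ε / 200) (m * κ / (3 * (|lam| + κ))) with hε₁d
  have hε₁ : 0 < ε₁ := lt_min (by positivity) (by positivity)
  have hε₁a : ε₁ ≤ ε / 200 := min_le_left _ _
  have hε₁b : (|lam| + κ) * (3 * ε₁) ≤ m * κ := by
    have : ε₁ ≤ m * κ / (3 * (|lam| + κ)) := min_le_right _ _
    rw [le_div_iff₀ (by positivity)] at this
    calc (|lam| + κ) * (3 * ε₁) = ε₁ * (3 * (|lam| + κ)) := by ring
      _ ≤ _ := this
  intro C₁ hC₁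
  obtain ⟨D₂, hD₂⟩ := exists_nat_gt (32 * C * (3 + 3 * C₁ + (|lam| + κ) * (11 * C₁) / m))
  obtain ⟨D₃, hD₃⟩ := exists_nat_gt (1000 * C₁ / ε)
  refine ⟨D₂ + D₃ + 16 * C + 100, ?_⟩
  intro D hD δ τ hsym htri h01 h21 h10 hτ hδ hτD hback
  have hDR : ((D₂ + D₃ + 16 * C + 100 : ℕ) : ℝ) ≤ D := by exact_mod_cast hD
  push_cast at hDR
  have hD0 : (0 : ℝ) ≤ D := Nat.cast_nonneg _
  have hD₂0 : (0 : ℝ) ≤ D₂ := Nat.cast_nonneg _
  have hD₃0 : (0 : ℝ) ≤ D₃ := Nat.cast_nonneg _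
  have hcone := PL_cone m ε₁ C₁ hC₁ δ htri h01 h21 h10
  have hup : ∀ i n : ℤ, 0 ≤ i → i ≤ 2 * n → δ (0, 0) (i, n) ≤ (m + ε₁) * (n : ℝ) + 3 * C₁ := by
    intro i n h0 h1
    have := hcone 0 0 i n (by omega) (by omega)
    simpa using this
  have hlo : ∀ i n : ℤ, 0 ≤ n → i ≤ D → (D : ℤ) - i ≤ 2 * (D - n) →
      m * (n : ℝ) - 2 * ε₁ * D - 4 * C₁ ≤ δ (0, 0) (i, n) := by
    intro i n hn0 h0 h1
    have e1 := hcone i n D D (by omega) (by omega)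
    have e2 := htri (0, 0) (i, n) ((D : ℤ), (D : ℤ))
    have e3 : ((D - n : ℤ) : ℝ) = (D : ℝ) - n := by push_cast; ring
    rw [e3] at e1
    have hn : (0 : ℝ) ≤ n := by exact_mod_cast hn0
    nlinarith [mul_nonneg hε₁.le hn]
  have hseg : ∀ (i n i' : ℤ) (l : ℕ), 0 ≤ i → i ≤ 2 * n → n ≤ D → 0 ≤ n + l → i' ≤ D →
      (D : ℤ) - i' ≤ 2 * (D - (n + l)) →
      D ≤ 32 * l → (m - ε) * l ≤ δ (i, n) (i', n + l) := by
    intro i n i' l h1 h2 h3 h4 h5 h6 h7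
    have e1 := hup i n h1 h2
    have e2 := hlo i' (n + l) h4 h5 h6
    have e3 := htri (0, 0) (i, n) (i', n + l)
    have e4 : ((n + l : ℤ) : ℝ) = (n : ℝ) + l := by push_cast; ring
    rw [e4] at e2
    have h7' : (D : ℝ) ≤ 32 * l := by exact_mod_cast h7
    have h3' : (n : ℝ) ≤ D := by exact_mod_cast h3
    have e5 : m * (l : ℝ) - 3 * ε₁ * D - 7 * C₁ ≤ δ (i, n) (i', n + l) := by
      nlinarith [mul_le_mul_of_nonneg_left h3' hε₁.le]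
    have e6 : 7 * C₁ ≤ ε * D / 100 := by
      have : 1000 * C₁ / ε < D := by linarith
      rw [div_lt_iff₀ hε] at this
      nlinarith
    have e7 : 3 * ε₁ * D ≤ 3 * (ε / 200) * D := by
      apply mul_le_mul_of_nonneg_right _ hD0
      linarith
    have e8 : ε * D ≤ ε * (32 * l) := mul_le_mul_of_nonneg_left h7' hε.le
    have e9 : 3 * (ε / 200) * D = (3 / 200) * (ε * D) := by ring
    have e10 : ε * (32 * l) = 32 * (ε * l) := by ring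
    have e11 : (m - ε) * (l : ℝ) = m * l - ε * l := by ring
    rw [e11]
    have e12 : 0 ≤ ε * D := by positivity
    linarith
  by_contra hno
  push Not at hno
  have hA : ∀ (l : ℕ) (i n : ℤ), D ≤ 32 * l → (m - ε) * l ≤ δ (i, n) (i, n + l) →
      τ (i, n + l) - τ (i, n) < (lam + κ) * l := fun l i n h1 h2 => (hno l i n h1).1 h2
  have hB : ∀ (l : ℕ) (i n : ℤ), D ≤ 32 * l → (m - ε) * l ≤ δ (i, n) (i + 2 * l, n + l) →
      τ (i + 2 * l, n + l) - τ (i, n) < (lam + κ) * l := fun l i n h1 h2 => (hno l i n h1).2 h2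
  set q : ℕ := D / 8 with hq
  have hq1 : 8 * q ≤ D := by omega
  have hq2 : D ≤ 8 * q + 7 := by omega
  have hqC : 2 * C ≤ q := by omega
  have hq10 : 10 ≤ q := by omega
  obtain ⟨k, hk⟩ : ∃ k : ℕ, k + 1 = q / (2 * C) := by
    have : 1 ≤ q / (2 * C) := Nat.div_pos hqC (by omega)
    exact ⟨q / (2 * C) - 1, by omega⟩
  have hk1 : 2 * (C * (k + 1)) ≤ q := by
    rw [hk]
    calc 2 * (C * (q / (2 * C))) = 2 * C * (q / (2 * C)) := by ring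
      _ ≤ q := Nat.mul_div_le q (2 * C)
  have hk2 : q < 2 * C * (k + 2) := by
    have := Nat.lt_mul_div_succ q (b := 2 * C) (by omega)
    rw [← hk] at this
    exact this
  have hk1z : 2 * ((C : ℤ) * ((k : ℤ) + 1)) ≤ q := by exact_mod_cast hk1
  obtain ⟨i', n', hin, hδz, hτz⟩ := hback (6 * q) (4 * q) k (by
    have : |(6 * (q : ℤ)) - 4 * q| = 2 * q := by
      rw [show (6 * (q : ℤ)) - 4 * q = 2 * q by ring, abs_of_nonneg (by positivity)]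
    rw [this]; omega)
  have hin2 : 2 * (|i' - 6 * q| + |n' - 4 * q|) ≤ q := by omega
  have hi1 := abs_nonneg (i' - 6 * q)
  have hn1 := abs_nonneg (n' - 4 * q)
  have hi2 : 2 * |i' - 6 * q| ≤ q := by omega
  have hn2 : 2 * |n' - 4 * q| ≤ q := by omega
  have hi3 : 2 * (i' - 6 * q) ≤ q := by have := le_abs_self (i' - 6 * q); omega
  have hi4 : -(q : ℤ) ≤ 2 * (i' - 6 * q) := by have := neg_abs_le (i' - 6 * q); omega
  have hn3 : 2 * (n' - 4 * q) ≤ q := by have := le_abs_self (n' - 4 * q); omega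
  have hn4 : -(q : ℤ) ≤ 2 * (n' - 4 * q) := by have := neg_abs_le (n' - 4 * q); omega
  -- (3)
  have hz1 := hup (6 * q) (4 * q) (by omega) (by omega)
  have hz2 := hlo (6 * q) (4 * q) (by omega) (by omega) (by omega)
  have hz3 := hup i' n' (by omega) (by omega)
  have hz4 := hlo i' n' (by omega) (by omega) (by omega)
  have hz5 := htri (0, 0) (6 * q, 4 * q) (i', n')
  have hz6 := htri (0, 0) (i', n') (6 * q, 4 * q)
  rw [hsym (i', n') (6 * q, 4 * q)] at hz6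
  have hn'D : (n' : ℝ) ≤ D := by
    have : n' ≤ D := by omega
    exact_mod_cast this
  have hqD : 4 * (q : ℝ) ≤ D := by
    have : 4 * q ≤ D := by omega
    exact_mod_cast this
  push_cast at hz1 hz2
  have h3 : m * |(n' : ℝ) - 4 * q| ≤ 3 * ε₁ * D + 11 * C₁ := by
    have a1 := mul_le_mul_of_nonneg_left hn'D hε₁.le
    have a2 := mul_le_mul_of_nonneg_left hqD hε₁.le
    have a3 : m * |(n' : ℝ) - 4 * q| = |m * ((n' : ℝ) - 4 * q)| := by rw [abs_mul, abs_of_pos hm]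
    rw [a3, abs_le]
    have a4 : (m + ε₁) * (4 * (q : ℝ)) = m * (4 * q) + ε₁ * (4 * q) := by ring
    have a5 : (m + ε₁) * (n' : ℝ) = m * n' + ε₁ * n' := by ring
    have a6 : m * ((n' : ℝ) - 4 * q) = m * n' - m * (4 * q) := by ring
    have a7 : 3 * ε₁ * D = 2 * ε₁ * D + ε₁ * D := by ring
    rw [a4] at hz1
    rw [a5] at hz3
    rw [a6, a7]
    constructor
    · linarith
    · linarith
  -- (4)
  obtain ⟨i'', hi''⟩ : ∃ i'' : ℤ, (i'' = i' ∨ i'' = i' + 1) ∧ ((D : ℤ) - i'') % 2 = 0 := by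
    by_cases hpar : ((D : ℤ) - i') % 2 = 0
    · exact ⟨i', Or.inl rfl, hpar⟩
    · exact ⟨i' + 1, Or.inr rfl, by omega⟩
  obtain ⟨l₃, hl₃⟩ : ∃ l₃ : ℕ, 2 * (l₃ : ℤ) = D - i'' := ⟨((D - i'') / 2).toNat, by omega⟩
  obtain ⟨l₄, hl₄⟩ : ∃ l₄ : ℕ, (l₄ : ℤ) = D - n' - l₃ := ⟨(D - n' - l₃).toNat, by omega⟩
  have s1 := hB (3 * q) 0 0 (by omega) (by
    have := hseg 0 0 (0 + 2 * (3 * q : ℕ)) (3 * q) (by omega) (by omega) (by omega) (by omega) (by omega) (by omega)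
      (by omega)
    exact this)
  have s2 := hA q (6 * q) (3 * q) (by omega)
    (hseg (6 * q) (3 * q) (6 * q) q (by omega) (by omega) (by omega) (by omega) (by omega) (by omega) (by omega))
  have s3 := hB l₃ i'' n' (by omega)
    (hseg i'' n' (i'' + 2 * l₃) l₃ (by omega) (by omega) (by omega) (by omega) (by omega) (by omega) (by omega))
  have s4 := hA l₄ D (n' + l₃) (by omega)
    (hseg D (n' + l₃) D l₄ (by omega) (by omega) (by omega) (by omega) (by omega) (by omega) (by omega))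
  have t1 : ((0 : ℤ) + 2 * ((3 * q : ℕ) : ℤ), (0 : ℤ) + ((3 * q : ℕ) : ℤ)) = (6 * (q : ℤ), 3 * (q : ℤ)) := by
    ext <;> push_cast <;> ring
  have t2 : (6 * (q : ℤ), 3 * (q : ℤ) + (q : ℤ)) = (6 * (q : ℤ), 4 * (q : ℤ)) := by
    ext <;> ring
  have t3 : (i'' + 2 * (l₃ : ℤ), n' + (l₃ : ℤ)) = ((D : ℤ), n' + (l₃ : ℤ)) := by
    ext
    · simp only; omega
    · rfl
  have t4 : ((D : ℤ), n' + (l₃ : ℤ) + (l₄ : ℤ)) = ((D : ℤ), (D : ℤ)) := by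
    ext
    · rfl
    · simp only; omega
  rw [t1] at s1
  rw [t2] at s2
  rw [t3] at s3
  rw [t4] at s4
  push_cast at s1
  have hl34 : (l₃ : ℝ) + l₄ = D - n' := by
    have : (l₃ : ℤ) + l₄ = D - n' := by omega
    exact_mod_cast this
  have s12 : τ (6 * q, 4 * q) - τ (0, 0) < (lam + κ) * (4 * q) := by
    have a1 : (lam + κ) * (4 * (q : ℝ)) = (lam + κ) * (3 * q) + (lam + κ) * q := by ring
    rw [a1]; linarith
  have s34 : τ ((D : ℤ), (D : ℤ)) - τ (i'', n') < (lam + κ) * (D - n') := by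
    rw [← hl34, mul_add]; linarith
  have hτ'' : τ (i'', n') ≤ τ (i', n') + C₁ := by
    rcases hi''.1 with h | h
    · rw [h]; linarith
    · rw [h]
      have := (abs_le.1 (hτ i' n')).2
      linarith
  have h2 : (k : ℝ) - C₁ ≤ lam * (4 * q - n') + κ * (D + 4 * q - n') + 2 * C₁ := by
    have e1 : (lam + κ) * (4 * (q : ℝ)) + (lam + κ) * (D - n') - lam * D =
      lam * (4 * q - n') + κ * (D + 4 * q - n') := by ring
    linarith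
  have hkR : (D : ℝ) / (16 * C) - 3 ≤ k := by
    have a1 : (D : ℝ) ≤ 8 * q + 7 := by exact_mod_cast hq2
    have a2 : (q : ℝ) + 1 ≤ 2 * C * (k + 2) := by exact_mod_cast hk2
    have a3 : (1 : ℝ) ≤ C := by exact_mod_cast hC
    rw [sub_le_iff_le_add, div_le_iff₀ (by positivity)]
    have a4 : ((k : ℝ) + 3) * (16 * C) = 8 * (2 * C * (k + 2)) + 16 * C := by ring
    rw [a4]
    linarith
  exact PL_num C hC m lam ε₁ C₁ D k q n' hm hC₁ hε₁ hD0 hε₁b hkR h3 h2 (by linarith)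

end Pool.Agent.H34.Ger
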