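import Pool.Agent.H34.Ger.FL
import Pool.Agent.H34.Ger.PL

/-!
ST: the inductive step.
-/

set_option autoImplicit false

namespace Pool.Agent.H34.Ger

/-- For arbitrarily small `ε` and arbitrarily long admissible segments: stretching at least `m - ε` and growth of the
length at least `lam`. -/
def Pr (𝒞 : Combing Gr) (m lam : ℝ) : Prop :=
  ∀ ε : ℝ, 0 < ε → ∀ D₀ : ℕ, ∃ (D : ℕ) (r : ℕ) (h : Gr) (n : ℤ), D₀ ≤ D ∧ Adm 𝒞 r h ∧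
    (m - ε) * D ≤ 𝒞.d (𝒞.E r (h * t ^ n)) (𝒞.E r (h * t ^ (n + D))) ∧
    lam * D ≤ (𝒞.T (h * t ^ (n + D)) : ℝ) - 𝒞.T (h * t ^ n)

theorem ST_dE (𝒞 : Combing Gr) (r : ℕ) (g x : Gr) :
    (𝒞.d (𝒞.E r g) (𝒞.E r (g * x)) : ℝ) ≤ 𝒞.K * 𝒞.N x := by
  exact_mod_cast 𝒞.E_lip r g x

theorem ST_dE' (𝒞 : Combing Gr) (r : ℕ) (g x : Gr) :
    (𝒞.d (𝒞.E r (g * x)) (𝒞.E r g) : ℝ) ≤ 𝒞.K * 𝒞.N x := by
  rw [𝒞.d_comm]; exact ST_dE 𝒞 r g x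

theorem ST_T (𝒞 : Combing Gr) (g x : Gr) : |(𝒞.T (g * x) : ℝ) - 𝒞.T g| ≤ 𝒞.K * 𝒞.N x := by
  have h1 : (𝒞.T (g * x) : ℝ) ≤ 𝒞.T g + 𝒞.K * 𝒞.N x := by exact_mod_cast 𝒞.T_lip g x
  have h2 : (𝒞.T g : ℝ) ≤ 𝒞.T (g * x) + 𝒞.K * 𝒞.N x := by
    have := 𝒞.T_lip (g * x) x⁻¹
    rw [mul_inv_cancel_right, 𝒞.N_inv] at this
    exact_mod_cast this
  rw [abs_le]; constructor <;> linarith

theorem ST_pt_a (h : Gr) (i n : ℤ) : pt h (i + 1) n = pt h i n * a := by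
  have hc : t ^ n * a = a * t ^ n := ((at_comm.zpow_right n).eq).symm
  unfold pt
  rw [zpow_add_one, mul_assoc (h * b * a ^ i) (t ^ n) a, hc]
  simp [mul_assoc]

theorem ST_pt_line (h : Gr) (n : ℤ) : pt h n n = h * t ^ n * b := by
  unfold pt
  rw [mul_assoc h (t ^ n) b, t_b]
  simp [mul_assoc]

theorem ST_pt_c (h : Gr) (i n : ℤ) :
    pt h i n = (h * b * a ^ (i - 2 * n) * c⁻¹) * t ^ n * c := by
  unfold pt
  rw [mul_assoc (h * b * a ^ (i - 2 * n) * c⁻¹) (t ^ n) c, t_c]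
  have : a ^ i = a ^ (i - 2 * n) * a ^ (2 * n) := by rw [← zpow_add]; congr 1; ring
  rw [this]
  simp [mul_assoc]

theorem step (𝒞 : Combing Gr) (m : ℝ) (hm : 0 < m)
    (hup : ∀ ε : ℝ, 0 < ε → ∃ C : ℝ, 0 ≤ C ∧ ∀ (D : ℕ) (r : ℕ) (h : Gr) (n : ℤ), Adm 𝒞 r h →
      (𝒞.d (𝒞.E r (h * t ^ n)) (𝒞.E r (h * t ^ (n + D))) : ℝ) ≤ (m + ε) * D + C) :
    ∃ κ : ℝ, 0 < κ ∧ ∀ lam : ℝ, Pr 𝒞 m lam → Pr 𝒞 m (lam + κ) := by
  obtain ⟨Cf, hCf, hflow⟩ := flow2 𝒞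
  obtain ⟨κ₀, hκ₀, hpl⟩ := planar Cf hCf
  refine ⟨κ₀ / 2, by positivity, fun lam hP ε hε D₀ => ?_⟩
  obtain ⟨ε₁, hε₁, hpl⟩ := hpl m lam hm (ε / 2) (by positivity)
  obtain ⟨Cu, hCu0, hCu⟩ := hup ε₁ hε₁
  set Ka : ℝ := 𝒞.K * 𝒞.N a with hKa
  set Kb : ℝ := 𝒞.K * 𝒞.N b with hKb
  set Kc : ℝ := 𝒞.K * 𝒞.N c with hKc
  have hKa0 : 0 ≤ Ka := by positivity
  have hKb0 : 0 ≤ Kb := by positivity
  have hKc0 : 0 ≤ Kc := by positivity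
  set C₁ : ℝ := Cu + 2 * Kc + Ka + 2 * Kb + Cf with hC₁
  have hCf0 : (0 : ℝ) ≤ Cf := by positivity
  have hC₁0 : 0 ≤ C₁ := by positivity
  obtain ⟨D₁, hpl⟩ := hpl C₁ hC₁0
  -- a large number
  obtain ⟨n₁, hn₁⟩ := exists_nat_gt (4 * Kc / ε)
  obtain ⟨n₂, hn₂⟩ := exists_nat_gt (4 * Kc / κ₀)
  obtain ⟨D, r, h, n0, hD, hA, hdE, hdT⟩ := hP ε₁ hε₁ (max D₁ (32 * max D₀ (max n₁ n₂)))
  have hD1 : D₁ ≤ D := le_trans (le_max_left _ _) hD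
  have hD2 : 32 * max D₀ (max n₁ n₂) ≤ D := le_trans (le_max_right _ _) hD
  -- the plane
  set P : ℤ × ℤ → Gr := fun p => pt h (n0 + p.1) (n0 + p.2) with hPdef
  set δ : ℤ × ℤ → ℤ × ℤ → ℝ := fun p q => (𝒞.d (𝒞.E r (P p)) (𝒞.E r (P q)) : ℝ) with hδ
  set τ : ℤ × ℤ → ℝ := fun p => (𝒞.T (P p) : ℝ) with hτ
  have hsymm : ∀ x y, δ x y = δ y x := by
    intro x y; simp only [hδ]; rw [𝒞.d_comm]
  have htri : ∀ x y z, δ x z ≤ δ x y + δ y z := by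
    intro x y z; simp only [hδ]; exact_mod_cast 𝒞.d_tri _ _ _
  have hvert : ∀ (i n : ℤ) (l : ℕ), δ (i, n) (i, n + l) ≤ (m + ε₁) * l + C₁ := by
    intro i n l
    have := hCu l r (h * b * a ^ (n0 + i)) (n0 + n) (hA.ba _)
    have e : P (i, n + l) = h * b * a ^ (n0 + i) * t ^ (n0 + n + l) := by
      simp only [hPdef, pt, add_assoc]
    simp only [hδ]
    rw [e]
    have e2 : P (i, n) = h * b * a ^ (n0 + i) * t ^ (n0 + n) := rfl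
    rw [e2]
    linarith
  have hdiagP : ∀ (i n : ℤ) (l : ℕ), P (i + 2 * l, n + l)
      = (h * b * a ^ ((n0 + i) - 2 * (n0 + n)) * c⁻¹) * t ^ (n0 + n + l) * c := by
    intro i n l
    simp only [hPdef]
    rw [ST_pt_c]
    congr 3
    · congr 2; ring
    · ring
  have hdiagP0 : ∀ (i n : ℤ), P (i, n)
      = (h * b * a ^ ((n0 + i) - 2 * (n0 + n)) * c⁻¹) * t ^ (n0 + n) * c := by
    intro i n
    simp only [hPdef]
    rw [ST_pt_c]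
  have hdiag : ∀ (i n : ℤ) (l : ℕ), δ (i, n) (i + 2 * l, n + l) ≤ (m + ε₁) * l + C₁ := by
    intro i n l
    have h1 := hCu l r _ (n0 + n) (hA.bac ((n0 + i) - 2 * (n0 + n)))
    set h'' := h * b * a ^ ((n0 + i) - 2 * (n0 + n)) * c⁻¹ with hh''
    have h2 := ST_dE' 𝒞 r (h'' * t ^ (n0 + n)) c
    have h3 := ST_dE 𝒞 r (h'' * t ^ (n0 + n + l)) c
    have h4 : (𝒞.d (𝒞.E r (h'' * t ^ (n0 + n) * c)) (𝒞.E r (h'' * t ^ (n0 + n + l) * c)) : ℝ)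
        ≤ 𝒞.d (𝒞.E r (h'' * t ^ (n0 + n) * c)) (𝒞.E r (h'' * t ^ (n0 + n)))
          + 𝒞.d (𝒞.E r (h'' * t ^ (n0 + n))) (𝒞.E r (h'' * t ^ (n0 + n + l) * c)) := by
      exact_mod_cast 𝒞.d_tri _ _ _
    have h5 : (𝒞.d (𝒞.E r (h'' * t ^ (n0 + n))) (𝒞.E r (h'' * t ^ (n0 + n + l) * c)) : ℝ)
        ≤ 𝒞.d (𝒞.E r (h'' * t ^ (n0 + n))) (𝒞.E r (h'' * t ^ (n0 + n + l)))
          + 𝒞.d (𝒞.E r (h'' * t ^ (n0 + n + l))) (𝒞.E r (h'' * t ^ (n0 + n + l) * c)) := by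
      exact_mod_cast 𝒞.d_tri _ _ _
    simp only [hδ]
    rw [hdiagP, hdiagP0]
    rw [← hKc] at h2 h3
    linarith
  have hastep : ∀ (i n : ℤ), δ (i, n) (i + 1, n) ≤ C₁ := by
    intro i n
    have h1 := ST_dE 𝒞 r (P (i, n)) a
    have e : P (i + 1, n) = P (i, n) * a := by
      simp only [hPdef]
      rw [← ST_pt_a, add_assoc]
    simp only [hδ]
    rw [e]
    rw [← hKa] at h1
    linarith
  have hτa : ∀ (i n : ℤ), |τ (i + 1, n) - τ (i, n)| ≤ C₁ := by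
    intro i n
    have h1 := ST_T 𝒞 (P (i, n)) a
    have e : P (i + 1, n) = P (i, n) * a := by
      simp only [hPdef]
      rw [← ST_pt_a, add_assoc]
    simp only [hτ]
    rw [e]
    rw [← hKa] at h1
    linarith
  have hP0 : P (0, 0) = h * t ^ n0 * b := by
    simp only [hPdef, add_zero]
    exact ST_pt_line h n0
  have hPD : P ((D : ℤ), (D : ℤ)) = h * t ^ (n0 + D) * b := by
    simp only [hPdef]
    exact ST_pt_line h _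
  have hdd : (m - ε₁) * D - C₁ ≤ δ (0, 0) ((D : ℤ), (D : ℤ)) := by
    simp only [hδ]
    rw [hP0, hPD]
    have h2 := ST_dE 𝒞 r (h * t ^ n0) b
    have h3 := ST_dE' 𝒞 r (h * t ^ (n0 + D)) b
    have h4 : (𝒞.d (𝒞.E r (h * t ^ n0)) (𝒞.E r (h * t ^ (n0 + D))) : ℝ)
        ≤ 𝒞.d (𝒞.E r (h * t ^ n0)) (𝒞.E r (h * t ^ n0 * b))
          + 𝒞.d (𝒞.E r (h * t ^ n0 * b)) (𝒞.E r (h * t ^ (n0 + D))) := by
      exact_mod_cast 𝒞.d_tri _ _ _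
    have h5 : (𝒞.d (𝒞.E r (h * t ^ n0 * b)) (𝒞.E r (h * t ^ (n0 + D))) : ℝ)
        ≤ 𝒞.d (𝒞.E r (h * t ^ n0 * b)) (𝒞.E r (h * t ^ (n0 + D) * b))
          + 𝒞.d (𝒞.E r (h * t ^ (n0 + D) * b)) (𝒞.E r (h * t ^ (n0 + D))) := by
      exact_mod_cast 𝒞.d_tri _ _ _
    rw [← hKb] at h2 h3
    linarith
  have hττ : lam * D - C₁ ≤ τ ((D : ℤ), (D : ℤ)) - τ (0, 0) := by
    simp only [hτ]
    rw [hP0, hPD]
    have h2 := ST_T 𝒞 (h * t ^ n0) b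
    have h3 := ST_T 𝒞 (h * t ^ (n0 + D)) b
    rw [← hKb, abs_le] at h2 h3
    linarith [h2.1, h2.2, h3.1, h3.2]
  have hfl : ∀ (i n : ℤ) (k : ℕ), (Cf : ℤ) * (k + 1) ≤ |i - n| →
        ∃ i' n' : ℤ, |i' - i| + |n' - n| ≤ (Cf : ℤ) * (k + 1) ∧ δ (i, n) (i', n') ≤ C₁ ∧
          τ (i', n') + k ≤ τ (i, n) + C₁ := by
    intro i n k hk
    have hk' : (Cf : ℤ) * (k + 1) ≤ |(n0 + i) - (n0 + n)| := by
      have e : (n0 + i) - (n0 + n) = i - n := by ring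
      rw [e]; exact hk
    obtain ⟨i', n', h1, h2, h3⟩ := hflow r h (n0 + i) (n0 + n) k hA hk'
    refine ⟨i' - n0, n' - n0, ?_, ?_, ?_⟩
    · have e1 : i' - n0 - i = i' - (n0 + i) := by ring
      have e2 : n' - n0 - n = n' - (n0 + n) := by ring
      rw [e1, e2]; exact h1
    · simp only [hδ, hPdef]
      have e1 : n0 + (i' - n0) = i' := by ring
      have e2 : n0 + (n' - n0) = n' := by ring
      rw [e1, e2]
      have : (𝒞.d (𝒞.E r (pt h (n0 + i) (n0 + n))) (𝒞.E r (pt h i' n')) : ℝ) ≤ Cf := by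
        exact_mod_cast h2
      linarith
    · simp only [hτ, hPdef]
      have e1 : n0 + (i' - n0) = i' := by ring
      have e2 : n0 + (n' - n0) = n' := by ring
      rw [e1, e2]
      have : (𝒞.T (pt h i' n') : ℝ) + k ≤ 𝒞.T (pt h (n0 + i) (n0 + n)) + Cf := by
        exact_mod_cast h3
      linarith
  obtain ⟨l, i, n, hl, hcase⟩ := hpl D hD1 δ τ hsymm htri hvert hdiag hastep hτa hdd hττ hfl
  have hl2 : max D₀ (max n₁ n₂) ≤ l := by omega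
  have hlD₀ : D₀ ≤ l := le_trans (le_max_left _ _) hl2
  have hln₁ : n₁ ≤ l := le_trans (le_trans (le_max_left _ _) (le_max_right _ _)) hl2
  have hln₂ : n₂ ≤ l := le_trans (le_trans (le_max_right _ _) (le_max_right _ _)) hl2
  have hl1 : 2 * Kc ≤ ε / 2 * l := by
    have : (n₁ : ℝ) ≤ l := by exact_mod_cast hln₁
    have h1 : 4 * Kc / ε ≤ l := le_trans hn₁.le this
    rw [div_le_iff₀ hε] at h1
    linarith
  have hl3 : 2 * Kc ≤ κ₀ / 2 * l := by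
    have : (n₂ : ℝ) ≤ l := by exact_mod_cast hln₂
    have h1 : 4 * Kc / κ₀ ≤ l := le_trans hn₂.le this
    rw [div_le_iff₀ hκ₀] at h1
    linarith
  have hl0 : (0 : ℝ) ≤ l := Nat.cast_nonneg _
  have e3 : (m - ε) * l = (m - ε / 2) * l - ε / 2 * l := by ring
  have e4 : (lam + κ₀ / 2) * l = (lam + κ₀) * l - κ₀ / 2 * l := by ring
  have hεl : 0 ≤ ε / 2 * l := by positivity
  have hκl : 0 ≤ κ₀ / 2 * l := by positivity
  rcases hcase with ⟨h1, h2⟩ | ⟨h1, h2⟩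
  · refine ⟨l, r, h * b * a ^ (n0 + i), n0 + n, hlD₀, hA.ba _, ?_, ?_⟩
    · have e : P (i, n + l) = h * b * a ^ (n0 + i) * t ^ (n0 + n + l) := by
        simp only [hPdef, pt, add_assoc]
      simp only [hδ] at h1
      rw [e] at h1
      have e2 : P (i, n) = h * b * a ^ (n0 + i) * t ^ (n0 + n) := rfl
      rw [e2] at h1
      linarith
    · have e : P (i, n + l) = h * b * a ^ (n0 + i) * t ^ (n0 + n + l) := by
        simp only [hPdef, pt, add_assoc]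
      simp only [hτ] at h2
      rw [e] at h2
      have e2 : P (i, n) = h * b * a ^ (n0 + i) * t ^ (n0 + n) := rfl
      rw [e2] at h2
      linarith
  · refine ⟨l, r, h * b * a ^ ((n0 + i) - 2 * (n0 + n)) * c⁻¹, n0 + n, hlD₀, hA.bac _, ?_, ?_⟩
    · simp only [hδ] at h1
      rw [hdiagP, hdiagP0] at h1
      set h'' := h * b * a ^ ((n0 + i) - 2 * (n0 + n)) * c⁻¹ with hh''
      have h3 := ST_dE 𝒞 r (h'' * t ^ (n0 + n)) c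
      have h3' := ST_dE' 𝒞 r (h'' * t ^ (n0 + n)) c
      have h4' := ST_dE 𝒞 r (h'' * t ^ (n0 + n + l)) c
      have h5 : (𝒞.d (𝒞.E r (h'' * t ^ (n0 + n) * c)) (𝒞.E r (h'' * t ^ (n0 + n + l) * c)) : ℝ)
          ≤ 𝒞.d (𝒞.E r (h'' * t ^ (n0 + n) * c)) (𝒞.E r (h'' * t ^ (n0 + n)))
            + 𝒞.d (𝒞.E r (h'' * t ^ (n0 + n))) (𝒞.E r (h'' * t ^ (n0 + n + l) * c)) := by
        exact_mod_cast 𝒞.d_tri _ _ _
      have h6 : (𝒞.d (𝒞.E r (h'' * t ^ (n0 + n))) (𝒞.E r (h'' * t ^ (n0 + n + l) * c)) : ℝ)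
          ≤ 𝒞.d (𝒞.E r (h'' * t ^ (n0 + n))) (𝒞.E r (h'' * t ^ (n0 + n + l)))
            + 𝒞.d (𝒞.E r (h'' * t ^ (n0 + n + l))) (𝒞.E r (h'' * t ^ (n0 + n + l) * c)) := by
        exact_mod_cast 𝒞.d_tri _ _ _
      rw [← hKc] at h3' h4'
      linarith
    · simp only [hτ] at h2
      rw [hdiagP, hdiagP0] at h2
      set h'' := h * b * a ^ ((n0 + i) - 2 * (n0 + n)) * c⁻¹ with hh''
      have h3 := ST_T 𝒞 (h'' * t ^ (n0 + n)) c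
      have h4 := ST_T 𝒞 (h'' * t ^ (n0 + n + l)) c
      rw [← hKc, abs_le] at h3 h4
      have h31 := h3.1
      have h32 := h3.2
      have h41 := h4.1
      have h42 := h4.2
      linarith

end Pool.Agent.H34.Ger
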