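import Pool.Agent.H34.Ger.CM
import Pool.Agent.H34.Ger.MM
import Pool.Agent.H34.Ger.ST

/-!
FIN: the Gersten group has no combing data, hence no biautomatic structure.
-/

set_option autoImplicit false

namespace Pool.Agent.H34.Ger

theorem no_combing (𝒞 : Combing Gr) : False := by
  obtain ⟨m, hm, hlow, hup⟩ := exists_rate 𝒞
  obtain ⟨κ, hκ, hstep⟩ := step 𝒞 m hm hup
  set L : ℝ := 𝒞.K * 𝒞.N t with hL
  -- length changes along t-lines
  have hT : ∀ (g : Gr) (D : ℕ), (𝒞.T (g * t ^ (D : ℤ)) : ℝ) ≤ 𝒞.T g + L * D := by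
    intro g D
    induction D with
    | zero => simp
    | succ D ih =>
      have h1 := 𝒞.T_lip (g * t ^ (D : ℤ)) t
      have e : g * t ^ (D : ℤ) * t = g * t ^ ((D + 1 : ℕ) : ℤ) := by
        push_cast
        rw [zpow_add_one, mul_assoc]
      rw [e] at h1
      have h2 : (𝒞.T (g * t ^ ((D + 1 : ℕ) : ℤ)) : ℝ) ≤ 𝒞.T (g * t ^ (D : ℤ)) + L := by
        rw [hL]; exact_mod_cast h1
      push_cast at h2 ⊢
      linarith
  have hT' : ∀ (g : Gr) (D : ℕ), (𝒞.T g : ℝ) ≤ 𝒞.T (g * t ^ (D : ℤ)) + L * D := by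
    intro g D
    induction D with
    | zero => simp
    | succ D ih =>
      have h1 := 𝒞.T_lip (g * t ^ ((D + 1 : ℕ) : ℤ)) t⁻¹
      rw [𝒞.N_inv] at h1
      have e : g * t ^ ((D + 1 : ℕ) : ℤ) * t⁻¹ = g * t ^ (D : ℤ) := by
        push_cast
        rw [zpow_add_one]
        group
      rw [e] at h1
      have h2 : (𝒞.T (g * t ^ (D : ℤ)) : ℝ) ≤ 𝒞.T (g * t ^ ((D + 1 : ℕ) : ℤ)) + L := by
        rw [hL]; exact_mod_cast h1
      push_cast at h2 ⊢
      linarith
  have hadd : ∀ (h : Gr) (n : ℤ) (D : ℕ), h * t ^ (n + D) = h * t ^ n * t ^ (D : ℤ) := by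
    intro h n D
    rw [zpow_add, mul_assoc]
  have hP0 : Pr 𝒞 m (-L) := by
    intro ε hε D₀
    obtain ⟨r, h, n, hA, hd⟩ := hlow D₀
    refine ⟨D₀, r, h, n, le_rfl, hA, ?_, ?_⟩
    · refine le_trans ?_ hd
      have : (0 : ℝ) ≤ D₀ := Nat.cast_nonneg _
      nlinarith
    · have := hT' (h * t ^ n) D₀
      rw [hadd]
      linarith
  have hPj : ∀ j : ℕ, Pr 𝒞 m (-L + j * κ) := by
    intro j
    induction j with
    | zero => simpa using hP0
    | succ j ih =>
      have := hstep _ ih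
      have e : -L + ((j + 1 : ℕ) : ℝ) * κ = -L + j * κ + κ := by push_cast; ring
      rw [e]; exact this
  obtain ⟨j, hj⟩ := exists_nat_gt ((2 * L) / κ)
  have hj' : 2 * L < j * κ := by
    rwa [div_lt_iff₀ hκ] at hj
  obtain ⟨D, r, h, n, hD, hA, -, hlen⟩ := hPj j 1 one_pos 1
  have h1 := hT (h * t ^ n) D
  rw [hadd] at hlen
  have hD' : (1 : ℝ) ≤ D := by exact_mod_cast hD
  nlinarith

/-- The Gersten group is not biautomatic. -/
theorem not_biautomatic {α σ : Type} [Fintype α] [Fintype σ] (B : BA Gr α σ) : False := by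
  obtain ⟨𝒞⟩ := B.combing
  exact no_combing 𝒞

end Pool.Agent.H34.Ger
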