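import Pool.Agent.H34.Ger.UD
import Pool.Agent.H34.Ger.CR
import Pool.Agent.H34.Ger.AD

/-!
FL: going backwards along the combing path inside the flat `h b A`.  Points `pt h i n = h b aⁱ tⁿ`,
`(pt h i n)⁻¹ * pt h i' n' = a^(i'-i) t^(n'-n)` (`at_comm`).  `z = pt h i n`.
`travel`: constants `C_f` from `flow`, `C₁` from `undist`.  `s₁`, `m` from `flow`, and for `s ≥ s₁` coordinates
`(i_s, n_s)` with `d (pt i_s n_s) (E s z) ≤ C_f`.  Two points `pt i n`, `pt i' n'` of the flat within `C_f` of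
`E s z` and `E (s+1) z` (or of the same `E s z`) are at distance `≤ 2 C_f + 1`, so by `undist`
`|i-i'| + |n-n'| ≤ C_c := C₁ (2 C_f + 1) + C₁`.  Start with `E (T z) z = z` and go down: by induction on `k` (`k + s₁ ≤ T z`)
every `(i',n')` with `d (pt i' n') (E (T z - k) z) ≤ C_f` satisfies `|i'-i| + |n'-n| ≤ C_c (k+1)`.
At `k = T z - s₁` compare with `pt m m`: `|i - m| + |n - m| ≤ C_c (T z - s₁ + 1)`, hence
`|i - n| ≤ C_c (T z - s₁ + 1)`.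
`flow2`: given `(r,h)` admissible (`Adm.inv_not_mem`) and `C (k+1) ≤ |i-n|` with `C` large: by `travel`
`T z - s₁ ≥ k + K₂`, `K₂ := K + K C_f` (if `C ≥ C_c (K₂ + 2)`).  For `s ∈ [s₁, T z]`:
`r ≤ T (pt i_s n_s) ≤ T (E s z) + K C_f ≤ s + K₂` (`Adm.flat`, `T_lip`, `T_E_le`); use it for `s = T z - k - K₂ ≥ s₁`:
`r ≤ T z - k`.  Let `z' = E (T z - k) z`, `(i',n')` its coordinates.
`E_E`: `d (E r z') (E r z) ≤ K`;  `E_lip`: `d (E r z') (E r (pt i' n')) ≤ K C_f`.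
`T_E_le`: `T z' ≤ T z - k + K`, and `T (pt i' n') ≤ T z' + K C_f`.
-/

set_option autoImplicit false

namespace Pool.Agent.H34.Ger

/-- Points of the flat `h b A`. -/
def pt (h : Gr) (i n : ℤ) : Gr := h * b * a ^ i * t ^ n

theorem FL_quot (i n i' n' : ℤ) :
    (a ^ i * t ^ n)⁻¹ * (a ^ i' * t ^ n') = a ^ (i' - i) * t ^ (n' - n) := by
  have h2 : Commute (t ^ (-n)) (a ^ (i' - i)) := (at_comm.symm.zpow_zpow (-n) (i' - i))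
  have e1 : (a ^ i * t ^ n)⁻¹ = t ^ (-n) * a ^ (-i) := by
    rw [mul_inv_rev, zpow_neg, zpow_neg]
  calc (a ^ i * t ^ n)⁻¹ * (a ^ i' * t ^ n') = t ^ (-n) * (a ^ (-i) * a ^ i') * t ^ n' := by
        rw [e1]
        group
    _ = t ^ (-n) * a ^ (i' - i) * t ^ n' := by
        rw [← zpow_add]
        congr 3
        ring
    _ = a ^ (i' - i) * t ^ (-n) * t ^ n' := by rw [h2.eq]
    _ = a ^ (i' - i) * t ^ (n' - n) := by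
        rw [mul_assoc, ← zpow_add]
        congr 2
        ring

theorem pt_inv_mul (h : Gr) (i n i' n' : ℤ) :
    (pt h i n)⁻¹ * pt h i' n' = a ^ (i' - i) * t ^ (n' - n) := by
  rw [← FL_quot]
  unfold pt
  group

theorem travel (𝒞 : Combing Gr) : ∃ C : ℕ, ∀ (h : Gr) (i n : ℤ), h⁻¹ ∉ H →
    ∃ s₁ ≤ 𝒞.T (pt h i n), |i - n| ≤ (C : ℤ) * ((𝒞.T (pt h i n) : ℤ) - s₁ + 1) ∧
      ∀ k : ℕ, k + s₁ ≤ 𝒞.T (pt h i n) → ∃ i' n' : ℤ,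
        𝒞.d (pt h i' n') (𝒞.E (𝒞.T (pt h i n) - k) (pt h i n)) ≤ C ∧
        |i' - i| + |n' - n| ≤ (C : ℤ) * (k + 1) := by
  obtain ⟨Cf, hCf⟩ := flow 𝒞
  obtain ⟨C1, hC1⟩ := undist 𝒞
  set Cc : ℕ := C1 * (2 * Cf + 1) + C1 with hCc
  refine ⟨Cf + Cc, fun h i n hh => ?_⟩
  obtain ⟨s₁, hs₁, ⟨m, hm⟩, hfl⟩ := hCf h i n hh
  -- two nearby points of the flat
  have near : ∀ (i₁ n₁ i₂ n₂ : ℤ) (g₁ g₂ : Gr), 𝒞.d (pt h i₁ n₁) g₁ ≤ Cf →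
      𝒞.d (pt h i₂ n₂) g₂ ≤ Cf → 𝒞.d g₁ g₂ ≤ 1 → |i₂ - i₁| + |n₂ - n₁| ≤ (Cc : ℤ) := by
    intro i₁ n₁ i₂ n₂ g₁ g₂ h1 h2 h3
    have h4 := 𝒞.d_tri (pt h i₁ n₁) g₁ (pt h i₂ n₂)
    have h5 := 𝒞.d_tri g₁ g₂ (pt h i₂ n₂)
    rw [𝒞.d_comm (pt h i₂ n₂) g₂] at h2
    have h6 : 𝒞.N (a ^ (i₂ - i₁) * t ^ (n₂ - n₁)) ≤ 2 * Cf + 1 := by
      rw [← pt_inv_mul h]
      change 𝒞.d (pt h i₁ n₁) (pt h i₂ n₂) ≤ _
      omega
    have h7 := hC1 (i₂ - i₁) (n₂ - n₁)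
    have h8 : (C1 : ℤ) * 𝒞.N (a ^ (i₂ - i₁) * t ^ (n₂ - n₁)) ≤ (C1 : ℤ) * (2 * Cf + 1) := by
      apply mul_le_mul_of_nonneg_left _ (by positivity)
      exact_mod_cast h6
    rw [hCc]
    push_cast
    linarith
  have hP : ∀ k : ℕ, k + s₁ ≤ 𝒞.T (pt h i n) → ∀ i' n' : ℤ,
      𝒞.d (pt h i' n') (𝒞.E (𝒞.T (pt h i n) - k) (pt h i n)) ≤ Cf →
      |i' - i| + |n' - n| ≤ (Cc : ℤ) * (k + 1) := by
    intro k
    induction k with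
    | zero =>
      intro _ i' n' hd
      rw [Nat.sub_zero, 𝒞.E_top _ _ le_rfl] at hd
      have := near i n i' n' (pt h i n) (pt h i n) (by rw [𝒞.d_self]; exact Nat.zero_le _) hd
        (by rw [𝒞.d_self]; exact Nat.zero_le _)
      simpa using this
    | succ k ih =>
      intro hk i' n' hd
      obtain ⟨i₂, n₂, h2⟩ := hfl (𝒞.T (pt h i n) - k) (by unfold pt at hk ⊢; omega)
      have h3 := ih (by omega) i₂ n₂ h2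
      have h4 := 𝒞.E_step (𝒞.T (pt h i n) - (k + 1)) (pt h i n)
      have h5 : 𝒞.T (pt h i n) - (k + 1) + 1 = 𝒞.T (pt h i n) - k := by omega
      rw [h5] at h4
      have h6 : 𝒞.d (𝒞.E (𝒞.T (pt h i n) - k) (pt h i n))
          (𝒞.E (𝒞.T (pt h i n) - (k + 1)) (pt h i n)) ≤ 1 := by
        rw [𝒞.d_comm]; exact h4
      have h7 := near i₂ n₂ i' n' _ _ h2 hd h6
      have h8 : |i' - i| ≤ |i' - i₂| + |i₂ - i| := abs_sub_le _ _ _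
      have h9 : |n' - n| ≤ |n' - n₂| + |n₂ - n| := abs_sub_le _ _ _
      push_cast
      linarith
  refine ⟨s₁, hs₁, ?_, ?_⟩
  · have h1 := hP (𝒞.T (pt h i n) - s₁) (by unfold pt; omega) m m (by
      have : 𝒞.T (pt h i n) - (𝒞.T (pt h i n) - s₁) = s₁ := by unfold pt; omega
      rw [this]
      exact hm)
    have h2 : |i - n| ≤ |i - m| + |m - n| := abs_sub_le _ _ _
    rw [abs_sub_comm m i] at h1
    have h3 : ((𝒞.T (pt h i n) - s₁ : ℕ) : ℤ) = (𝒞.T (pt h i n) : ℤ) - s₁ :=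
      Nat.cast_sub hs₁
    rw [h3] at h1
    have h4 : (0 : ℤ) ≤ (𝒞.T (pt h i n) : ℤ) - s₁ + 1 := by
      have : (s₁ : ℤ) ≤ 𝒞.T (pt h i n) := by exact_mod_cast hs₁
      linarith
    have h5 : (0 : ℤ) ≤ (Cf : ℤ) * ((𝒞.T (pt h i n) : ℤ) - s₁ + 1) :=
      mul_nonneg (by positivity) h4
    push_cast
    linarith
  · intro k hk
    obtain ⟨i₂, n₂, h2⟩ := hfl (𝒞.T (pt h i n) - k) (by omega)
    refine ⟨i₂, n₂, ?_, ?_⟩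
    · exact le_trans h2 (Nat.le_add_right _ _)
    · have h3 := hP k hk i₂ n₂ h2
      have h5 : (0 : ℤ) ≤ (Cf : ℤ) * (k + 1) := by positivity
      push_cast
      linarith

theorem flow2 (𝒞 : Combing Gr) : ∃ C : ℕ, 0 < C ∧ ∀ (r : ℕ) (h : Gr) (i n : ℤ) (k : ℕ), Adm 𝒞 r h →
    (C : ℤ) * (k + 1) ≤ |i - n| →
    ∃ i' n' : ℤ, |i' - i| + |n' - n| ≤ (C : ℤ) * (k + 1) ∧
      𝒞.d (𝒞.E r (pt h i n)) (𝒞.E r (pt h i' n')) ≤ C ∧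
      𝒞.T (pt h i' n') + k ≤ 𝒞.T (pt h i n) + C := by
  obtain ⟨C0, hC0⟩ := travel 𝒞
  set K2 : ℕ := 𝒞.K + 𝒞.K * C0 with hK2
  refine ⟨C0 * (K2 + 1) + 1 + K2, by omega, fun r h i n k hA hin => ?_⟩
  obtain ⟨s₁, hs₁, h1, h2⟩ := hC0 h i n hA.inv_not_mem
  have hlong : k + K2 + s₁ ≤ 𝒞.T (pt h i n) := by
    by_contra hcon
    push Not at hcon
    have h3 : (𝒞.T (pt h i n) : ℤ) - s₁ + 1 ≤ k + K2 := by
      have : (𝒞.T (pt h i n) : ℤ) + 1 ≤ k + K2 + s₁ := by exact_mod_cast hcon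
      linarith
    have h4 : (C0 : ℤ) * ((𝒞.T (pt h i n) : ℤ) - s₁ + 1) ≤ (C0 : ℤ) * (k + K2) :=
      mul_le_mul_of_nonneg_left h3 (by positivity)
    have h5 : (C0 : ℤ) * (k + K2) ≤ (C0 : ℤ) * ((K2 + 1) * (k + 1)) := by
      apply mul_le_mul_of_nonneg_left _ (by positivity)
      have : (0 : ℤ) ≤ (K2 : ℤ) * k := by positivity
      linarith
    push_cast at hin
    have h6 : (0 : ℤ) ≤ (K2 : ℤ) * (k + 1) := by positivity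
    have h7 : ((C0 : ℤ) * (K2 + 1) + 1 + K2) * (k + 1)
        = (C0 : ℤ) * ((K2 + 1) * (k + 1)) + (k + 1) + K2 * (k + 1) := by ring
    have h8 : (0 : ℤ) ≤ k := by positivity
    linarith
  -- lengths of the points of the flat near the path
  have hT : ∀ (s : ℕ) (i' n' : ℤ), s ≤ 𝒞.T (pt h i n) →
      𝒞.d (pt h i' n') (𝒞.E s (pt h i n)) ≤ C0 → 𝒞.T (pt h i' n') ≤ s + K2 := by
    intro s i' n' hs hd
    have h3 := 𝒞.T_lip (𝒞.E s (pt h i n)) ((𝒞.E s (pt h i n))⁻¹ * pt h i' n')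
    rw [mul_inv_cancel_left] at h3
    have h4 := 𝒞.T_E_le (pt h i n) s hs
    rw [𝒞.d_comm] at hd
    have h5 : 𝒞.K * 𝒞.N ((𝒞.E s (pt h i n))⁻¹ * pt h i' n') ≤ 𝒞.K * C0 :=
      Nat.mul_le_mul_left _ hd
    omega
  have hr : r ≤ 𝒞.T (pt h i n) - k := by
    obtain ⟨i₂, n₂, h3, -⟩ := h2 (k + K2) hlong
    have h4 := hT (𝒞.T (pt h i n) - (k + K2)) i₂ n₂ (Nat.sub_le _ _) h3
    have h5 : r ≤ 𝒞.T (pt h i₂ n₂) := hA.flat i₂ n₂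
    omega
  obtain ⟨i₂, n₂, h3, h4⟩ := h2 k (by omega)
  refine ⟨i₂, n₂, ?_, ?_, ?_⟩
  · refine h4.trans ?_
    push_cast
    have h5 : (0 : ℤ) ≤ ((C0 : ℤ) * K2 + 1 + K2) * (k + 1) := by positivity
    have h6 : ((C0 : ℤ) * (K2 + 1) + 1 + K2) * (k + 1)
        = (C0 : ℤ) * (k + 1) + ((C0 : ℤ) * K2 + 1 + K2) * (k + 1) := by ring
    linarith
  · have h5 := 𝒞.E_E (pt h i n) r (𝒞.T (pt h i n) - k) hr (Nat.sub_le _ _)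
    have h6 := 𝒞.E_lip r (𝒞.E (𝒞.T (pt h i n) - k) (pt h i n))
      ((𝒞.E (𝒞.T (pt h i n) - k) (pt h i n))⁻¹ * pt h i₂ n₂)
    rw [mul_inv_cancel_left] at h6
    have h7 := 𝒞.d_tri (𝒞.E r (pt h i n)) (𝒞.E r (𝒞.E (𝒞.T (pt h i n) - k) (pt h i n)))
      (𝒞.E r (pt h i₂ n₂))
    rw [𝒞.d_comm (𝒞.E r (pt h i n)) (𝒞.E r (𝒞.E (𝒞.T (pt h i n) - k) (pt h i n)))] at h7
    rw [𝒞.d_comm] at h3
    have h8 : 𝒞.K * 𝒞.N ((𝒞.E (𝒞.T (pt h i n) - k) (pt h i n))⁻¹ * pt h i₂ n₂) ≤ 𝒞.K * C0 :=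
      Nat.mul_le_mul_left _ h3
    have h9 : 𝒞.d (𝒞.E r (𝒞.E (𝒞.T (pt h i n) - k) (pt h i n))) (𝒞.E r (pt h i n)) ≤ 𝒞.K := h5
    have h10 : 𝒞.d (𝒞.E r (𝒞.E (𝒞.T (pt h i n) - k) (pt h i n))) (𝒞.E r (pt h i₂ n₂))
        ≤ 𝒞.K * 𝒞.N ((𝒞.E (𝒞.T (pt h i n) - k) (pt h i n))⁻¹ * pt h i₂ n₂) := h6
    omega
  · have h5 := hT (𝒞.T (pt h i n) - k) i₂ n₂ (Nat.sub_le _ _) h3
    omega

end Pool.Agent.H34.Ger
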