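import Pool.Agent.H34.Ger.NN

/-!
FT: two-sided fellow travelling for arbitrary differences.
Right version: by induction on a list `l` with `B.sval l = x`, `l.length = B.N x` (generalise `u`; prove the
bound `k * (l.length + 1)`):
`l = []`: `B.ft u v []` first part, `B.N_val_le`.  `l = (s,true) :: l'`: take an accepted `u'` with value
`val u * μ s` (`B.surj`), `B.ft u u' [s]` gives `N (u(t)⁻¹ u'(t)) ≤ k`, then the induction hypothesis for
`u', v, l'`.  `l = (s,false) :: l'`: accepted `u'` with value `val u * (μ s)⁻¹`, so `val u' * μ s = val u`, use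
`B.ft u' u [s]` and `B.N_inv`.
Left version: induction on `l` from the right end: `x = sval l' * sval [(s,e)]`; the element
`sval [(s,e)] * val u` is the value of an accepted `u'`.
-/

set_option autoImplicit false

namespace Pool.Agent.H34.Ger.BA

variable {G : Type} [Group G] {α σ : Type} [Fintype α] [Fintype σ] (B : BA G α σ)

/-- value of a signed letter -/
def FT_sg (p : α × Bool) : G := if p.2 then B.μ p.1 else (B.μ p.1)⁻¹

theorem FT_cons (p : α × Bool) (l : List (α × Bool)) : B.sval (p :: l) = B.FT_sg p * B.sval l := by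
  simp [sval, FT_sg]

theorem FT_nil : B.sval ([] : List (α × Bool)) = 1 := rfl

theorem FT_comm (x y : G) : B.N (x⁻¹ * y) = B.N (y⁻¹ * x) := by
  rw [← B.N_inv (x⁻¹ * y)]; simp

theorem FT_right (u v : List α) (hu : u ∈ B.M.accepts) (hv : v ∈ B.M.accepts) (s : List α) (hs : s.length ≤ 1)
    (h : B.val u * B.val s = B.val v) (t : ℕ) : B.N ((B.val (u.take t))⁻¹ * B.val (v.take t)) ≤ B.k := by
  obtain ⟨w, hw, e⟩ := (B.ft u hu v hv s hs).1 h t
  have : B.val w = (B.val (u.take t))⁻¹ * B.val (v.take t) := e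
  rw [← this]
  exact (B.N_val_le w).trans hw

theorem FT_left (u v : List α) (hu : u ∈ B.M.accepts) (hv : v ∈ B.M.accepts) (s : List α) (hs : s.length ≤ 1)
    (h : B.val s * B.val u = B.val v) (t : ℕ) :
    B.N ((B.val s * B.val (u.take t))⁻¹ * B.val (v.take t)) ≤ B.k := by
  obtain ⟨w, hw, e⟩ := (B.ft u hu v hv s hs).2 h t
  have : B.val w = (B.val s * B.val (u.take t))⁻¹ * B.val (v.take t) := e
  rw [← this]
  exact (B.N_val_le w).trans hw

theorem FT_A1l (l : List (α × Bool)) : ∀ u v : List α, u ∈ B.M.accepts → v ∈ B.M.accepts →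
    B.val u * B.sval l = B.val v →
    ∀ t : ℕ, B.N ((B.val (u.take t))⁻¹ * B.val (v.take t)) ≤ B.k * (l.length + 1) := by
  induction l with
  | nil =>
    intro u v hu hv h t
    rw [FT_nil] at h
    have := B.FT_right u v hu hv [] (by simp) h t
    simpa using this
  | cons p l ih =>
    intro u v hu hv h t
    obtain ⟨u', hu', hv'⟩ := B.surj (B.val u * B.FT_sg p)
    change B.val u' = _ at hv'
    have h1 : B.N ((B.val (u.take t))⁻¹ * B.val (u'.take t)) ≤ B.k := by
      obtain ⟨a, b⟩ := p
      cases b with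
      | true =>
        apply B.FT_right u u' hu hu' [a] (by simp)
        rw [hv']; simp [val, FT_sg]
      | false =>
        rw [FT_comm]
        apply B.FT_right u' u hu' hu [a] (by simp)
        rw [hv']; simp [val, FT_sg]
    have h2 := ih u' v hu' hv (by rw [hv', ← h, FT_cons, mul_assoc]) t
    have h3 := B.N_mul ((B.val (u.take t))⁻¹ * B.val (u'.take t)) ((B.val (u'.take t))⁻¹ * B.val (v.take t))
    have e : (B.val (u.take t))⁻¹ * B.val (u'.take t) * ((B.val (u'.take t))⁻¹ * B.val (v.take t)) =
      (B.val (u.take t))⁻¹ * B.val (v.take t) := by group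
    rw [e] at h3
    rw [List.length_cons]
    calc _ ≤ _ := h3
      _ ≤ B.k + B.k * (l.length + 1) := add_le_add h1 h2
      _ = B.k * (l.length + 1 + 1) := by ring

theorem FT_A2l (l : List (α × Bool)) : ∀ u v : List α, u ∈ B.M.accepts → v ∈ B.M.accepts →
    B.sval l * B.val u = B.val v →
    ∀ t : ℕ, B.N ((B.sval l * B.val (u.take t))⁻¹ * B.val (v.take t)) ≤ B.k * (l.length + 1) := by
  induction l with
  | nil =>
    intro u v hu hv h t
    have := B.FT_left u v hu hv [] (by simp) h t
    rw [FT_nil]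
    have e : B.val ([] : List α) = 1 := rfl
    rw [e] at this
    simpa using this
  | cons p l ih =>
    intro u v hu hv h t
    obtain ⟨u', hu', hv'⟩ := B.surj (B.sval l * B.val u)
    change B.val u' = _ at hv'
    have h1 := ih u u' hu hu' hv'.symm t
    have h2 : B.N ((B.FT_sg p * B.val (u'.take t))⁻¹ * B.val (v.take t)) ≤ B.k := by
      obtain ⟨a, b⟩ := p
      cases b with
      | true =>
        have := B.FT_left u' v hu' hv [a] (by simp) (by
          rw [hv', ← h, FT_cons]; simp [val, FT_sg, mul_assoc]) t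
        simpa [val, FT_sg] using this
      | false =>
        have := B.FT_left v u' hv hu' [a] (by simp) (by
          rw [hv', ← h, FT_cons]; simp [val, FT_sg, mul_assoc]) t
        rw [← B.N_inv]
        have e : ((B.FT_sg (a, false) * B.val (List.take t u'))⁻¹ * B.val (List.take t v))⁻¹ =
          (B.val [a] * B.val (List.take t v))⁻¹ * B.val (List.take t u') := by
          simp [val, FT_sg, mul_assoc]
        rw [e]; exact this
    have h3 := B.N_mul ((B.sval l * B.val (u.take t))⁻¹ * B.val (u'.take t))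
      ((B.FT_sg p * B.val (u'.take t))⁻¹ * B.val (v.take t))
    have e : (B.sval (p :: l) * B.val (u.take t))⁻¹ * B.val (v.take t) =
      (B.sval l * B.val (u.take t))⁻¹ * B.val (u'.take t) *
      ((B.FT_sg p * B.val (u'.take t))⁻¹ * B.val (v.take t)) := by
      rw [FT_cons]; group
    rw [e, List.length_cons]
    calc _ ≤ _ := h3
      _ ≤ B.k * (l.length + 1) + B.k := add_le_add h1 h2
      _ = B.k * (l.length + 1 + 1) := by ring

theorem ft_right (u v : List α) (hu : u ∈ B.M.accepts) (hv : v ∈ B.M.accepts) (x : G)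
    (h : B.val u * x = B.val v) (t : ℕ) :
    B.N ((B.val (u.take t))⁻¹ * B.val (v.take t)) ≤ B.k * (B.N x + 1) := by
  obtain ⟨l, hl, rfl⟩ := B.N_spec x
  rw [← hl]
  exact B.FT_A1l l u v hu hv h t

theorem ft_left (u v : List α) (hu : u ∈ B.M.accepts) (hv : v ∈ B.M.accepts) (x : G)
    (h : x * B.val u = B.val v) (t : ℕ) :
    B.N ((x * B.val (u.take t))⁻¹ * B.val (v.take t)) ≤ B.k * (B.N x + 1) := by
  obtain ⟨l, hl, rfl⟩ := B.N_spec x
  rw [← hl]
  exact B.FT_A2l l u v hu hv h t

end Pool.Agent.H34.Ger.BA
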