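import Pool.Agent.H34.Ger.Defs

/-!
GA: computation rules in the Gersten group.
`phi` fixes `of 0`, `phi (of 1) = of 1 * of 0`, `phi (of 2) = of 2 * of 0 * of 0`, hence (induction on
`n`, both signs) `phi ^ n` maps `of 1` to `of 1 * of 0 ^ n` and `of 2` to `of 2 * of 0 ^ (2 n)`.
In `Gr`: `t ^ n = inr (ofAdd n)`, `a ^ i = inl (of 0 ^ i)`, so `(a ^ i * t ^ n).left = of 0 ^ i`,
`(a ^ i * t ^ n).right = ofAdd n`.  Injectivity: `of 0 ^ i = 1` implies `i = 0` in the free group
(for example `FreeGroup.norm_of_pow`, or the homomorphism to `Multiplicative ℤ`).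
-/

set_option autoImplicit false

namespace Pool.Agent.H34.Ger

theorem GA_phi0 : phi (FreeGroup.of 0) = FreeGroup.of 0 := by
  show fHom (FreeGroup.of 0) = FreeGroup.of 0
  simp [fHom]

theorem GA_phi1 : phi (FreeGroup.of 1) = FreeGroup.of 1 * FreeGroup.of 0 := by
  show fHom (FreeGroup.of 1) = _
  simp [fHom]

theorem GA_phi2 : phi (FreeGroup.of 2) = FreeGroup.of 2 * FreeGroup.of 0 * FreeGroup.of 0 := by
  show fHom (FreeGroup.of 2) = _
  simp [fHom]

theorem GA_psi0 : phi⁻¹ (FreeGroup.of 0) = FreeGroup.of 0 := by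
  show gHom (FreeGroup.of 0) = FreeGroup.of 0
  simp [gHom]

theorem GA_psi1 : phi⁻¹ (FreeGroup.of 1) = FreeGroup.of 1 * (FreeGroup.of 0)⁻¹ := by
  show gHom (FreeGroup.of 1) = _
  simp [gHom]

theorem GA_psi2 :
    phi⁻¹ (FreeGroup.of 2) = FreeGroup.of 2 * (FreeGroup.of 0)⁻¹ * (FreeGroup.of 0)⁻¹ := by
  show gHom (FreeGroup.of 2) = _
  simp [gHom]

theorem phi_of0 (n : ℤ) : (phi ^ n) (FreeGroup.of 0) = FreeGroup.of 0 := by
  induction n using Int.induction_on with
  | zero => simp
  | succ n ih => rw [zpow_add_one, MulAut.mul_apply, GA_phi0, ih]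
  | pred n ih => rw [zpow_sub_one, MulAut.mul_apply, GA_psi0, ih]

theorem phi_of1 (n : ℤ) : (phi ^ n) (FreeGroup.of 1) = FreeGroup.of 1 * FreeGroup.of 0 ^ n := by
  induction n using Int.induction_on with
  | zero => simp
  | succ n ih =>
    rw [zpow_add_one, MulAut.mul_apply, GA_phi1, map_mul, ih, phi_of0, zpow_add_one, mul_assoc]
  | pred n ih =>
    rw [zpow_sub_one, MulAut.mul_apply, GA_psi1, map_mul, map_inv, ih, phi_of0, zpow_sub_one,
      mul_assoc]

theorem phi_of2 (n : ℤ) :
    (phi ^ n) (FreeGroup.of 2) = FreeGroup.of 2 * FreeGroup.of 0 ^ (2 * n) := by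
  induction n using Int.induction_on with
  | zero => simp
  | succ n ih =>
    rw [zpow_add_one, MulAut.mul_apply, GA_phi2, map_mul, map_mul, ih, phi_of0,
      show 2 * ((n : ℤ) + 1) = 2 * n + 1 + 1 by ring, zpow_add_one, zpow_add_one]
    simp only [mul_assoc]
  | pred n ih =>
    rw [zpow_sub_one, MulAut.mul_apply, GA_psi2, map_mul, map_mul, map_inv, ih, phi_of0,
      show 2 * (-(n : ℤ) - 1) = 2 * (-n) - 1 - 1 by ring, zpow_sub_one, zpow_sub_one]
    simp only [mul_assoc]

theorem t_zpow (n : ℤ) : t ^ n = (SemidirectProduct.inr (Multiplicative.ofAdd n) : Gr) := by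
  unfold t
  rw [← map_zpow, ← ofAdd_zsmul, smul_eq_mul, mul_one]

theorem a_zpow (i : ℤ) : a ^ i = (SemidirectProduct.inl (FreeGroup.of 0 ^ i) : Gr) := by
  unfold a
  rw [map_zpow]

/-- `(g tⁿ).left = g.left`. -/
theorem left_mul_t (g : Gr) (n : ℤ) : (g * t ^ n).left = g.left := by
  rw [t_zpow, SemidirectProduct.mul_left, SemidirectProduct.left_inr, map_one, mul_one]

/-- `(tⁿ g).left = phiⁿ (g.left)`. -/
theorem left_t_mul (g : Gr) (n : ℤ) : (t ^ n * g).left = (phi ^ n) g.left := by
  rw [t_zpow, SemidirectProduct.mul_left, SemidirectProduct.left_inr, one_mul,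
    SemidirectProduct.right_inr, zpowersHom_apply, toAdd_ofAdd]

/-- `(g * inl w).left = g.left * phi ^ (height g) w`. -/
theorem left_mul_inl (g : Gr) (w : F3) :
    (g * (SemidirectProduct.inl w : Gr)).left
      = g.left * (phi ^ (Multiplicative.toAdd g.right)) w := by
  rw [SemidirectProduct.mul_left, SemidirectProduct.left_inl, zpowersHom_apply]

theorem at_comm : Commute a t := by
  have h1 : t * a = a * t := by
    have h2 := left_t_mul a 1
    rw [zpow_one] at h2
    refine SemidirectProduct.ext ?_ ?_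
    · rw [h2]
      have h3 := left_mul_t a 1
      rw [zpow_one] at h3
      rw [h3]
      exact phi_of0 1
    · rw [SemidirectProduct.mul_right, SemidirectProduct.mul_right, mul_comm]
  exact h1.symm

/-- `tⁿ b = b aⁿ tⁿ`. -/
theorem t_b (n : ℤ) : t ^ n * b = b * a ^ n * t ^ n := by
  refine SemidirectProduct.ext ?_ ?_
  · rw [left_t_mul, left_mul_t, a_zpow, left_mul_inl]
    have h1 : b.left = FreeGroup.of 1 := SemidirectProduct.left_inl _
    have h2 : b.right = 1 := SemidirectProduct.right_inl _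
    rw [h1, h2, phi_of1, toAdd_one, zpow_zero, MulAut.one_apply]
  · have h2 : b.right = 1 := SemidirectProduct.right_inl _
    rw [SemidirectProduct.mul_right, SemidirectProduct.mul_right, SemidirectProduct.mul_right,
      h2, a_zpow, SemidirectProduct.right_inl, mul_one, one_mul, one_mul]

/-- `tⁿ c = c a²ⁿ tⁿ`. -/
theorem t_c (n : ℤ) : t ^ n * c = c * a ^ (2 * n) * t ^ n := by
  refine SemidirectProduct.ext ?_ ?_
  · rw [left_t_mul, left_mul_t, a_zpow, left_mul_inl]
    have h1 : c.left = FreeGroup.of 2 := SemidirectProduct.left_inl _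
    have h2 : c.right = 1 := SemidirectProduct.right_inl _
    rw [h1, h2, phi_of2, toAdd_one, zpow_zero, MulAut.one_apply]
  · have h2 : c.right = 1 := SemidirectProduct.right_inl _
    rw [SemidirectProduct.mul_right, SemidirectProduct.mul_right, SemidirectProduct.mul_right,
      h2, a_zpow, SemidirectProduct.right_inl, mul_one, one_mul, one_mul]

/-- Every element is `inl w * tⁿ`. -/
theorem eq_inl_mul_t (g : Gr) :
    g = (SemidirectProduct.inl g.left : Gr) * t ^ (Multiplicative.toAdd g.right) := by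
  rw [t_zpow, ofAdd_toAdd]
  exact (SemidirectProduct.inl_left_mul_inr_right g).symm

theorem at_inj (i n : ℤ) (h : a ^ i * t ^ n = 1) : i = 0 ∧ n = 0 := by
  have h1 := congrArg SemidirectProduct.left h
  rw [left_mul_t, a_zpow, SemidirectProduct.left_inl, SemidirectProduct.one_left] at h1
  have h2 := congrArg SemidirectProduct.right h
  rw [SemidirectProduct.mul_right, a_zpow, SemidirectProduct.right_inl, t_zpow,
    SemidirectProduct.right_inr, SemidirectProduct.one_right, one_mul] at h2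
  refine ⟨?_, ?_⟩
  · let ψ : F3 →* Multiplicative ℤ := FreeGroup.lift (fun _ => Multiplicative.ofAdd (1 : ℤ))
    have h3 : ψ (FreeGroup.of 0 ^ i) = ψ 1 := congrArg ψ h1
    have h4 : ψ (FreeGroup.of 0) = Multiplicative.ofAdd (1 : ℤ) := FreeGroup.lift_apply_of
    rw [map_zpow ψ, map_one ψ, h4, ← ofAdd_zsmul, smul_eq_mul, mul_one] at h3
    exact ofAdd_eq_one.1 h3
  · exact ofAdd_eq_one.1 h2

/-- The standard letters generate. -/
theorem gen (g : Gr) : ∃ l : List Gr, (∀ x ∈ l, x ∈ Std) ∧ l.prod = g := by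
  have hone : ∃ l : List Gr, (∀ x ∈ l, x ∈ Std) ∧ l.prod = 1 := ⟨[], by simp, by simp⟩
  have hmul : ∀ x y : Gr, (∃ l : List Gr, (∀ x ∈ l, x ∈ Std) ∧ l.prod = x) →
      (∃ l : List Gr, (∀ x ∈ l, x ∈ Std) ∧ l.prod = y) →
      ∃ l : List Gr, (∀ x ∈ l, x ∈ Std) ∧ l.prod = x * y := by
    rintro x y ⟨l, h1, rfl⟩ ⟨l', h2, rfl⟩
    refine ⟨l ++ l', fun z hz => ?_, List.prod_append⟩
    rcases List.mem_append.1 hz with h | h
    · exact h1 z h
    · exact h2 z h
  have hstd : ∀ x ∈ Std, ∃ l : List Gr, (∀ x ∈ l, x ∈ Std) ∧ l.prod = x := by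
    intro x hx
    refine ⟨[x], fun z hz => ?_, by simp⟩
    rw [List.mem_singleton] at hz
    rw [hz]
    exact hx
  have hinl : ∀ w : F3, ∃ l : List Gr, (∀ x ∈ l, x ∈ Std) ∧
      l.prod = (SemidirectProduct.inl w : Gr) := by
    intro w
    refine FreeGroup.induction_on w ?_ ?_ ?_ ?_
    · rw [map_one]; exact hone
    · intro i
      fin_cases i
      · exact hstd a (by simp [Std])
      · exact hstd b (by simp [Std])
      · exact hstd c (by simp [Std])
    · intro i _
      rw [map_inv]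
      fin_cases i
      · exact hstd a⁻¹ (by simp [Std])
      · exact hstd b⁻¹ (by simp [Std])
      · exact hstd c⁻¹ (by simp [Std])
    · intro x y hx hy
      rw [map_mul]
      exact hmul _ _ hx hy
  have ht : ∀ n : ℤ, ∃ l : List Gr, (∀ x ∈ l, x ∈ Std) ∧ l.prod = t ^ n := by
    intro n
    induction n using Int.induction_on with
    | zero => rw [zpow_zero]; exact hone
    | succ n ih => rw [zpow_add_one]; exact hmul _ _ ih (hstd t (by simp [Std]))
    | pred n ih => rw [zpow_sub_one]; exact hmul _ _ ih (hstd t⁻¹ (by simp [Std]))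
  rw [eq_inl_mul_t g]
  exact hmul _ _ (hinl _) (ht _)

end Pool.Agent.H34.Ger
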