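import Pool.Agent.H34.Ger.GA

/-!
GB: the half space `H` (reduced word starts with `b = of 1`).
Closure: for `x ∈ H` the reduced word of `x.left` is `(1,true) :: l`; then
`(1,true) :: (0,±)^|i| ++ (1,true) :: l` is reduced, and it represents `of 1 * of 0 ^ i * x.left`
(`(b * a^i * x).left = of 1 * of 0 ^ i * x.left` because `b * a ^ i` has height 0).  Similarly with `c⁻¹`:
`(1,true) :: (0,±)^|i| ++ (2,false) :: (1,true) :: l` is reduced.
A possible way: prove for a word `L = x :: l` with `IsReduced L` and a letter `y` not inverse to `x`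
that `y :: L` is reduced and use induction on `|i|`.  (Mathlib: FreeGroup.IsReduced, toWord_mul,
reduce.cons, toWord_mk.)
-/

set_option autoImplicit false

namespace Pool.Agent.H34.Ger

theorem GB_cons (i : Fin 3) (s : Bool) (x : F3) (h : x.toWord.head? ≠ some (i, !s)) :
    (FreeGroup.mk [(i, s)] * x).toWord = (i, s) :: x.toWord := by
  have h1 : FreeGroup.mk [(i, s)] * x = FreeGroup.mk ((i, s) :: x.toWord) := by
    conv_lhs => rw [← FreeGroup.mk_toWord (x := x), FreeGroup.mul_mk]
    rfl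
  rw [h1, FreeGroup.toWord_mk]
  apply FreeGroup.IsReduced.reduce_eq
  have hr : FreeGroup.IsReduced x.toWord := FreeGroup.isReduced_toWord
  cases hL : x.toWord with
  | nil => exact FreeGroup.IsReduced.singleton
  | cons y L =>
    rw [hL] at hr h
    rw [FreeGroup.isReduced_cons_cons]
    refine ⟨?_, hr⟩
    intro hi
    by_contra hs
    apply h
    have h3 : y.2 = !s := by
      have h4 : s ≠ y.2 := hs
      revert h4
      cases s <;> cases y.2 <;> simp
    have h2 : y = (i, !s) := Prod.ext hi.symm h3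
    rw [List.head?_cons, h2]

theorem GB_of (i : Fin 3) (x : F3) (h : x.toWord.head? ≠ some (i, false)) :
    (FreeGroup.of i * x).toWord = (i, true) :: x.toWord := GB_cons i true x h

theorem GB_inv (i : Fin 3) (x : F3) (h : x.toWord.head? ≠ some (i, true)) :
    ((FreeGroup.of i)⁻¹ * x).toWord = (i, false) :: x.toWord := by
  have h1 : (FreeGroup.of i)⁻¹ = FreeGroup.mk [(i, false)] := by
    rw [FreeGroup.of, FreeGroup.inv_mk]
    rfl
  rw [h1]
  exact GB_cons i false x h

theorem GB_pow (x : F3) (hx : ∀ s, x.toWord.head? ≠ some (0, s)) (i : ℤ) :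
    i = 0 ∨ ∃ s, (FreeGroup.of 0 ^ i * x).toWord.head? = some (0, s) := by
  have hpos : ∀ n : ℕ, ((FreeGroup.of 0 : F3) ^ (n + 1) * x).toWord.head? = some (0, true) := by
    intro n
    induction n with
    | zero =>
      rw [zero_add, pow_one, GB_of 0 x (hx false)]
      rfl
    | succ n ih =>
      rw [pow_succ', mul_assoc, GB_of 0 _ (by rw [ih]; simp)]
      rfl
  have hneg : ∀ n : ℕ, (((FreeGroup.of 0 : F3)⁻¹) ^ (n + 1) * x).toWord.head? =
      some (0, false) := by
    intro n
    induction n with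
    | zero =>
      rw [zero_add, pow_one, GB_inv 0 x (hx true)]
      rfl
    | succ n ih =>
      rw [pow_succ', mul_assoc, GB_inv 0 _ (by rw [ih]; simp)]
      rfl
  rcases lt_trichotomy i 0 with h | h | h
  · right
    refine ⟨false, ?_⟩
    obtain ⟨n, hn⟩ : ∃ n : ℕ, i = -((n + 1 : ℕ) : ℤ) := ⟨(-i - 1).toNat, by omega⟩
    rw [hn, zpow_neg, zpow_natCast, ← inv_pow]
    exact hneg n
  · exact Or.inl h
  · right
    refine ⟨true, ?_⟩
    obtain ⟨n, hn⟩ : ∃ n : ℕ, i = ((n + 1 : ℕ) : ℤ) := ⟨(i - 1).toNat, by omega⟩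
    rw [hn, zpow_natCast]
    exact hpos n

theorem GB_b (x : F3) (hx : ∀ s, x.toWord.head? ≠ some (0, s))
    (hx1 : x.toWord.head? ≠ some (1, false)) (i : ℤ) :
    (FreeGroup.of 1 * (FreeGroup.of 0 ^ i * x)).toWord.head? = some (1, true) := by
  rw [GB_of]
  · rfl
  · rcases GB_pow x hx i with h | ⟨s, h⟩
    · rw [h, zpow_zero, one_mul]; exact hx1
    · rw [h]; simp

theorem GB_inl_mul (w : F3) (x : Gr) : ((SemidirectProduct.inl w : Gr) * x).left = w * x.left := by
  rw [SemidirectProduct.mul_left, SemidirectProduct.left_inl, SemidirectProduct.right_inl, map_one]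
  rfl

theorem GB_ba (i : ℤ) (x : Gr) : (b * a ^ i * x).left =
    FreeGroup.of 1 * (FreeGroup.of 0 ^ i * x.left) := by
  rw [a_zpow, b, ← map_mul, GB_inl_mul, mul_assoc]

theorem GB_bac (i : ℤ) (x : Gr) : (b * a ^ i * c⁻¹ * x).left =
    FreeGroup.of 1 * (FreeGroup.of 0 ^ i * ((FreeGroup.of 2)⁻¹ * x.left)) := by
  rw [a_zpow, b, c, ← map_inv, ← map_mul, ← map_mul, GB_inl_mul]
  simp only [mul_assoc]

theorem GB_c (x : F3) (h : x.toWord.head? ≠ some (2, true)) :
    ((FreeGroup.of 2)⁻¹ * x).toWord.head? = some (2, false) := by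
  rw [GB_inv 2 x h]; rfl

theorem GB_t_left (n : ℤ) : (t ^ n : Gr).left = 1 := by
  rw [t_zpow]; exact SemidirectProduct.left_inr _

theorem GB_one : (1 : F3).toWord.head? = none := by
  rw [FreeGroup.toWord_one]; rfl

theorem ba_mem (i : ℤ) (x : Gr) (hx : x ∈ H) : b * a ^ i * x ∈ H := by
  have h : x.left.toWord.head? = some (1, true) := hx
  show (b * a ^ i * x).left.toWord.head? = some (1, true)
  rw [GB_ba]
  apply GB_b
  · intro s; rw [h]; simp
  · rw [h]; simp

theorem bac_mem (i : ℤ) (x : Gr) (hx : x ∈ H) : b * a ^ i * c⁻¹ * x ∈ H := by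
  have h : x.left.toWord.head? = some (1, true) := hx
  show (b * a ^ i * c⁻¹ * x).left.toWord.head? = some (1, true)
  have h2 := GB_c x.left (by rw [h]; simp)
  rw [GB_bac]
  apply GB_b
  · intro s; rw [h2]; simp
  · rw [h2]; simp

theorem bat_mem (i n : ℤ) : b * a ^ i * t ^ n ∈ H := by
  show (b * a ^ i * t ^ n).left.toWord.head? = some (1, true)
  rw [GB_ba, GB_t_left]
  apply GB_b
  · intro s; rw [GB_one]; simp
  · rw [GB_one]; simp

theorem bact_mem (i n : ℤ) : b * a ^ i * c⁻¹ * t ^ n ∈ H := by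
  show (b * a ^ i * c⁻¹ * t ^ n).left.toWord.head? = some (1, true)
  have h2 := GB_c 1 (by rw [GB_one]; simp)
  rw [GB_bac, GB_t_left]
  apply GB_b
  · intro s; rw [h2]; simp
  · rw [h2]; simp

theorem at_not_mem (i n : ℤ) : a ^ i * t ^ n ∉ H := by
  intro h
  have h1 : (a ^ i * t ^ n).left.toWord.head? = some (1, true) := h
  rw [a_zpow, GB_inl_mul, GB_t_left] at h1
  rcases GB_pow 1 (by intro s; rw [GB_one]; simp) i with h2 | ⟨s, h2⟩
  · rw [h2, zpow_zero, one_mul, GB_one] at h1
    simp at h1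
  · rw [h2] at h1
    simp at h1

end Pool.Agent.H34.Ger
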