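import Pool.Agent.H34.Ger.CL

/-!
LP: a shortest accepted word does not stay long in a finite set.
Let `u = B.w g`, `s ≤ s' ≤ T g = u.length` and `E r g ∈ F` for all `r ∈ [s, s']`, `F` finite with `m` elements.
If `s' - s ≥ card σ * m`, the `s' - s + 1` indices `r ∈ [s,s']` give, by pigeonhole, `r < r'` with the same state
`M.eval (u.take r)` and the same value `val (u.take r)`.  Then `u.take r ++ u.drop r'` is accepted (`cut`), has
value `g` (`val (u.take r) = val (u.take r')`) and is shorter: contradiction with `B.w_min`.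
-/

set_option autoImplicit false

namespace Pool.Agent.H34.Ger.BA

variable {G : Type} [Group G] {α σ : Type} [Fintype α] [Fintype σ] (B : BA G α σ)

theorem loop (g : G) (F : Set G) (hF : F.Finite) (m : ℕ) (hm : F.ncard ≤ m) (s s' : ℕ)
    (hs' : s' ≤ B.T g) (h : ∀ r, s ≤ r → r ≤ s' → B.E r g ∈ F) :
    s' ≤ s + Fintype.card σ * m := by
  classical
  by_contra hlt
  push Not at hlt
  let S : Finset (σ × G) := Finset.univ ×ˢ hF.toFinset
  have hS : S.card ≤ Fintype.card σ * m := by
    rw [Finset.card_product, Finset.card_univ, ← Set.ncard_eq_toFinset_card F hF]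
    exact Nat.mul_le_mul_left _ hm
  have hI : (Finset.Icc s s').card = s' + 1 - s := Nat.card_Icc s s'
  obtain ⟨a, ha, b, hb, hab, he⟩ := Finset.exists_ne_map_eq_of_card_lt_of_maps_to
    (s := Finset.Icc s s') (t := S) (by rw [hI]; omega)
    (f := fun r => (B.M.eval ((B.w g).take r), B.E r g)) (by
      intro r hr
      rw [Finset.mem_coe, Finset.mem_Icc] at hr
      simp only [S, Finset.coe_product, Set.mem_prod, Finset.mem_coe, Finset.mem_univ, true_and]
      rw [Set.Finite.mem_toFinset]
      exact h r hr.1 hr.2)
  rw [Finset.mem_Icc] at ha hb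
  have key : ∀ a b : ℕ, a < b → b ≤ s' → (B.M.eval ((B.w g).take a), B.E a g) =
      (B.M.eval ((B.w g).take b), B.E b g) → False := by
    intro a b hab hb he
    rw [Prod.mk.injEq] at he
    obtain ⟨he1, he3⟩ := he
    have h1 := cut B.M (B.w g) (B.w_mem g) a b he1
    have h2 : B.val ((B.w g).take a ++ (B.w g).drop b) = g := by
      have e1 : B.val ((B.w g).take a ++ (B.w g).drop b) = B.E a g * B.val ((B.w g).drop b) := by
        simp [val, E]
      have e2 : B.val (B.w g) = B.E b g * B.val ((B.w g).drop b) := by
        conv_lhs => rw [← List.take_append_drop b (B.w g)]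
        simp [val, E]
      rw [e1, he3, ← e2, B.w_val]
    have h3 := B.w_min g _ h1 h2
    rw [List.length_append, List.length_take, List.length_drop] at h3
    have h4 : b ≤ (B.w g).length := hb.trans hs'
    omega
  rcases lt_or_gt_of_ne hab with hlt' | hlt'
  · exact key a b hlt' hb.2 he
  · exact key b a hlt' ha.2 he.symm

end Pool.Agent.H34.Ger.BA
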