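import Pool.Agent.H34.Ger.FT
import Pool.Agent.H34.Ger.LP

/-!
LEa: Lipschitz properties of the shortest accepted words.  Facts: `B.E r g = val ((B.w g).take r)`;
translates of balls `{z | N (y⁻¹ z) ≤ R}` are finite with the same number of elements as `{z | N z ≤ R}`
(image under `z ↦ y z`).
* `E_step`: for `r < T g`, `(B.w g).take (r+1) = (B.w g).take r ++ [x]`, so the quotient is `μ x`.
* `N_le_T`: `N_val_le` for `B.w g`.
* `E_lip`: `ft_right` for `w g`, `w (g x)` and `x`; if `N x = 0` then `x = 1` (`N_eq_zero`) and both sides are equal,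
  otherwise `k (N x + 1) ≤ 2 k N x`.
* `T_lip`: first `T (g * x) ≤ T g + K` for `N x ≤ 1`: if `T (g x) > T g`, then for `r ∈ [T g, T (g x)]` one has
  `E r g = g` (`E_top`), so `E r (g x)` lies in the ball of radius `2k` around `g`; `loop` with
  `K = card σ * (number of elements of the ball of radius 2k)`.  Then use a list for `x` (`N_spec`, induction on the
  list; each letter or inverse letter has norm at most 1).
-/

set_option autoImplicit false

namespace Pool.Agent.H34.Ger.BA

variable {G : Type} [Group G] {α σ : Type} [Fintype α] [Fintype σ] (B : BA G α σ)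

theorem LEa_val_nil : B.val [] = 1 := by simp [val]

theorem LEa_val_append (u v : List α) : B.val (u ++ v) = B.val u * B.val v := by
  simp [val]

theorem ball_card (y : G) (R : ℕ) : {z : G | B.N (y⁻¹ * z) ≤ R}.Finite ∧
    {z : G | B.N (y⁻¹ * z) ≤ R}.ncard = {z : G | B.N z ≤ R}.ncard := by
  have h : {z : G | B.N (y⁻¹ * z) ≤ R} = (fun z => y * z) '' {z : G | B.N z ≤ R} := by
    ext z
    simp only [Set.mem_image, Set.mem_ofPred_eq]
    constructor
    · intro hz
      exact ⟨y⁻¹ * z, hz, by group⟩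
    · rintro ⟨x, hx, rfl⟩
      rwa [inv_mul_cancel_left]
  rw [h]
  exact ⟨(B.N_fin R).image _, Set.ncard_image_of_injective _ (mul_right_injective y)⟩

theorem E_zero (g : G) : B.E 0 g = 1 := by
  simp [E, val]

theorem E_top (g : G) (r : ℕ) (h : B.T g ≤ r) : B.E r g = g := by
  unfold E
  rw [List.take_of_length_le h]
  exact B.w_val g

theorem E_step (r : ℕ) (g : G) : B.N ((B.E r g)⁻¹ * B.E (r + 1) g) ≤ 1 := by
  by_cases hr : r < B.T g
  · unfold E
    rw [← List.take_append_getElem (show r < (B.w g).length from hr), LEa_val_append,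
      inv_mul_cancel_left]
    exact B.N_val_le [_]
  · push Not at hr
    rw [B.E_top g r hr, B.E_top g (r + 1) (by omega), inv_mul_cancel, B.N_one]
    omega

theorem N_le_T (g : G) : B.N g ≤ B.T g := by
  have h := B.N_val_le (B.w g)
  rw [B.w_val] at h
  exact h

theorem E_lip (r : ℕ) (g x : G) : B.N ((B.E r g)⁻¹ * B.E r (g * x)) ≤ 2 * B.k * B.N x := by
  by_cases hx : B.N x = 0
  · have := B.N_eq_zero x hx
    subst this
    rw [mul_one, inv_mul_cancel, B.N_one]
    omega
  · have h := B.ft_right (B.w g) (B.w (g * x)) (B.w_mem g) (B.w_mem (g * x)) x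
      (by rw [B.w_val, B.w_val]) r
    have h1 : 1 ≤ B.N x := Nat.one_le_iff_ne_zero.2 hx
    have h2 : B.k * (B.N x + 1) ≤ 2 * B.k * B.N x := by nlinarith [Nat.zero_le B.k]
    exact h.trans h2

theorem LEa_T_step : ∃ K : ℕ, ∀ g x : G, B.N x ≤ 1 → B.T (g * x) ≤ B.T g + K := by
  refine ⟨Fintype.card σ * {z : G | B.N z ≤ 2 * B.k}.ncard, fun g x hx => ?_⟩
  by_cases h : B.T (g * x) ≤ B.T g
  · omega
  · push Not at h
    obtain ⟨hf, hc⟩ := B.ball_card g (2 * B.k)
    refine B.loop (g * x) {z : G | B.N (g⁻¹ * z) ≤ 2 * B.k} hf _ hc.le (B.T g) (B.T (g * x)) le_rfl ?_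
    intro r hr _
    have h1 := B.E_lip r g x
    rw [B.E_top g r hr] at h1
    have h2 : 2 * B.k * B.N x ≤ 2 * B.k * 1 := Nat.mul_le_mul_left _ hx
    rw [mul_one] at h2
    exact h1.trans h2

theorem T_lip : ∃ K : ℕ, ∀ g x : G, B.T (g * x) ≤ B.T g + K * B.N x := by
  obtain ⟨K, hK⟩ := B.LEa_T_step
  refine ⟨K, fun g x => ?_⟩
  have key : ∀ (l : List (α × Bool)) (g : G), B.T (g * B.sval l) ≤ B.T g + K * l.length := by
    intro l
    induction l with
    | nil =>
      intro g
      have h1 : B.sval [] = 1 := by simp [sval]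
      rw [h1, mul_one]
      omega
    | cons p l ih =>
      intro g
      have h1 : B.sval (p :: l) = B.sval [p] * B.sval l := B.sval_append [p] l
      have h2 : B.N (B.sval [p]) ≤ 1 := B.N_le [p]
      have h3 := hK g (B.sval [p]) h2
      have h4 := ih (g * B.sval [p])
      rw [h1, ← mul_assoc, List.length_cons, mul_add, mul_one]
      omega
  obtain ⟨l, hl, hx⟩ := B.N_spec x
  have := key l g
  rw [hx, hl] at this
  exact this

end Pool.Agent.H34.Ger.BA
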