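import Pool.Agent.H34.Ger.LEa

/-!
LEb: prefixes of shortest accepted words.
`y = E s g`, `c` a completion of `(w g).take s` (`compl_right`, `|c| ≤ card σ`), `u' = (w g).take s ++ c`, accepted,
`val u' = y * val c`.  `ft_right` for `w y`, `u'`, `x = val c` (`N (val c) ≤ card σ`, `N_val_le`):
`N ((E r y)⁻¹ * val (u'.take r)) ≤ k (card σ + 1)` for all `r`, and for `r ≤ s ≤ T g`: `u'.take r = (w g).take r`.
This is `E_E`.
`T_E`, first part: `T (y * val c) ≤ |u'| ≤ s + card σ` (`w_min`), and `T_lip` for `y = (y val c) (val c)⁻¹`.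
Second part: if `T y < s`, then for `r ∈ [T y, s]`: `E r y = y` (`E_top`), so `E r g` is in the ball of radius
`k (card σ + 1)` around `y`; `loop` (with `s' = s ≤ T g`) gives `s ≤ T y + card σ * ncard(ball)` (`ball_card`).
-/

set_option autoImplicit false

namespace Pool.Agent.H34.Ger.BA

variable {G : Type} [Group G] {α σ : Type} [Fintype α] [Fintype σ] (B : BA G α σ)

private theorem LEb_core (g : G) (s : ℕ) (hs : s ≤ B.T g) :
    ∃ c : List α, c.length ≤ Fintype.card σ ∧ (B.w g).take s ++ c ∈ B.M.accepts ∧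
      B.val ((B.w g).take s ++ c) = B.E s g * B.val c ∧
      ∀ r, r ≤ s → B.N ((B.E r (B.E s g))⁻¹ * B.E r g) ≤ B.k * (Fintype.card σ + 1) := by
  obtain ⟨c, hc, hacc⟩ := compl_right B.M (B.w g) (B.w_mem g) s
  have hval : B.val ((B.w g).take s ++ c) = B.E s g * B.val c := by
    unfold E val
    rw [List.map_append, List.prod_append]
  refine ⟨c, hc, hacc, hval, fun r hr => ?_⟩
  have h1 := B.ft_right (B.w (B.E s g)) ((B.w g).take s ++ c) (B.w_mem _) hacc (B.val c)
    (by rw [B.w_val, hval]) r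
  have hlen : ((B.w g).take s).length = s := by
    rw [List.length_take]
    exact min_eq_left hs
  have h2 : ((B.w g).take s ++ c).take r = (B.w g).take r := by
    rw [List.take_append_of_le_length (by rw [hlen]; exact hr), List.take_take, min_eq_left hr]
  rw [h2] at h1
  refine le_trans h1 (Nat.mul_le_mul_left _ ?_)
  exact Nat.add_le_add_right ((B.N_val_le c).trans hc) 1

theorem E_E : ∃ K : ℕ, ∀ (g : G) (r s : ℕ), r ≤ s → s ≤ B.T g →
    B.N ((B.E r (B.E s g))⁻¹ * B.E r g) ≤ K := by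
  refine ⟨B.k * (Fintype.card σ + 1), fun g r s hr hs => ?_⟩
  obtain ⟨c, _, _, _, h⟩ := LEb_core B g s hs
  exact h r hr

theorem T_E : ∃ K : ℕ, ∀ (g : G) (s : ℕ), s ≤ B.T g → B.T (B.E s g) ≤ s + K ∧ s ≤ B.T (B.E s g) + K := by
  obtain ⟨K1, hK1⟩ := B.T_lip
  set R := B.k * (Fintype.card σ + 1) with hR
  set m := {z : G | B.N z ≤ R}.ncard with hm
  refine ⟨(Fintype.card σ + K1 * Fintype.card σ) + Fintype.card σ * m, fun g s hs => ?_⟩
  obtain ⟨c, hc, hacc, hval, h⟩ := LEb_core B g s hs
  have hNc : B.N (B.val c) ≤ Fintype.card σ := (B.N_val_le c).trans hc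
  constructor
  · have h1 : B.T (B.E s g * B.val c) ≤ ((B.w g).take s ++ c).length :=
      B.w_min _ _ hacc hval
    have h2 : ((B.w g).take s ++ c).length ≤ s + Fintype.card σ := by
      rw [List.length_append, List.length_take]
      have : min s (B.w g).length ≤ s := min_le_left _ _
      omega
    have h3 := hK1 (B.E s g * B.val c) (B.val c)⁻¹
    rw [mul_inv_cancel_right, B.N_inv] at h3
    have h4 : K1 * B.N (B.val c) ≤ K1 * Fintype.card σ := Nat.mul_le_mul_left _ hNc
    omega
  · obtain ⟨hfin, hcard⟩ := B.ball_card (B.E s g) R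
    have h1 := B.loop g {z : G | B.N ((B.E s g)⁻¹ * z) ≤ R} hfin m hcard.le
      (B.T (B.E s g)) s hs (by
        intro r hr1 hr2
        have h2 := h r hr2
        rw [B.E_top _ _ hr1] at h2
        exact h2)
    omega

end Pool.Agent.H34.Ger.BA
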