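import Pool.Agent.H34.Ger.UD

/-!
NDb: the paths to `x₂ = a^(2D) t^D = (a²t)^D` and `x₁ = a^(2D) t^(2D) = (at)^(2D)` diverge linearly.
`x₁` commutes with `a` and `b⁻¹ a b` (`at_commute_bab`), `x₂` commutes with `a` and `c⁻¹ a c` (`aat_commute_cac` with
`j = D`).  `QC a (b⁻¹ab) 0` and `QC a (c⁻¹ac) 0` with `y = 1`, `s₁ = 0` (`E_zero`): `E r x₁` is within `C₄` of an element
commuting with `a`, `b⁻¹ab`, i.e. (`commute_a`, `commute_bab`) of `a^j₁ t^j₁`, and `E r x₂` within `C₄` of `a^(2 j₂) t^j₂`.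
`r ≤ T (E r x₂) + K ≤ T (a^(2j₂) t^j₂) + K C₄ + K ≤ T 1 + K (|2 j₂| N a + |j₂| N t) + K C₄ + K ≤ C₅ |j₂| + C₅`
(`T_E_ge`, `T_lip`, `N_zpow_le`).
`(a^(2j₂) t^j₂)⁻¹ (a^j₁ t^j₁) = a^(j₁ - 2 j₂) t^(j₁ - j₂)` and `|j₁ - 2 j₂| + |j₁ - j₂| ≥ |j₂|`, so (`undist`)
`|j₂| ≤ C₁ d + C₁` with `d = N` of this element `≤ d (E r x₂) (E r x₁) + 2 C₄` (`d_tri`).
-/

set_option autoImplicit false

namespace Pool.Agent.H34.Ger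

theorem NDb_pow (𝒞 : Combing Gr) (g : Gr) (n : ℕ) : 𝒞.N (g ^ n) ≤ n * 𝒞.N g := by
  induction n with
  | zero => rw [pow_zero, 𝒞.N_one]; exact Nat.zero_le _
  | succ n ih =>
    rw [pow_succ]
    have h := 𝒞.N_mul (g ^ n) g
    calc 𝒞.N (g ^ n * g) ≤ 𝒞.N (g ^ n) + 𝒞.N g := h
      _ ≤ n * 𝒞.N g + 𝒞.N g := Nat.add_le_add_right ih _
      _ = (n + 1) * 𝒞.N g := by ring

theorem N_zpow_le (𝒞 : Combing Gr) (g : Gr) (j : ℤ) : (𝒞.N (g ^ j) : ℤ) ≤ |j| * 𝒞.N g := by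
  obtain ⟨n, rfl | rfl⟩ := j.eq_nat_or_neg
  · rw [zpow_natCast, Nat.abs_cast]
    exact_mod_cast NDb_pow 𝒞 g n
  · rw [zpow_neg, 𝒞.N_inv, zpow_natCast, abs_neg, Nat.abs_cast]
    exact_mod_cast NDb_pow 𝒞 g n

/-- the elements of the flat commute with `a` -/
theorem NDb_comm (i n : ℤ) : Commute (a ^ i * t ^ n) a :=
  ((Commute.refl a).zpow_left i).mul_left (at_comm.symm.zpow_left n)

theorem NDb_inv_mul (i n i' n' : ℤ) :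
    (a ^ i * t ^ n)⁻¹ * (a ^ i' * t ^ n') = a ^ (i' - i) * t ^ (n' - n) := by
  have h1 : Commute (a ^ (i' - i)) (t ^ (-n)) := at_comm.zpow_zpow _ _
  calc (a ^ i * t ^ n)⁻¹ * (a ^ i' * t ^ n')
      = t ^ (-n) * a ^ (i' - i) * t ^ n' := by
        rw [mul_inv_rev, ← zpow_neg, ← zpow_neg, mul_assoc, ← mul_assoc (a ^ (-i)), ← zpow_add,
          ← mul_assoc]
        congr 3
        ring
    _ = a ^ (i' - i) * t ^ (-n) * t ^ n' := by rw [h1.eq]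
    _ = a ^ (i' - i) * t ^ (n' - n) := by
        rw [mul_assoc, ← zpow_add]
        congr 2
        ring

theorem line_dist (𝒞 : Combing Gr) : ∃ C : ℕ, 0 < C ∧ ∀ (r D : ℕ),
    r ≤ 𝒞.T (a ^ (2 * (D : ℤ)) * t ^ (D : ℤ)) →
    r ≤ C * 𝒞.d (𝒞.E r (a ^ (2 * (D : ℤ)) * t ^ (D : ℤ)))
      (𝒞.E r (a ^ (2 * (D : ℤ)) * t ^ (2 * (D : ℤ)))) + C := by
  obtain ⟨K1, hK1⟩ := 𝒞.QC a (b⁻¹ * a * b) 0
  obtain ⟨K2, hK2⟩ := 𝒞.QC a (c⁻¹ * a * c) 0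
  obtain ⟨C1, hC1⟩ := undist 𝒞
  set A : ℕ := 𝒞.K * (2 * 𝒞.N a + 𝒞.N t) with hA
  set B : ℕ := 𝒞.T 1 + 𝒞.K * K2 + 𝒞.K with hB
  refine ⟨A * C1 + A * C1 * (K1 + K2) + A * C1 + B + 1, Nat.succ_pos _, ?_⟩
  intro r D hr
  set x₂ : Gr := a ^ (2 * (D : ℤ)) * t ^ (D : ℤ) with hx₂
  set x₁ : Gr := a ^ (2 * (D : ℤ)) * t ^ (2 * (D : ℤ)) with hx₁
  have hN0 : ∀ g : Gr, 𝒞.N ((1 : Gr)⁻¹ * 𝒞.E 0 g) ≤ 0 := by
    intro g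
    rw [𝒞.E_zero, inv_one, one_mul, 𝒞.N_one]
  obtain ⟨X1, hX1a, hX1b, hX1N⟩ := hK1 x₁ 1 0 (Nat.zero_le _) (hN0 x₁)
    (by rw [inv_one, one_mul]; exact NDb_comm _ _)
    (by rw [inv_one, one_mul]; exact at_commute_bab (2 * (D : ℤ))) r (Nat.zero_le _)
  obtain ⟨X2, hX2a, hX2b, hX2N⟩ := hK2 x₂ 1 0 (Nat.zero_le _) (hN0 x₂)
    (by rw [inv_one, one_mul]; exact NDb_comm _ _)
    (by rw [inv_one, one_mul]; exact aat_commute_cac (D : ℤ)) r (Nat.zero_le _)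
  rw [one_mul] at hX1N hX2N
  obtain ⟨i1, j1, rfl⟩ := commute_a X1 hX1a
  obtain ⟨i2, j2, rfl⟩ := commute_a X2 hX2a
  have e1 : i1 = j1 := commute_bab _ _ hX1b
  have e2 : i2 = 2 * j2 := commute_cac _ _ hX2b
  subst e1
  subst e2
  set X1 : Gr := a ^ i1 * t ^ i1 with hX1
  set X2 : Gr := a ^ (2 * j2) * t ^ j2 with hX2
  -- the length of `X2`
  have h1 : r ≤ 𝒞.T (𝒞.E r x₂) + 𝒞.K := 𝒞.T_E_ge x₂ r hr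
  have h2 : 𝒞.T (𝒞.E r x₂) ≤ 𝒞.T X2 + 𝒞.K * K2 := by
    have h3 := 𝒞.T_lip X2 (X2⁻¹ * 𝒞.E r x₂)
    rw [mul_inv_cancel_left] at h3
    exact h3.trans (Nat.add_le_add_left (Nat.mul_le_mul_left _ hX2N) _)
  have h4 : 𝒞.T X2 ≤ 𝒞.T 1 + 𝒞.K * 𝒞.N X2 := by
    have h5 := 𝒞.T_lip 1 X2
    rwa [one_mul] at h5
  have h6 : (𝒞.N X2 : ℤ) ≤ |j2| * (2 * 𝒞.N a + 𝒞.N t) := by
    have h7 := 𝒞.N_mul (a ^ (2 * j2)) (t ^ j2)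
    have h8 := N_zpow_le 𝒞 a (2 * j2)
    have h9 := N_zpow_le 𝒞 t j2
    have h10 : |2 * j2| = 2 * |j2| := by rw [abs_mul]; norm_num
    rw [h10] at h8
    have h7' : (𝒞.N X2 : ℤ) ≤ 𝒞.N (a ^ (2 * j2)) + 𝒞.N (t ^ j2) := by exact_mod_cast h7
    linarith
  -- the distance of `X2` and `X1`
  have hd : 𝒞.N (X2⁻¹ * X1) ≤ K2 + 𝒞.d (𝒞.E r x₂) (𝒞.E r x₁) + K1 := by
    have h11 := 𝒞.d_tri X2 (𝒞.E r x₂) X1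
    have h12 := 𝒞.d_tri (𝒞.E r x₂) (𝒞.E r x₁) X1
    have h13 : 𝒞.d (𝒞.E r x₁) X1 ≤ K1 := by rw [𝒞.d_comm]; exact hX1N
    have h14 : 𝒞.d X2 (𝒞.E r x₂) ≤ K2 := hX2N
    have h15 : 𝒞.d X2 X1 = 𝒞.N (X2⁻¹ * X1) := rfl
    omega
  have h16 : X2⁻¹ * X1 = a ^ (i1 - 2 * j2) * t ^ (i1 - j2) := NDb_inv_mul _ _ _ _
  have h17 := hC1 (i1 - 2 * j2) (i1 - j2)
  rw [← h16] at h17
  have h18 : |j2| ≤ |i1 - 2 * j2| + |i1 - j2| := by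
    have h19 : j2 = (i1 - j2) - (i1 - 2 * j2) := by ring
    calc |j2| = |(i1 - j2) - (i1 - 2 * j2)| := by rw [← h19]
      _ ≤ |i1 - j2| + |i1 - 2 * j2| := abs_sub _ _
      _ = _ := by ring
  set dd : ℕ := 𝒞.d (𝒞.E r x₂) (𝒞.E r x₁) with hdd
  have h20 : |j2| ≤ (C1 : ℤ) * (K2 + dd + K1) + C1 := by
    have h21 : (𝒞.N (X2⁻¹ * X1) : ℤ) ≤ K2 + dd + K1 := by exact_mod_cast hd
    have h22 : (C1 : ℤ) * 𝒞.N (X2⁻¹ * X1) ≤ C1 * (K2 + dd + K1) :=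
      mul_le_mul_of_nonneg_left h21 (Int.natCast_nonneg _)
    linarith
  have h23 : (r : ℤ) ≤ A * |j2| + B := by
    have h24 : (r : ℤ) ≤ 𝒞.T 1 + 𝒞.K * 𝒞.N X2 + 𝒞.K * K2 + 𝒞.K := by
      have : r ≤ 𝒞.T 1 + 𝒞.K * 𝒞.N X2 + 𝒞.K * K2 + 𝒞.K := by omega
      exact_mod_cast this
    have h25 : (𝒞.K : ℤ) * 𝒞.N X2 ≤ 𝒞.K * (|j2| * (2 * 𝒞.N a + 𝒞.N t)) :=
      mul_le_mul_of_nonneg_left h6 (Int.natCast_nonneg _)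
    have h26 : ((A : ℕ) : ℤ) = 𝒞.K * (2 * 𝒞.N a + 𝒞.N t) := by rw [hA]; push_cast; ring
    have h27 : ((B : ℕ) : ℤ) = 𝒞.T 1 + 𝒞.K * K2 + 𝒞.K := by rw [hB]; push_cast; ring
    rw [h26, h27]
    linarith
  have h28 : (A : ℤ) * |j2| ≤ A * (C1 * (K2 + dd + K1) + C1) :=
    mul_le_mul_of_nonneg_left h20 (Int.natCast_nonneg _)
  have h29 : (r : ℤ) ≤ ((A * C1 + A * C1 * (K1 + K2) + A * C1 + B + 1 : ℕ) : ℤ) * dd +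
      ((A * C1 + A * C1 * (K1 + K2) + A * C1 + B + 1 : ℕ) : ℤ) := by
    push_cast
    have h30 : (0 : ℤ) ≤ (A : ℤ) * C1 := by positivity
    have h31 : (0 : ℤ) ≤ (A : ℤ) * C1 * (K1 + K2) * dd := by positivity
    have h32 : (0 : ℤ) ≤ ((A : ℤ) * C1 + B + 1) * dd := by positivity
    nlinarith
  exact_mod_cast h29

end Pool.Agent.H34.Ger
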