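import Pool.Agent.H34.Ger.NDa
import Pool.Agent.H34.Ger.NDb

/-!
ND: nondegeneracy.  `C₁, D₁` from `adm_base`, `C₂` from `line_dist`; for `D` large put `r = D / C₁`, `h = a^(2D)`, `n = D`:
`h t^n = a^(2D) t^D`, `h t^(n+D) = a^(2D) t^(2D)`; `r ≤ T (h t^n)` by admissibility; `line_dist` gives
`r ≤ C₂ d + C₂`, so `d ≥ (D / C₁ - 1 - C₂) / C₂ ≥ c₀ D` with `c₀ = 1 / (2 C₁ C₂)` and `D` large.
-/

set_option autoImplicit false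

namespace Pool.Agent.H34.Ger

theorem nondeg (𝒞 : Combing Gr) : ∃ c₀ : ℝ, 0 < c₀ ∧ ∃ D₀ : ℕ, ∀ D : ℕ, D₀ ≤ D →
    ∃ (r : ℕ) (h : Gr) (n : ℤ), Adm 𝒞 r h ∧
      c₀ * D ≤ 𝒞.d (𝒞.E r (h * t ^ n)) (𝒞.E r (h * t ^ (n + D))) := by
  obtain ⟨C₁, hC₁, D₁, hD₁⟩ := adm_base 𝒞
  obtain ⟨C₂, hC₂, h₂⟩ := line_dist 𝒞
  have hc1 : (0 : ℝ) < C₁ := by exact_mod_cast hC₁
  have hc2 : (0 : ℝ) < C₂ := by exact_mod_cast hC₂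
  refine ⟨1 / (2 * (C₁ * C₂)), by positivity, D₁ + 2 * C₁ * (C₂ + 1), ?_⟩
  intro D hD
  have hA := hD₁ D (by omega)
  refine ⟨D / C₁, a ^ (2 * (D : ℤ)), D, hA, ?_⟩
  have h3 := h₂ (D / C₁) D (hA.2.2 D)
  have h4 : (D : ℤ) + D = 2 * D := by ring
  rw [h4]
  set d := 𝒞.d (𝒞.E (D / C₁) (a ^ (2 * (D : ℤ)) * t ^ (D : ℤ)))
      (𝒞.E (D / C₁) (a ^ (2 * (D : ℤ)) * t ^ (2 * (D : ℤ)))) with hd
  have h5 : D < C₁ * (D / C₁ + 1) := by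
    rw [mul_comm]
    exact Nat.lt_mul_of_div_lt (Nat.lt_succ_self _) hC₁
  have h6 : D ≤ C₁ * (C₂ * d + C₂ + 1) :=
    h5.le.trans (Nat.mul_le_mul_left _ (by omega))
  have h7 : (D : ℝ) ≤ C₁ * (C₂ * d + C₂ + 1) := by exact_mod_cast h6
  have h8 : (2 * C₁ * (C₂ + 1) : ℝ) ≤ D := by
    have : 2 * C₁ * (C₂ + 1) ≤ D := by omega
    exact_mod_cast this
  rw [div_mul_eq_mul_div, one_mul, div_le_iff₀ (by positivity)]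
  nlinarith

end Pool.Agent.H34.Ger
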