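import Pool.Agent.H34.Ger.UD
import Pool.Agent.H34.Ger.CR
import Pool.Agent.H34.Ger.AD

/-!
NDa: `a^(2D)` is admissible for `r = D / C` (natural division) when `D` is large.
`undist` gives `C₁`: `|i| + |n| ≤ C₁ N (aⁱ tⁿ) + C₁`; `N ≤ T` (`N_le_T`).  So for all `n`:
`C₁ T (a^(2D) t^n) + C₁ ≥ 2D`.  For `x ∈ H`, `z = a^(2D) x`: `(a^(2D))⁻¹ = a^(-2D) t^0 ∉ H` (`at_not_mem`), `cross` gives
`s₁ ≤ T z` and `m` with `d (a^(2D) t^m) (E s₁ z) ≤ C₂`, so `T z ≥ s₁ ≥ T (E s₁ z) - K ≥ T (a^(2D) t^m) - K C₂ - K`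
(`T_E_le`: `T (E s₁ z) ≤ s₁ + K`; `T_lip` applied to `a^(2D) t^m = E s₁ z * x'`, `N x' = d ≤ C₂`, `N_inv`/`d_comm`).
So `C = C₁ + 1`, for instance, and `D₀` large (also `T 1 < D / C`).
-/

set_option autoImplicit false

namespace Pool.Agent.H34.Ger

theorem adm_base (𝒞 : Combing Gr) : ∃ C : ℕ, 0 < C ∧ ∃ D₀ : ℕ, ∀ D : ℕ, D₀ ≤ D →
    Adm 𝒞 (D / C) (a ^ (2 * (D : ℤ))) := by
  obtain ⟨C₁, hC₁⟩ := undist 𝒞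
  obtain ⟨C₂, hC₂⟩ := cross 𝒞
  refine ⟨C₁ + 1, Nat.succ_pos _, (C₁ + 1) * (𝒞.T 1 + 2 + 𝒞.K * C₂ + 𝒞.K), ?_⟩
  intro D hD
  obtain ⟨r, hr⟩ : ∃ r, r = D / (C₁ + 1) := ⟨_, rfl⟩
  rw [← hr]
  have hr1 : 𝒞.T 1 + 2 + 𝒞.K * C₂ + 𝒞.K ≤ r := by
    rw [hr, Nat.le_div_iff_mul_le (Nat.succ_pos _), mul_comm]
    exact hD
  have hr2 : (C₁ + 1) * r ≤ D := by
    rw [hr]
    exact Nat.mul_div_le D (C₁ + 1)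
  have hline : ∀ n : ℤ, 2 * r ≤ 𝒞.T (a ^ (2 * (D : ℤ)) * t ^ n) + 1 := by
    intro n
    have h1 := hC₁ (2 * (D : ℤ)) n
    have h2 : 𝒞.N (a ^ (2 * (D : ℤ)) * t ^ n) ≤ 𝒞.T (a ^ (2 * (D : ℤ)) * t ^ n) := 𝒞.N_le_T _
    have h3 : |2 * (D : ℤ)| = 2 * (D : ℤ) := abs_of_nonneg (by positivity)
    rw [h3] at h1
    have h4 : (0 : ℤ) ≤ |n| := abs_nonneg n
    have h5 : (2 * D : ℤ) ≤ (C₁ : ℤ) * 𝒞.N (a ^ (2 * (D : ℤ)) * t ^ n) + C₁ := by linarith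
    have h6 : 2 * D ≤ C₁ * 𝒞.N (a ^ (2 * (D : ℤ)) * t ^ n) + C₁ := by exact_mod_cast h5
    have h7 : C₁ * 𝒞.N (a ^ (2 * (D : ℤ)) * t ^ n) ≤ C₁ * 𝒞.T (a ^ (2 * (D : ℤ)) * t ^ n) :=
      Nat.mul_le_mul_left _ h2
    have h8 : (C₁ + 1) * (2 * r) ≤ (C₁ + 1) * (𝒞.T (a ^ (2 * (D : ℤ)) * t ^ n) + 1) := by
      nlinarith
    exact Nat.le_of_mul_le_mul_left h8 (Nat.succ_pos _)
  refine ⟨by omega, ?_, fun n => ?_⟩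
  · intro x hx
    have hinv : (a ^ (2 * (D : ℤ)))⁻¹ ∉ H := by
      have h1 := at_not_mem (-(2 * (D : ℤ))) 0
      rwa [zpow_zero, mul_one, zpow_neg] at h1
    obtain ⟨s₁, hs₁, m, hm⟩ := hC₂ (a ^ (2 * (D : ℤ))) x hinv hx
    have h1 := 𝒞.T_E_le (a ^ (2 * (D : ℤ)) * x) s₁ hs₁
    have h2 := 𝒞.T_lip (𝒞.E s₁ (a ^ (2 * (D : ℤ)) * x))
      ((𝒞.E s₁ (a ^ (2 * (D : ℤ)) * x))⁻¹ * (a ^ (2 * (D : ℤ)) * t ^ m))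
    rw [mul_inv_cancel_left] at h2
    rw [𝒞.d_comm] at hm
    unfold Combing.d at hm
    have h3 := Nat.mul_le_mul_left 𝒞.K hm
    have h4 := hline m
    omega
  · have h1 := hline n
    omega

end Pool.Agent.H34.Ger
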