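import Pool.Agent.H34.Ger.Defs

/-!
NN: the word norm `B.N`.  `B.sval` of an append is the product, `B.sval` of the reversed list with flipped
signs is the inverse; every element is `B.sval l` for some `l` (take `l = u.map (·, true)`, `u` accepted,
`B.surj`).  Balls are finite: `{g | N g ≤ R}` is contained in the image of the finite set of lists of
length `≤ R` over the finite type `α × Bool` (`List.finite_length_le`).
-/

set_option autoImplicit false

namespace Pool.Agent.H34.Ger.BA

variable {G : Type} [Group G] {α σ : Type} [Fintype α] [Fintype σ] (B : BA G α σ)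

theorem sval_append (l₁ l₂ : List (α × Bool)) : B.sval (l₁ ++ l₂) = B.sval l₁ * B.sval l₂ := by
  simp only [sval, List.map_append, List.prod_append]

theorem NN_sval_pos (u : List α) : B.sval (u.map fun x => (x, true)) = B.val u := by
  unfold sval val
  rw [List.map_map]
  congr 1

theorem NN_sval_inv (l : List (α × Bool)) :
    B.sval (l.reverse.map fun p => (p.1, !p.2)) = (B.sval l)⁻¹ := by
  induction l with
  | nil => simp [sval]
  | cons p l ih =>
    rw [List.reverse_cons, List.map_append, sval_append, ih]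
    have h1 : B.sval (p :: l) = (if p.2 then B.μ p.1 else (B.μ p.1)⁻¹) * B.sval l := by
      simp only [sval, List.map_cons, List.prod_cons]
    rw [h1, mul_inv_rev]
    congr 1
    obtain ⟨x, s⟩ := p
    cases s <;> simp [sval]

theorem sval_exists (g : G) : ∃ l : List (α × Bool), B.sval l = g := by
  obtain ⟨u, _, hu⟩ := B.surj g
  exact ⟨u.map fun x => (x, true), (B.NN_sval_pos u).trans hu⟩

theorem N_spec (g : G) : ∃ l : List (α × Bool), l.length = B.N g ∧ B.sval l = g := by
  obtain ⟨l, hl⟩ := B.sval_exists g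
  have hne : {n | ∃ l : List (α × Bool), l.length = n ∧ B.sval l = g}.Nonempty :=
    ⟨l.length, l, rfl, hl⟩
  exact Nat.sInf_mem hne

theorem N_le (l : List (α × Bool)) : B.N (B.sval l) ≤ l.length :=
  Nat.sInf_le ⟨l, rfl, rfl⟩

theorem N_val_le (u : List α) : B.N (B.val u) ≤ u.length := by
  have h := B.N_le (u.map fun x => (x, true))
  rwa [NN_sval_pos, List.length_map] at h

theorem N_one : B.N (1 : G) = 0 := by
  have h := B.N_le []
  have h1 : B.sval [] = 1 := by simp [sval]
  rw [h1] at h
  simpa using h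

theorem N_mul (x y : G) : B.N (x * y) ≤ B.N x + B.N y := by
  obtain ⟨l₁, h1, h2⟩ := B.N_spec x
  obtain ⟨l₂, h3, h4⟩ := B.N_spec y
  have h := B.N_le (l₁ ++ l₂)
  rwa [sval_append, h2, h4, List.length_append, h1, h3] at h

theorem NN_inv_le (x : G) : B.N x⁻¹ ≤ B.N x := by
  obtain ⟨l, h1, h2⟩ := B.N_spec x
  have h := B.N_le (l.reverse.map fun p => (p.1, !p.2))
  rwa [NN_sval_inv, h2, List.length_map, List.length_reverse, h1] at h

theorem N_inv (x : G) : B.N x⁻¹ = B.N x := by
  refine le_antisymm (B.NN_inv_le x) ?_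
  have h := B.NN_inv_le x⁻¹
  rwa [inv_inv] at h

theorem N_fin (R : ℕ) : {x : G | B.N x ≤ R}.Finite := by
  refine ((List.finite_length_le (α × Bool) R).image B.sval).subset ?_
  intro x hx
  obtain ⟨l, h1, h2⟩ := B.N_spec x
  exact ⟨l, h1.trans_le hx, h2⟩

theorem N_eq_zero (x : G) (h : B.N x = 0) : x = 1 := by
  obtain ⟨l, h1, h2⟩ := B.N_spec x
  rw [h, List.length_eq_zero_iff] at h1
  rw [← h2, h1]
  simp [sval]

end Pool.Agent.H34.Ger.BA
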