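import Pool.Agent.H34.Ger.FT

/-!
QA: paths to elements of a centralizer stay close to the centralizer.
(1) `conj_bound`: `u` accepted, `val u` commutes with `z`: take an accepted `v` with `val v = z * val u = val u * z`
(`B.surj`); `ft_right` (x = z) and `ft_left` (x = z) give
`N (u(t)⁻¹ v(t)) ≤ k (N z + 1)`, `N ((z u(t))⁻¹ v(t)) ≤ k (N z + 1)`, and
`u(t)⁻¹ z u(t) = (u(t)⁻¹ v(t)) * ((z u(t))⁻¹ v(t))⁻¹`.
(2) `near_centralizer`: finitely many pairs `(p, q)` in the ball of radius `R₀ = 2k (max N z₁, N z₂ + 1)`; for each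
pair for which there is `x` with `x⁻¹ z₁ x = p`, `x⁻¹ z₂ x = q` choose one such `x_pq`; `R` = maximum of the
`N (x_pq)` over this finite set.  For `u` accepted with `val u` commuting with `z₁, z₂` and any `t` put
`p = u(t)⁻¹ z₁ u(t)`, `q = u(t)⁻¹ z₂ u(t)`, `y = u(t) x_pq⁻¹`: it commutes with `z₁, z₂` and `y⁻¹ u(t) = x_pq`.
-/

set_option autoImplicit false

namespace Pool.Agent.H34.Ger.BA

variable {G : Type} [Group G] {α σ : Type} [Fintype α] [Fintype σ] (B : BA G α σ)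

theorem conj_bound (u : List α) (hu : u ∈ B.M.accepts) (z : G) (hz : Commute (B.val u) z) (t : ℕ) :
    B.N ((B.val (u.take t))⁻¹ * z * B.val (u.take t)) ≤ 2 * (B.k * (B.N z + 1)) := by
  obtain ⟨v, hv, hv'⟩ := B.surj (B.val u * z)
  have hv2 : B.val v = B.val u * z := hv'
  have h1 := B.ft_right u v hu hv z hv2.symm t
  have h2 := B.ft_left u v hu hv z (by rw [hv2]; exact hz.eq.symm) t
  have h3 : (B.val (u.take t))⁻¹ * z * B.val (u.take t)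
      = ((B.val (u.take t))⁻¹ * B.val (v.take t)) *
        ((z * B.val (u.take t))⁻¹ * B.val (v.take t))⁻¹ := by group
  rw [h3]
  refine (B.N_mul _ _).trans ?_
  rw [B.N_inv]
  omega

theorem QA_commute (x w z : G) (h : w⁻¹ * z * w = x⁻¹ * z * x) : Commute (x * w⁻¹) z := by
  have h1 : (x * w⁻¹) * z = z * (x * w⁻¹) := by
    have h2 : x * (w⁻¹ * z * w) * w⁻¹ = x * (x⁻¹ * z * x) * w⁻¹ := by rw [h]
    have h3 : x * (w⁻¹ * z * w) * w⁻¹ = (x * w⁻¹) * z := by group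
    have h4 : x * (x⁻¹ * z * x) * w⁻¹ = z * (x * w⁻¹) := by group
    rw [← h3, h2, h4]
  exact h1

theorem near_centralizer (z₁ z₂ : G) : ∃ R : ℕ, ∀ u ∈ B.M.accepts,
    Commute (B.val u) z₁ → Commute (B.val u) z₂ → ∀ t : ℕ,
    ∃ x, Commute x z₁ ∧ Commute x z₂ ∧ B.N (x⁻¹ * B.val (u.take t)) ≤ R := by
  classical
  let P : Set (G × G) := {p | B.N p ≤ 2 * (B.k * (B.N z₁ + 1))} ×ˢ
    {q | B.N q ≤ 2 * (B.k * (B.N z₂ + 1))}
  have hP : P.Finite := (B.N_fin _).prod (B.N_fin _)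
  let f : G × G → ℕ := fun pq =>
    if h : ∃ x : G, x⁻¹ * z₁ * x = pq.1 ∧ x⁻¹ * z₂ * x = pq.2 then B.N h.choose else 0
  obtain ⟨R, hR⟩ := (hP.image f).bddAbove
  refine ⟨R, ?_⟩
  intro u hu h1 h2 t
  have hp := B.conj_bound u hu z₁ h1 t
  have hq := B.conj_bound u hu z₂ h2 t
  obtain ⟨y, hy⟩ : ∃ y, y = B.val (u.take t) := ⟨_, rfl⟩
  rw [← hy] at hp hq ⊢
  have hex : ∃ x : G, x⁻¹ * z₁ * x = y⁻¹ * z₁ * y ∧ x⁻¹ * z₂ * x = y⁻¹ * z₂ * y := ⟨y, rfl, rfl⟩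
  have hmem : (y⁻¹ * z₁ * y, y⁻¹ * z₂ * y) ∈ P := ⟨hp, hq⟩
  have hf : f (y⁻¹ * z₁ * y, y⁻¹ * z₂ * y) = B.N hex.choose := dif_pos hex
  have hle : B.N hex.choose ≤ R := by
    rw [← hf]
    exact hR ⟨_, hmem, rfl⟩
  obtain ⟨hs1, hs2⟩ := hex.choose_spec
  refine ⟨y * (hex.choose)⁻¹, QA_commute _ _ _ hs1, QA_commute _ _ _ hs2, ?_⟩
  have h3 : (y * (hex.choose)⁻¹)⁻¹ * y = hex.choose := by group
  rw [h3]
  exact hle

end Pool.Agent.H34.Ger.BA
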