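import Pool.Agent.H34.Ger.GA
import Pool.Agent.H34.Ger.GD

/-!
UD: the flat `A = {aⁱ tⁿ}` is undistorted.
`coord_bound`: the set of `(i,n)` with `N (aⁱ tⁿ) ≤ R` is finite (injective map `(i,n) ↦ aⁱ tⁿ` (`at_inj`,
`at_comm`) into the finite ball `N_fin R`), hence `|i| + |n|` is bounded on it.
`undist`: `g = aⁱ tⁿ`.  `QC a a 0` with `y = 1`, `s₁ = 0` (`E_zero`, `N_one`) gives `K''` and for every `s` an `x_s`
commuting with `a`, `N (x_s⁻¹ E s g) ≤ K''`; `commute_a`: `x_s = a^(i_s) t^(n_s)`.  `N (x_s⁻¹ x_{s+1}) ≤ 2K'' + 1`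
(`E_step`), and `x_s⁻¹ x_{s+1} = a^(i_{s+1}-i_s) t^(n_{s+1}-n_s)`, so by `coord_bound` (`C₁` for `R = 2K''+1`)
`|i_{s+1}-i_s| + |n_{s+1}-n_s| ≤ C₁`; also `|i_0| + |n_0| ≤ C₁` and, as `E (T g) g = g`,
`|i - i_{T g}| + |n - n_{T g}| ≤ C₁`.  So `|i| + |n| ≤ C₁ (T g + 2)`, and
`T g = T (1 * g) ≤ T 1 + K N g` (`T_lip`).
-/

set_option autoImplicit false

namespace Pool.Agent.H34.Ger

private theorem UD_quot (i n i' n' : ℤ) :
    (a ^ i * t ^ n)⁻¹ * (a ^ i' * t ^ n') = a ^ (i' - i) * t ^ (n' - n) := by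
  have h1 : Commute (t ^ (-n)) (a ^ (-i)) := (at_comm.symm.zpow_zpow (-n) (-i))
  have h2 : Commute (t ^ (-n)) (a ^ (i' - i)) := (at_comm.symm.zpow_zpow (-n) (i' - i))
  have e1 : (a ^ i * t ^ n)⁻¹ = t ^ (-n) * a ^ (-i) := by
    rw [mul_inv_rev, zpow_neg, zpow_neg]
  calc (a ^ i * t ^ n)⁻¹ * (a ^ i' * t ^ n') = t ^ (-n) * (a ^ (-i) * a ^ i') * t ^ n' := by
        rw [e1]
        group
    _ = t ^ (-n) * a ^ (i' - i) * t ^ n' := by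
        rw [← zpow_add]
        congr 3
        ring
    _ = a ^ (i' - i) * t ^ (-n) * t ^ n' := by rw [h2.eq]
    _ = a ^ (i' - i) * t ^ (n' - n) := by
        rw [mul_assoc, ← zpow_add]
        congr 2
        ring

theorem coord_bound (𝒞 : Combing Gr) (R : ℕ) :
    ∃ C : ℤ, ∀ i n : ℤ, 𝒞.N (a ^ i * t ^ n) ≤ R → |i| + |n| ≤ C := by
  have hinj : Function.Injective (fun p : ℤ × ℤ => a ^ p.1 * t ^ p.2) := by
    rintro ⟨i, n⟩ ⟨i', n'⟩ h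
    have h0 : a ^ i * t ^ n = a ^ i' * t ^ n' := h
    have h1 := UD_quot i n i' n'
    rw [h0, inv_mul_cancel] at h1
    obtain ⟨h2, h3⟩ := at_inj _ _ h1.symm
    ext
    · show i = i'
      omega
    · show n = n'
      omega
  have hfin : {p : ℤ × ℤ | 𝒞.N (a ^ p.1 * t ^ p.2) ≤ R}.Finite :=
    (𝒞.N_fin R).preimage hinj.injOn
  obtain ⟨C, hC⟩ := (hfin.image fun p : ℤ × ℤ => |p.1| + |p.2|).bddAbove
  exact ⟨C, fun i n h => hC ⟨(i, n), h, rfl⟩⟩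

theorem undist (𝒞 : Combing Gr) :
    ∃ C : ℕ, ∀ i n : ℤ, |i| + |n| ≤ (C : ℤ) * 𝒞.N (a ^ i * t ^ n) + C := by
  obtain ⟨K2, hK2⟩ := 𝒞.QC a a 0
  obtain ⟨C1, hC1⟩ := coord_bound 𝒞 (2 * K2 + 1)
  have hC10 : 0 ≤ C1 := by
    have := hC1 0 0 (by
      rw [zpow_zero, zpow_zero, mul_one, 𝒞.N_one]
      omega)
    simpa using this
  have main : ∀ i n : ℤ, |i| + |n| ≤ C1 * (𝒞.T (a ^ i * t ^ n) + 2) := by
    intro i n
    set g : Gr := a ^ i * t ^ n with hg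
    have hcomm : Commute g a :=
      ((Commute.refl a).zpow_left i).mul_left (at_comm.symm.zpow_left n)
    have h1 : ∀ s : ℕ, ∃ i' n' : ℤ, 𝒞.N ((a ^ i' * t ^ n')⁻¹ * 𝒞.E s g) ≤ K2 := by
      intro s
      obtain ⟨x, hx, -, hN⟩ := hK2 g 1 0 (Nat.zero_le _)
        (by rw [𝒞.E_zero, inv_one, one_mul, 𝒞.N_one])
        (by rw [inv_one, one_mul]; exact hcomm) (by rw [inv_one, one_mul]; exact hcomm) s
        (Nat.zero_le _)
      obtain ⟨i', n', rfl⟩ := commute_a x hx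
      rw [one_mul] at hN
      exact ⟨i', n', hN⟩
    choose I J hIJ using h1
    have hd : ∀ s, 𝒞.d (a ^ I s * t ^ J s) (𝒞.E s g) ≤ K2 := hIJ
    -- bounded steps
    have hstep : ∀ s, |I (s + 1) - I s| + |J (s + 1) - J s| ≤ C1 := by
      intro s
      apply hC1
      rw [← UD_quot]
      show 𝒞.d (a ^ I s * t ^ J s) (a ^ I (s + 1) * t ^ J (s + 1)) ≤ _
      have h2 := 𝒞.d_tri (a ^ I s * t ^ J s) (𝒞.E s g) (a ^ I (s + 1) * t ^ J (s + 1))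
      have h3 := 𝒞.d_tri (𝒞.E s g) (𝒞.E (s + 1) g) (a ^ I (s + 1) * t ^ J (s + 1))
      have h4 : 𝒞.d (𝒞.E s g) (𝒞.E (s + 1) g) ≤ 1 := 𝒞.E_step s g
      have h5 := hd s
      have h6 := hd (s + 1)
      rw [𝒞.d_comm] at h6
      omega
    have hzero : |I 0| + |J 0| ≤ C1 := by
      apply hC1
      have h2 := hIJ 0
      rw [𝒞.E_zero, mul_one, 𝒞.N_inv] at h2
      omega
    have hind : ∀ s : ℕ, |I s| + |J s| ≤ C1 * (s + 1) := by
      intro s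
      induction s with
      | zero => simpa using hzero
      | succ s ih =>
        have h2 := hstep s
        have h3 : |I (s + 1)| ≤ |I s| + |I (s + 1) - I s| := by
          have := abs_add_le (I s) (I (s + 1) - I s)
          rwa [add_sub_cancel] at this
        have h4 : |J (s + 1)| ≤ |J s| + |J (s + 1) - J s| := by
          have := abs_add_le (J s) (J (s + 1) - J s)
          rwa [add_sub_cancel] at this
        push_cast
        linarith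
    have hend : |i - I (𝒞.T g)| + |n - J (𝒞.T g)| ≤ C1 := by
      apply hC1
      rw [← UD_quot]
      have h2 := hIJ (𝒞.T g)
      rw [𝒞.E_top g _ le_rfl] at h2
      rw [← hg]
      omega
    have h5 := hind (𝒞.T g)
    have h3 : |i| ≤ |I (𝒞.T g)| + |i - I (𝒞.T g)| := by
      have := abs_add_le (I (𝒞.T g)) (i - I (𝒞.T g))
      rwa [add_sub_cancel] at this
    have h4 : |n| ≤ |J (𝒞.T g)| + |n - J (𝒞.T g)| := by
      have := abs_add_le (J (𝒞.T g)) (n - J (𝒞.T g))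
      rwa [add_sub_cancel] at this
    linarith
  refine ⟨C1.toNat * (𝒞.K + 𝒞.T 1 + 2), fun i n => ?_⟩
  have h1 := main i n
  have h2 := 𝒞.T_lip 1 (a ^ i * t ^ n)
  rw [one_mul] at h2
  have h3 : ((C1.toNat : ℕ) : ℤ) = C1 := Int.toNat_of_nonneg hC10
  have h2' : (𝒞.T (a ^ i * t ^ n) : ℤ) ≤ 𝒞.T 1 + 𝒞.K * 𝒞.N (a ^ i * t ^ n) := by
    exact_mod_cast h2
  push_cast
  rw [h3]
  have hN0 : (0 : ℤ) ≤ 𝒞.N (a ^ i * t ^ n) := by positivity
  have hT0 : (0 : ℤ) ≤ 𝒞.T 1 := by positivity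
  have hK0 : (0 : ℤ) ≤ 𝒞.K := by positivity
  calc |i| + |n| ≤ C1 * (𝒞.T (a ^ i * t ^ n) + 2) := h1
    _ ≤ C1 * ((𝒞.T 1 + 𝒞.K * 𝒞.N (a ^ i * t ^ n)) + 2) := by gcongr
    _ ≤ C1 * ((𝒞.K + 𝒞.T 1 + 2) * 𝒞.N (a ^ i * t ^ n) + (𝒞.K + 𝒞.T 1 + 2)) := by
        apply mul_le_mul_of_nonneg_left _ hC10
        nlinarith [mul_nonneg hT0 hN0]
    _ = C1 * (𝒞.K + 𝒞.T 1 + 2) * 𝒞.N (a ^ i * t ^ n) + C1 * (𝒞.K + 𝒞.T 1 + 2) := by ring

end Pool.Agent.H34.Ger
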